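import Pool.Agent.Work.MP_e9e200_al.Bd.B11

/-! Item D0a: finitely generated modules over finitely generated commutative rings have finite
quotients. -/

set_option autoImplicit false

namespace Pool.Agent.Work.MP_e9e200_al.SP

namespace FQ

/-- the integers are a Jacobson ring -/
theorem jac : IsJacobsonRing ℤ := by
  rw [isJacobsonRing_iff_prime_eq]
  intro P hP
  by_cases h0 : P = ⊥
  · subst h0
    apply le_antisymm _ Ideal.le_jacobson
    intro x hx
    rw [Ideal.mem_jacobson_bot] at hx
    have h1 := hx x
    rw [Int.isUnit_iff] at h1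
    rw [Ideal.mem_bot]
    rcases h1 with h1 | h1
    · exact mul_self_eq_zero.mp (by linarith)
    · nlinarith [mul_self_nonneg x]
  · have hm : P.IsMaximal := hP.isMaximal h0
    exact Ideal.jacobson_eq_self_of_isMaximal

/-- a field which is of finite type over the integers is finite -/
theorem finite_field (K : Type) [Field K] [Algebra.FiniteType ℤ K] : Finite K := by
  have hj : IsJacobsonRing ℤ := jac
  have h1 : Module.Finite ℤ K := finite_of_finite_type_of_isJacobsonRing ℤ K
  obtain ⟨p, hp⟩ := CharP.exists K
  rcases Nat.eq_zero_or_pos p with h0 | h0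
  · exfalso
    subst h0
    have hc : CharZero K := CharP.charP_to_charZero K
    have hinj : Function.Injective (algebraMap ℤ K) := by
      intro a b hab
      simpa using hab
    have hI : Algebra.IsIntegral ℤ K := inferInstance
    have hF : IsField ℤ := isField_of_isIntegral_of_isField hinj (Field.toIsField K)
    exact Int.not_isField hF
  · have ht : Module.IsTorsion ℤ K := by
      intro x
      refine ⟨⟨(p : ℤ), ?_⟩, ?_⟩
      · rw [mem_nonZeroDivisors_iff_ne_zero]
        exact_mod_cast h0.ne'
      · show ((p : ℤ) • x : K) = 0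
        rw [zsmul_eq_mul]
        simp
    exact Module.finite_of_fg_torsion K ht

end FQ

open FQ in
theorem I_FQ : StFQ := by
  intro R M _ _ _ _ _ _
  obtain ⟨W, hW, -⟩ := (IsCoatomic.eq_top_or_exists_le_coatom (⊥ : Submodule R M)).resolve_left
    bot_ne_top
  refine ⟨W, hW.1, ?_⟩
  have hs : IsSimpleModule R (M ⧸ W) := isSimpleModule_iff_isCoatom.mpr hW
  obtain ⟨I, hI, ⟨e⟩⟩ := isSimpleModule_iff_quot_maximal.mp hs
  have hft : Algebra.FiniteType ℤ (R ⧸ I) :=
    Algebra.FiniteType.of_surjective (Ideal.Quotient.mk I).toIntAlgHom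
      Ideal.Quotient.mk_surjective
  let F : Field (R ⧸ I) := Ideal.Quotient.field I
  have hfin : Finite (R ⧸ I) := @finite_field (R ⧸ I) F hft
  exact Finite.of_equiv _ e.symm.toEquiv

end Pool.Agent.Work.MP_e9e200_al.SP
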