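import Pool.Agent.Work.MP_e9e200_al.Bd.B11

/-!
# The faces of the orthant are acyclic
-/

set_option autoImplicit false

namespace Pool.Agent.Work.MP_e9e200_al.SP

open Pool.Agent.Work.MP_e9e200_al

namespace Acy

variable {L k : Type} [Field k]

/-! ### Level zero -/

/-- multiplication of the coefficients by a function -/
noncomputable def mulX (g : Pt → k) (u : List L →₀ (Pt → k)) : List L →₀ (Pt → k) :=
  u.mapRange (fun φ => g * φ) (mul_zero g)

theorem mulX_apply (g : Pt → k) (u : List L →₀ (Pt → k)) (l : List L) :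
    mulX g u l = g * u l := rfl

theorem mulX_add (g : Pt → k) (u v : List L →₀ (Pt → k)) :
    mulX g (u + v) = mulX g u + mulX g v := by
  ext l : 1
  rw [mulX_apply, Finsupp.add_apply, Finsupp.add_apply, mulX_apply, mulX_apply, mul_add]

theorem mulX_sub (g : Pt → k) (u v : List L →₀ (Pt → k)) :
    mulX g (u - v) = mulX g u - mulX g v := by
  ext l : 1
  rw [mulX_apply, Finsupp.sub_apply, Finsupp.sub_apply, mulX_apply, mulX_apply, mul_sub]

theorem mulX_zero (g : Pt → k) : mulX g (0 : List L →₀ (Pt → k)) = 0 := by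
  ext l : 1
  rw [mulX_apply, Finsupp.zero_apply, mul_zero]

theorem mulX_single (g : Pt → k) (l : List L) (φ : Pt → k) :
    mulX g (Finsupp.single l φ) = Finsupp.single l (g * φ) :=
  Finsupp.mapRange_single

theorem mulX_mapDomain (g : Pt → k) (f : List L → List L) (w : List L →₀ (Pt → k)) :
    mulX g (Finsupp.mapDomain f w) = Finsupp.mapDomain f (mulX g w) := by
  induction w using Finsupp.induction_linear with
  | zero => rw [Finsupp.mapDomain_zero, mulX_zero, Finsupp.mapDomain_zero]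
  | add u v hu hv => rw [Finsupp.mapDomain_add, mulX_add, hu, hv, mulX_add, Finsupp.mapDomain_add]
  | single l φ => rw [Finsupp.mapDomain_single, mulX_single, mulX_single, Finsupp.mapDomain_single]

theorem Dl_zero (Ψ : L → Pt → k) (l : List L) : Dl Ψ l 0 = 0 := by
  induction l with
  | nil => rfl
  | cons a l ih =>
    rw [Dl, ih, Finsupp.mapDomain_zero, sub_zero]
    have : (fun y => (Ψ a y - 1) * (0 : Pt → k) y) = 0 := by
      funext y
      simp
    rw [this, Finsupp.single_zero]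

theorem Dl_add (Ψ : L → Pt → k) (l : List L) (φ φ' : Pt → k) :
    Dl Ψ l (φ + φ') = Dl Ψ l φ + Dl Ψ l φ' := by
  induction l with
  | nil => exact (add_zero 0).symm
  | cons a l ih =>
    rw [Dl, Dl, Dl, ih, Finsupp.mapDomain_add]
    have : (fun y => (Ψ a y - 1) * (φ + φ') y) =
        (fun y => (Ψ a y - 1) * φ y) + (fun y => (Ψ a y - 1) * φ' y) := by
      funext y
      simp only [Pi.add_apply]
      ring
    rw [this, Finsupp.single_add]
    abel

/-- the differential in level zero -/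
noncomputable def D0 (Ψ : L → Pt → k) (u : List L →₀ (Pt → k)) : List L →₀ (Pt → k) :=
  u.sum (fun l φ => Dl Ψ l φ)

theorem D0_add (Ψ : L → Pt → k) (u v : List L →₀ (Pt → k)) :
    D0 Ψ (u + v) = D0 Ψ u + D0 Ψ v :=
  Finsupp.sum_add_index' (fun l => Dl_zero Ψ l) (fun l => Dl_add Ψ l)

theorem D0_zero (Ψ : L → Pt → k) : D0 Ψ 0 = 0 := Finsupp.sum_zero_index

theorem D0_single (Ψ : L → Pt → k) (l : List L) (φ : Pt → k) :
    D0 Ψ (Finsupp.single l φ) = Dl Ψ l φ := Finsupp.sum_single_index (Dl_zero Ψ l)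

theorem D0_cons (Ψ : L → Pt → k) (a : L) (w : List L →₀ (Pt → k)) :
    D0 Ψ (Finsupp.mapDomain (fun l' => a :: l') w) =
      mulX (fun y => Ψ a y - 1) w - Finsupp.mapDomain (fun l' => a :: l') (D0 Ψ w) := by
  induction w using Finsupp.induction_linear with
  | zero => rw [Finsupp.mapDomain_zero, D0_zero, mulX_zero, Finsupp.mapDomain_zero, sub_zero]
  | add u v hu hv =>
    rw [Finsupp.mapDomain_add, D0_add, hu, hv, mulX_add, D0_add, Finsupp.mapDomain_add]
    abel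
  | single l φ =>
    rw [Finsupp.mapDomain_single, D0_single, D0_single, mulX_single, Dl]
    rfl

theorem Dl_mul (Ψ : L → Pt → k) (g : Pt → k) (l : List L) (φ : Pt → k) :
    Dl Ψ l (g * φ) = mulX g (Dl Ψ l φ) := by
  induction l with
  | nil => exact (mulX_zero g).symm
  | cons a l ih =>
    rw [Dl, Dl, ih, mulX_sub, mulX_single, mulX_mapDomain]
    congr 2
    funext y
    simp only [Pi.mul_apply]
    ring

theorem D0_mulX (Ψ : L → Pt → k) (g : Pt → k) (w : List L →₀ (Pt → k)) :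
    D0 Ψ (mulX g w) = mulX g (D0 Ψ w) := by
  induction w using Finsupp.induction_linear with
  | zero => rw [mulX_zero, D0_zero, mulX_zero]
  | add u v hu hv => rw [mulX_add, D0_add, hu, hv, D0_add, mulX_add]
  | single l φ => rw [mulX_single, D0_single, D0_single, Dl_mul]

theorem D0_sum (Ψ : L → Pt → k) (s : Finset ℕ) (F : ℕ → (List L →₀ (Pt → k))) :
    D0 Ψ (∑ j ∈ s, F j) = ∑ j ∈ s, D0 Ψ (F j) :=
  map_sum (AddMonoidHom.mk' (D0 Ψ) (D0_add Ψ)) F s

/-! ### Shifts -/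

theorem shiftY_zero (j : ℕ) : shiftY j (0 : Pt → k) = 0 := by
  funext y
  simp [shiftY]

theorem shiftY_add (j : ℕ) (φ φ' : Pt → k) : shiftY j (φ + φ') = shiftY j φ + shiftY j φ' := by
  funext y
  simp only [shiftY, Pi.add_apply]
  split_ifs <;> simp

theorem shiftY_comm (i j : ℕ) (φ : Pt → k) :
    shiftY i (shiftY j φ) = shiftY j (shiftY i φ) := by
  rcases eq_or_ne i j with rfl | hij
  · rfl
  · funext y
    simp only [shiftY, Function.update_of_ne hij, Function.update_of_ne hij.symm]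
    rw [Function.update_comm hij]
    split_ifs <;> rfl

/-- the shift operator in level zero -/
noncomputable def T0 (cj : ℕ → L → L) (j : ℕ) (u : List L →₀ (Pt → k)) : List L →₀ (Pt → k) :=
  u.sum (fun l φ => Finsupp.single (l.map (cj j)) (shiftY j φ))

theorem T0_add (cj : ℕ → L → L) (j : ℕ) (u v : List L →₀ (Pt → k)) :
    T0 cj j (u + v) = T0 cj j u + T0 cj j v :=
  Finsupp.sum_add_index' (fun l => by rw [shiftY_zero, Finsupp.single_zero])
    (fun l φ φ' => by rw [shiftY_add, Finsupp.single_add])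

theorem T0_zero (cj : ℕ → L → L) (j : ℕ) : T0 cj j (0 : List L →₀ (Pt → k)) = 0 :=
  Finsupp.sum_zero_index

theorem T0_sub (cj : ℕ → L → L) (j : ℕ) (u v : List L →₀ (Pt → k)) :
    T0 cj j (u - v) = T0 cj j u - T0 cj j v :=
  map_sub (AddMonoidHom.mk' (T0 (k := k) cj j) (T0_add cj j)) u v

theorem T0_single (cj : ℕ → L → L) (j : ℕ) (l : List L) (φ : Pt → k) :
    T0 cj j (Finsupp.single l φ) = Finsupp.single (l.map (cj j)) (shiftY j φ) :=
  Finsupp.sum_single_index (by rw [shiftY_zero, Finsupp.single_zero])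

theorem T0_cons (cj : ℕ → L → L) (j : ℕ) (a : L) (w : List L →₀ (Pt → k)) :
    T0 cj j (Finsupp.mapDomain (fun l' => a :: l') w) =
      Finsupp.mapDomain (fun l' => cj j a :: l') (T0 cj j w) := by
  induction w using Finsupp.induction_linear with
  | zero => rw [Finsupp.mapDomain_zero, T0_zero, Finsupp.mapDomain_zero]
  | add u v hu hv =>
    rw [Finsupp.mapDomain_add, T0_add, hu, hv, T0_add, Finsupp.mapDomain_add]
  | single l φ =>
    rw [Finsupp.mapDomain_single, T0_single, T0_single, Finsupp.mapDomain_single]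
    rfl

theorem T0_comm (cj : ℕ → L → L) (i j : ℕ) (hc : ∀ a, cj i (cj j a) = cj j (cj i a))
    (u : List L →₀ (Pt → k)) : T0 cj i (T0 cj j u) = T0 cj j (T0 cj i u) := by
  induction u using Finsupp.induction_linear with
  | zero => simp only [T0_zero]
  | add u v hu hv => simp only [T0_add, hu, hv]
  | single l φ =>
    simp only [T0_single]
    rw [shiftY_comm, List.map_map, List.map_map]
    congr 2
    funext a
    exact hc a

theorem D0_T0 (Ψ : L → Pt → k) (cj : ℕ → L → L) (j : ℕ)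
    (hΨ : ∀ a y, Ψ (cj j a) (Function.update y j (y j + 1)) = Ψ a y)
    (u : List L →₀ (Pt → k)) : D0 Ψ (T0 cj j u) = T0 cj j (D0 Ψ u) := by
  induction u using Finsupp.induction_linear with
  | zero => simp only [T0_zero, D0_zero]
  | add u v hu hv => simp only [T0_add, D0_add, hu, hv]
  | single l φ =>
    rw [T0_single, D0_single, D0_single]
    induction l with
    | nil => exact (T0_zero cj j).symm
    | cons a l ih =>
      rw [List.map_cons, Dl, Dl, T0_sub, T0_single, T0_cons, ih]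
      congr 2
      funext y
      simp only [shiftY]
      split_ifs with h
      · rw [mul_zero]
      · have h1 := hΨ a (Function.update y j (y j - 1))
        rw [Function.update_self, Function.update_idem, Nat.sub_add_cancel (by omega),
          Function.update_eq_self] at h1
        rw [h1]

/-! ### All levels -/

/-- first component -/
def f1 {i : ℕ} (u : XX L k (i + 1)) : XX L k i := (show XX L k i × XX L k i from u).1

/-- second component -/
def f2 {i : ℕ} (u : XX L k (i + 1)) : XX L k i := (show XX L k i × XX L k i from u).2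

/-- pairs -/
def mk {i : ℕ} (a b : XX L k i) : XX L k (i + 1) := (show XX L k i × XX L k i from (a, b))

theorem ext' {i : ℕ} {u v : XX L k (i + 1)} (h1 : f1 u = f1 v) (h2 : f2 u = f2 v) : u = v :=
  Prod.ext h1 h2

theorem tX_zero' (cj : ℕ → L → L) (j : ℕ) (u : XX L k 0) : tX cj j 0 u = T0 cj j u := rfl

theorem tX_succ1 (cj : ℕ → L → L) (j : ℕ) {i : ℕ} (u : XX L k (i + 1)) :
    f1 (tX cj j (i + 1) u) = tX cj j i (f1 u) := rfl

theorem tX_succ2 (cj : ℕ → L → L) (j : ℕ) {i : ℕ} (u : XX L k (i + 1)) :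
    f2 (tX cj j (i + 1) u) = tX cj j i (f2 u) := rfl

theorem DX_succ1 (Ψ : L → Pt → k) (cj : ℕ → L → L) {i : ℕ} (u : XX L k (i + 1)) :
    f1 (DX Ψ cj (i + 1) u) = DX Ψ cj i (f1 u) + (f2 u - tX cj i i (f2 u)) := rfl

theorem DX_succ2 (Ψ : L → Pt → k) (cj : ℕ → L → L) {i : ℕ} (u : XX L k (i + 1)) :
    f2 (DX Ψ cj (i + 1) u) = - DX Ψ cj i (f2 u) := rfl

theorem f1_add {i : ℕ} (u v : XX L k (i + 1)) : f1 (u + v) = f1 u + f1 v := rfl
theorem f2_add {i : ℕ} (u v : XX L k (i + 1)) : f2 (u + v) = f2 u + f2 v := rfl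
theorem f1_zero {i : ℕ} : f1 (0 : XX L k (i + 1)) = 0 := rfl
theorem f2_zero {i : ℕ} : f2 (0 : XX L k (i + 1)) = 0 := rfl
theorem f1_mk {i : ℕ} (u v : XX L k i) : f1 (mk u v) = u := rfl
theorem f2_mk {i : ℕ} (u v : XX L k i) : f2 (mk u v) = v := rfl

theorem tX_add (cj : ℕ → L → L) (j : ℕ) : ∀ (i : ℕ) (u v : XX L k i),
    tX cj j i (u + v) = tX cj j i u + tX cj j i v
  | 0, u, v => T0_add cj j u v
  | i + 1, u, v => ext' (tX_add cj j i (f1 u) (f1 v)) (tX_add cj j i (f2 u) (f2 v))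

theorem tX_neg (cj : ℕ → L → L) (j : ℕ) (i : ℕ) (u : XX L k i) :
    tX cj j i (- u) = - tX cj j i u :=
  map_neg (AddMonoidHom.mk' (tX (k := k) cj j i) (tX_add cj j i)) u

theorem tX_sub (cj : ℕ → L → L) (j : ℕ) (i : ℕ) (u v : XX L k i) :
    tX cj j i (u - v) = tX cj j i u - tX cj j i v :=
  map_sub (AddMonoidHom.mk' (tX (k := k) cj j i) (tX_add cj j i)) u v

theorem tX_comm (cj : ℕ → L → L) (j j' : ℕ) (hc : ∀ a, cj j (cj j' a) = cj j' (cj j a)) :
    ∀ (i : ℕ) (u : XX L k i), tX cj j i (tX cj j' i u) = tX cj j' i (tX cj j i u)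
  | 0, u => T0_comm cj j j' hc u
  | i + 1, u => ext' (tX_comm cj j j' hc i (f1 u)) (tX_comm cj j j' hc i (f2 u))

theorem DX_add (Ψ : L → Pt → k) (cj : ℕ → L → L) : ∀ (i : ℕ) (u v : XX L k i),
    DX Ψ cj i (u + v) = DX Ψ cj i u + DX Ψ cj i v
  | 0, u, v => D0_add Ψ u v
  | i + 1, u, v => by
    apply ext'
    · rw [DX_succ1, f1_add, f2_add, f1_add, DX_succ1, DX_succ1, DX_add Ψ cj i, tX_add]
      abel
    · rw [DX_succ2, f2_add, f2_add, DX_succ2, DX_succ2, DX_add Ψ cj i]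
      abel

theorem DX_neg (Ψ : L → Pt → k) (cj : ℕ → L → L) (i : ℕ) (u : XX L k i) :
    DX Ψ cj i (- u) = - DX Ψ cj i u :=
  map_neg (AddMonoidHom.mk' (DX Ψ cj i) (DX_add Ψ cj i)) u

theorem DX_sub (Ψ : L → Pt → k) (cj : ℕ → L → L) (i : ℕ) (u v : XX L k i) :
    DX Ψ cj i (u - v) = DX Ψ cj i u - DX Ψ cj i v :=
  map_sub (AddMonoidHom.mk' (DX Ψ cj i) (DX_add Ψ cj i)) u v

theorem DX_tX (Ψ : L → Pt → k) (cj : ℕ → L → L) (m : ℕ)
    (hc : ∀ j < m, ∀ i < m, ∀ a, cj i (cj j a) = cj j (cj i a))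
    (hΨ : ∀ j < m, ∀ a y, Ψ (cj j a) (Function.update y j (y j + 1)) = Ψ a y) (j : ℕ)
    (hj : j < m) : ∀ (i : ℕ), i ≤ m → ∀ u : XX L k i,
    DX Ψ cj i (tX cj j i u) = tX cj j i (DX Ψ cj i u)
  | 0, _, u => D0_T0 Ψ cj j (hΨ j hj) u
  | i + 1, hi, u => by
    apply ext'
    · rw [DX_succ1, tX_succ1, tX_succ2, tX_succ1, DX_succ1, tX_add, tX_sub,
        DX_tX Ψ cj m hc hΨ j hj i (by omega),
        tX_comm cj i j (fun a => hc j hj i (by omega) a)]
    · rw [DX_succ2, tX_succ2, tX_succ2, DX_succ2, tX_neg,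
        DX_tX Ψ cj m hc hΨ j hj i (by omega)]

/-! ### Supports -/

theorem EX_zero' (Ls : Finset ℕ) (n : ℤ) (u : XX L k 0) : EX 0 Ls n u ↔
    ∀ l y, (show List L →₀ (Pt → k) from u) l y ≠ 0 →
      (∃ j ∈ Ls, y j = 0) ∧ (l.length : ℤ) = n := Iff.rfl

theorem EX_succ' {i : ℕ} (Ls : Finset ℕ) (n : ℤ) (u : XX L k (i + 1)) :
    EX (i + 1) Ls n u ↔ EX i Ls n (f1 u) ∧ EX i (Ls.erase i) (n - 1) (f2 u) := Iff.rfl

theorem EX_add : ∀ (i : ℕ) (Ls : Finset ℕ) (n : ℤ) (u v : XX L k i), EX i Ls n u → EX i Ls n v →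
    EX i Ls n (u + v)
  | 0, Ls, n, u, v => by
    intro hu hv l y h
    by_cases h1 : (show List L →₀ (Pt → k) from u) l y = 0
    · refine hv l y ?_
      intro h2
      apply h
      change (show List L →₀ (Pt → k) from u) l y + (show List L →₀ (Pt → k) from v) l y = 0
      rw [h1, h2, add_zero]
    · exact hu l y h1
  | i + 1, Ls, n, u, v => fun hu hv =>
    ⟨EX_add i Ls n _ _ hu.1 hv.1, EX_add i _ _ _ _ hu.2 hv.2⟩

theorem EX_neg : ∀ (i : ℕ) (Ls : Finset ℕ) (n : ℤ) (u : XX L k i), EX i Ls n u →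
    EX i Ls n (- u)
  | 0, Ls, n, u => by
    intro hu l y h
    refine hu l y ?_
    intro h2
    apply h
    change - (show List L →₀ (Pt → k) from u) l y = 0
    rw [h2, neg_zero]
  | i + 1, Ls, n, u => fun hu => ⟨EX_neg i Ls n _ hu.1, EX_neg i _ _ _ hu.2⟩

theorem EX_sub (i : ℕ) (Ls : Finset ℕ) (n : ℤ) (u v : XX L k i) (hu : EX i Ls n u)
    (hv : EX i Ls n v) : EX i Ls n (u - v) := by
  rw [sub_eq_add_neg]
  exact EX_add i Ls n u (-v) hu (EX_neg i Ls n v hv)

theorem EX_mono : ∀ (i : ℕ) (Ls Ls' : Finset ℕ) (n : ℤ) (u : XX L k i), Ls ⊆ Ls' →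
    EX i Ls n u → EX i Ls' n u
  | 0, Ls, Ls', n, u => by
    intro hL hu l y h
    obtain ⟨⟨j, hj, hy⟩, h2⟩ := hu l y h
    exact ⟨⟨j, hL hj, hy⟩, h2⟩
  | i + 1, Ls, Ls', n, u => fun hL hu =>
    ⟨EX_mono i Ls Ls' n _ hL hu.1, EX_mono i _ _ _ _ (Finset.erase_subset_erase i hL) hu.2⟩

theorem EX_tX (cj : ℕ → L → L) (j : ℕ) : ∀ (i : ℕ) (Ls : Finset ℕ) (n : ℤ) (u : XX L k i),
    j ∉ Ls → EX i Ls n u → EX i Ls n (tX cj j i u)
  | 0, Ls, n, u => by
    intro hj hu l y h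
    have h1 : (T0 cj j (show List L →₀ (Pt → k) from u)) l y ≠ 0 := h
    rw [T0, Finsupp.sum_apply, Finsupp.sum, Finset.sum_apply] at h1
    obtain ⟨l', -, h2⟩ := Finset.exists_ne_zero_of_sum_ne_zero h1
    classical
    rw [Finsupp.single_apply] at h2
    split_ifs at h2 with h3
    · simp only [shiftY] at h2
      split_ifs at h2 with h4
      · exact absurd rfl h2
      · obtain ⟨⟨j', hj', hy'⟩, h5⟩ := hu l' _ h2
        have hne : j' ≠ j := fun h => hj (h ▸ hj')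
        rw [Function.update_of_ne hne] at hy'
        refine ⟨⟨j', hj', hy'⟩, ?_⟩
        rw [← h3, List.length_map]
        exact h5
    · exact absurd rfl h2
  | i + 1, Ls, n, u => fun hj hu =>
    ⟨EX_tX cj j i Ls n _ hj hu.1,
      EX_tX cj j i _ _ _ (fun h => hj (Finset.mem_of_mem_erase h)) hu.2⟩

/-! ### Level zero is acyclic -/

theorem acy0 (Ψ : L → Pt → k) (b : ℕ → L) (m : ℕ)
    (hb : ∀ j < m, ∀ y : Pt, y j = 0 → Ψ (b j) y ≠ 1) (Ls : Finset ℕ) (hL : ∀ j ∈ Ls, j < m)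
    (n : ℤ) (u : List L →₀ (Pt → k))
    (hu : ∀ l y, u l y ≠ 0 → (∃ j ∈ Ls, y j = 0) ∧ (l.length : ℤ) = n) (hD : D0 Ψ u = 0) :
    ∃ ρ : List L →₀ (Pt → k),
      (∀ l y, ρ l y ≠ 0 → (∃ j ∈ Ls, y j = 0) ∧ (l.length : ℤ) = n + 1) ∧ D0 Ψ ρ = u := by
  classical
  let ch : Pt → ℕ := fun y => if h : ∃ j ∈ Ls, y j = 0 then h.choose else 0
  let g : ℕ → Pt → k := fun j y =>
    if (∃ j ∈ Ls, y j = 0) ∧ ch y = j then (Ψ (b j) y - 1)⁻¹ else 0
  refine ⟨∑ j ∈ Ls, Finsupp.mapDomain (fun l' => b j :: l') (mulX (g j) u), ?_, ?_⟩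
  · intro l y h
    rw [Finsupp.finsetSum_apply, Finset.sum_apply] at h
    obtain ⟨j, hj, h2⟩ := Finset.exists_ne_zero_of_sum_ne_zero h
    by_cases hl : l ∈ Set.range (fun l' => b j :: l')
    · obtain ⟨l', rfl⟩ := hl
      rw [Finsupp.mapDomain_apply List.cons_injective, mulX_apply, Pi.mul_apply] at h2
      obtain ⟨h3, h4⟩ := hu l' y (right_ne_zero_of_mul h2)
      refine ⟨h3, ?_⟩
      simp only [List.length_cons, Nat.cast_add, Nat.cast_one]
      rw [h4]
    · rw [Finsupp.mapDomain_of_notMem_range _ _ hl] at h2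
      exact absurd rfl h2
  · rw [D0_sum]
    have h1 : ∀ j ∈ Ls, D0 Ψ (Finsupp.mapDomain (fun l' => b j :: l') (mulX (g j) u)) =
        mulX (fun y => (Ψ (b j) y - 1) * g j y) u := by
      intro j _
      rw [D0_cons, D0_mulX, hD, mulX_zero, Finsupp.mapDomain_zero, sub_zero]
      ext l : 1
      rw [mulX_apply, mulX_apply, mulX_apply, ← mul_assoc]
      rfl
    rw [Finset.sum_congr rfl h1]
    ext l y
    rw [Finsupp.finsetSum_apply, Finset.sum_apply]
    simp only [mulX_apply, Pi.mul_apply]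
    rw [← Finset.sum_mul]
    by_cases hy : ∃ j ∈ Ls, y j = 0
    · have hch : ch y ∈ Ls ∧ y (ch y) = 0 := by
        have : ch y = hy.choose := by
          simp only [ch]
          rw [dif_pos hy]
        rw [this]
        exact hy.choose_spec
      have h2 : ∑ j ∈ Ls, (Ψ (b j) y - 1) * g j y = 1 := by
        rw [Finset.sum_eq_single (ch y)]
        · have h5 : g (ch y) y = (Ψ (b (ch y)) y - 1)⁻¹ := if_pos ⟨hy, rfl⟩
          rw [h5]
          exact mul_inv_cancel₀ (sub_ne_zero.2 (hb _ (hL _ hch.1) y hch.2))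
        · intro j _ hj
          have h5 : g j y = 0 := if_neg (fun h => hj h.2.symm)
          rw [h5, mul_zero]
        · intro h
          exact absurd hch.1 h
      rw [h2, one_mul]
    · have h3 : u l y = 0 := by
        by_contra h
        exact hy (hu l y h).1
      rw [h3, mul_zero]

/-! ### The step -/

theorem acy (Ψ : L → Pt → k) (cj : ℕ → L → L) (b : ℕ → L) (m : ℕ)
    (hc : ∀ j < m, ∀ i < m, ∀ a, cj i (cj j a) = cj j (cj i a))
    (hΨ : ∀ j < m, ∀ a y, Ψ (cj j a) (Function.update y j (y j + 1)) = Ψ a y)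
    (hb : ∀ j < m, ∀ y : Pt, y j = 0 → Ψ (b j) y ≠ 1) :
    ∀ i ≤ m, ∀ Ls : Finset ℕ, (∀ j ∈ Ls, j < m) → ∀ (n : ℤ) (u : XX L k i), EX i Ls n u →
    DX Ψ cj i u = 0 → ∃ ρ : XX L k i, EX i Ls (n + 1) ρ ∧ DX Ψ cj i ρ = u
  | 0, _, Ls, hL, n, u, hu, hD => acy0 Ψ b m hb Ls hL n u hu hD
  | i + 1, hi, Ls, hL, n, u, hu, hD => by
    have hD1 : DX Ψ cj i (f1 u) + (f2 u - tX cj i i (f2 u)) = 0 := by
      rw [← DX_succ1, hD, f1_zero]
    have hD2 : DX Ψ cj i (f2 u) = 0 := by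
      have h := DX_succ2 Ψ cj u
      rw [hD, f2_zero] at h
      exact neg_eq_zero.1 h.symm
    obtain ⟨ρ0, hρ0, hρ0'⟩ := acy Ψ cj b m hc hΨ hb i (by omega) (Ls.erase i)
      (fun j hj => hL j (Finset.mem_of_mem_erase hj)) (n - 1) (f2 u) hu.2 hD2
    rw [sub_add_cancel] at hρ0
    have hni : i ∉ Ls.erase i := Finset.notMem_erase i Ls
    have hE : EX i Ls n (f1 u + (ρ0 - tX cj i i ρ0)) := by
      refine EX_add i Ls n _ _ hu.1 (EX_sub i Ls n _ _ ?_ ?_)
      · exact EX_mono i _ _ n _ (Finset.erase_subset i Ls) hρ0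
      · exact EX_mono i _ _ n _ (Finset.erase_subset i Ls) (EX_tX cj i i _ n _ hni hρ0)
    have hDE : DX Ψ cj i (f1 u + (ρ0 - tX cj i i ρ0)) = 0 := by
      rw [DX_add, DX_sub, DX_tX Ψ cj m hc hΨ i (by omega) i (by omega), hρ0']
      exact hD1
    obtain ⟨ρ1, hρ1, hρ1'⟩ := acy Ψ cj b m hc hΨ hb i (by omega) Ls hL n _ hE hDE
    refine ⟨mk ρ1 (-ρ0), ⟨hρ1, ?_⟩, ?_⟩
    · rw [show n + 1 - 1 = n by ring]
      exact EX_neg i _ n _ hρ0
    · apply ext'
      · rw [DX_succ1, f1_mk, f2_mk, hρ1', tX_neg]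
        abel
      · rw [DX_succ2, f2_mk, DX_neg, hρ0', neg_neg]

end Acy

theorem I_Acy : StAcy := by
  intro L k _ Ψ cj b m hc hΨ hb
  exact Acy.acy Ψ cj b m hc hΨ hb

end Pool.Agent.Work.MP_e9e200_al.SP
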