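import Pool.Agent.Work.MP_e9e200_al.Bd.B11

/-! # C4: the differential and the boundary are adjoint -/

set_option autoImplicit false

namespace Pool.Agent.Work.MP_e9e200_al.SP

namespace Adj

variable {L k : Type} [Field k]

/-- subtractive from additive -/
lemma lam_sub (Λ : (Pt → k) → k) (hΛ : ∀ f g, Λ (f + g) = Λ f + Λ g) (f g : Pt → k) :
    Λ (f - g) = Λ f - Λ g := by
  have h := hΛ (f - g) g
  rw [sub_add_cancel] at h
  rw [h, add_sub_cancel_right]

lemma lam_zero (Λ : (Pt → k) → k) (hΛ : ∀ f g, Λ (f + g) = Λ f + Λ g) : Λ 0 = 0 := by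
  have h := lam_sub Λ hΛ 0 0
  rw [sub_self, sub_self] at h
  exact h

/-- the pairing at level `0` as an additive map -/
noncomputable def pr0 (Λ : (Pt → k) → k) (hΛ : ∀ f g, Λ (f + g) = Λ f + Λ g)
    (c : List ℕ → List L → Pt → k) : (List L →₀ (Pt → k)) →+ k :=
  Finsupp.liftAddHom (fun l =>
    { toFun := fun φ => Λ (fun y => φ y * c [] l y)
      map_zero' := by
        have h : (fun y => (0 : Pt → k) y * c [] l y) = 0 := by
          funext y; simp
        rw [h]; exact lam_zero Λ hΛ
      map_add' := fun φ φ' => by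
        rw [← hΛ]
        congr 1
        funext y
        simp [add_mul] })

lemma pr0_eq (Λ : (Pt → k) → k) (hΛ : ∀ f g, Λ (f + g) = Λ f + Λ g)
    (c : List ℕ → List L → Pt → k) (u : List L →₀ (Pt → k)) :
    prX Λ 0 (show XX L k 0 from u) c = pr0 Λ hΛ c u := by
  rw [pr0, Finsupp.liftAddHom_apply]
  rfl

lemma pr0_single (Λ : (Pt → k) → k) (hΛ : ∀ f g, Λ (f + g) = Λ f + Λ g)
    (c : List ℕ → List L → Pt → k) (l : List L) (φ : Pt → k) :
    pr0 Λ hΛ c (Finsupp.single l φ) = Λ (fun y => φ y * c [] l y) := by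
  rw [pr0, Finsupp.liftAddHom_apply_single]
  rfl

lemma pr0_map (Λ : (Pt → k) → k) (hΛ : ∀ f g, Λ (f + g) = Λ f + Λ g)
    (c : List ℕ → List L → Pt → k) (a : L) (w : List L →₀ (Pt → k)) :
    pr0 Λ hΛ c (Finsupp.mapDomain (fun l' => a :: l') w) =
      pr0 Λ hΛ (fun J l' => c J (a :: l')) w := by
  induction w using Finsupp.induction_linear with
  | zero => rw [Finsupp.mapDomain_zero, map_zero, map_zero]
  | add f g hf hg => rw [Finsupp.mapDomain_add, map_add, map_add, hf, hg]
  | single l φ => rw [Finsupp.mapDomain_single, pr0_single, pr0_single]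

/-- the pairing is additive in the chain -/
lemma pr_add (Λ : (Pt → k) → k) (hΛ : ∀ f g, Λ (f + g) = Λ f + Λ g) :
    ∀ (i : ℕ) (u v : XX L k i) (c : List ℕ → List L → Pt → k),
    prX Λ i (u + v) c = prX Λ i u c + prX Λ i v c
  | 0, u, v, c => by
    have h := map_add (pr0 Λ hΛ c) (show List L →₀ (Pt → k) from u)
      (show List L →₀ (Pt → k) from v)
    rw [← pr0_eq, ← pr0_eq, ← pr0_eq] at h
    exact h
  | i + 1, u, v, c => by
    have h1 := pr_add Λ hΛ i (show XX L k i × XX L k i from u).1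
      (show XX L k i × XX L k i from v).1 c
    have h2 := pr_add Λ hΛ i (show XX L k i × XX L k i from u).2
      (show XX L k i × XX L k i from v).2 (fun J l => c (i :: J) l)
    have h3 : prX Λ (i + 1) (u + v) c =
        prX Λ i ((show XX L k i × XX L k i from u).1 + (show XX L k i × XX L k i from v).1) c +
        prX Λ i ((show XX L k i × XX L k i from u).2 + (show XX L k i × XX L k i from v).2)
          (fun J l => c (i :: J) l) := rfl
    rw [h3, h1, h2]
    have h4 : ∀ w : XX L k (i + 1), prX Λ (i + 1) w c =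
        prX Λ i (show XX L k i × XX L k i from w).1 c +
        prX Λ i (show XX L k i × XX L k i from w).2 (fun J l => c (i :: J) l) := fun _ => rfl
    rw [h4, h4]
    ring

lemma pr_sub (Λ : (Pt → k) → k) (hΛ : ∀ f g, Λ (f + g) = Λ f + Λ g)
    (i : ℕ) (u v : XX L k i) (c : List ℕ → List L → Pt → k) :
    prX Λ i (u - v) c = prX Λ i u c - prX Λ i v c := by
  have h := pr_add Λ hΛ i (u - v) v c
  rw [sub_add_cancel] at h
  rw [h, add_sub_cancel_right]

lemma pr_neg (Λ : (Pt → k) → k) (hΛ : ∀ f g, Λ (f + g) = Λ f + Λ g)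
    (i : ℕ) (u : XX L k i) (c : List ℕ → List L → Pt → k) :
    prX Λ i (-u) c = - prX Λ i u c := by
  have h := pr_sub Λ hΛ i u (u + u) c
  rw [pr_add Λ hΛ] at h
  have h2 : u - (u + u) = -u := by abel
  rw [h2] at h
  rw [h]; ring

/-- the pairing is subtractive in the family -/
lemma pr_subc (Λ : (Pt → k) → k) (hΛ : ∀ f g, Λ (f + g) = Λ f + Λ g) :
    ∀ (i : ℕ) (u : XX L k i) (c c' : List ℕ → List L → Pt → k),
    prX Λ i u (fun J l => c J l - c' J l) = prX Λ i u c - prX Λ i u c'
  | 0, u, c, c' => by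
    have h : ∀ w : List L →₀ (Pt → k), pr0 Λ hΛ (fun J l => c J l - c' J l) w =
        pr0 Λ hΛ c w - pr0 Λ hΛ c' w := by
      intro w
      induction w using Finsupp.induction_linear with
      | zero => rw [map_zero, map_zero, map_zero, sub_zero]
      | add f g hf hg => rw [map_add, map_add, map_add, hf, hg]; ring
      | single l φ =>
        rw [pr0_single, pr0_single, pr0_single, ← lam_sub Λ hΛ]
        congr 1
        funext y
        simp [mul_sub]
    have h1 := h (show List L →₀ (Pt → k) from u)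
    rw [← pr0_eq, ← pr0_eq, ← pr0_eq] at h1
    exact h1
  | i + 1, u, c, c' => by
    have h4 : ∀ d : List ℕ → List L → Pt → k, prX Λ (i + 1) u d =
        prX Λ i (show XX L k i × XX L k i from u).1 d +
        prX Λ i (show XX L k i × XX L k i from u).2 (fun J l => d (i :: J) l) := fun _ => rfl
    rw [h4, h4, h4, pr_subc Λ hΛ i _ c c',
      pr_subc Λ hΛ i _ (fun J l => c (i :: J) l) (fun J l => c' (i :: J) l)]
    ring

/-- level zero -/
lemma pr_Dl (Ψ : L → Pt → k) (Λ : (Pt → k) → k) (hΛ : ∀ f g, Λ (f + g) = Λ f + Λ g) :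
    ∀ (l : List L) (φ : Pt → k) (c : List ℕ → List L → Pt → k),
    pr0 Λ hΛ c (Dl Ψ l φ) = Λ (fun y => φ y * bdA (fun a g y => Ψ a y * g y) l (c []) y)
  | [], φ, c => by
    have h : (fun y => φ y * bdA (fun (a : L) (g : Pt → k) y => Ψ a y * g y) [] (c []) y) = 0 := by
      funext y; simp [bdA]
    rw [h, lam_zero Λ hΛ, Dl, map_zero]
  | a :: l, φ, c => by
    rw [Dl, map_sub, pr0_single, pr0_map, pr_Dl Ψ Λ hΛ l φ, ← lam_sub Λ hΛ]
    congr 1
    funext y
    simp only [bdA, Pi.sub_apply]
    ring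

/-- the shift -/
lemma pr_tX (cj : ℕ → L → L) (Λ : (Pt → k) → k) (hΛ : ∀ f g, Λ (f + g) = Λ f + Λ g) (j : ℕ) :
    ∀ (i : ℕ) (w : XX L k i) (c : List ℕ → List L → Pt → k),
    (∀ φ J l, Λ (fun y => shiftY j φ y * c J l y) = Λ (fun y => φ y * upY j (c J l) y)) →
    prX Λ i (tX cj j i w) c = prX Λ i w (fun J l => upY j (c J (l.map (cj j))))
  | 0, w, c, h => by
    have h1 : ∀ w : List L →₀ (Pt → k), pr0 Λ hΛ c (Finsupp.sum w
        (fun l φ => Finsupp.single (l.map (cj j)) (shiftY j φ))) =
        pr0 Λ hΛ (fun J l => upY j (c J (l.map (cj j)))) w := by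
      intro w
      rw [Finsupp.sum, map_sum]
      conv_rhs => rw [← Finsupp.sum_single w, Finsupp.sum, map_sum]
      refine Finset.sum_congr rfl (fun l _ => ?_)
      rw [pr0_single, pr0_single, h]
    have h2 := h1 (show List L →₀ (Pt → k) from w)
    rw [← pr0_eq, ← pr0_eq] at h2
    exact h2
  | i + 1, w, c, h => by
    have h1 := pr_tX cj Λ hΛ j i (show XX L k i × XX L k i from w).1 c h
    have h2 := pr_tX cj Λ hΛ j i (show XX L k i × XX L k i from w).2 (fun J l => c (i :: J) l)
      (fun φ J l => h φ (i :: J) l)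
    have h3 : prX Λ (i + 1) (tX cj j (i + 1) w) c =
        prX Λ i (tX cj j i (show XX L k i × XX L k i from w).1) c +
        prX Λ i (tX cj j i (show XX L k i × XX L k i from w).2) (fun J l => c (i :: J) l) := rfl
    rw [h3, h1, h2]
    rfl

end Adj

open Adj

/-- C4: the differential and the boundary are adjoint -/
theorem I_Adj : StAdj := by
  intro L k _ Ψ cj Λ hΛ i
  induction i with
  | zero =>
    intro u c _
    have h1 : ∀ w : List L →₀ (Pt → k), pr0 Λ hΛ c (Finsupp.sum w (fun l φ => Dl Ψ l φ)) =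
        pr0 Λ hΛ (fun J l => bd (fun a g y => Ψ a y * g y) (fun j g => upY j g) cj J l c) w := by
      intro w
      rw [Finsupp.sum, map_sum]
      conv_rhs => rw [← Finsupp.sum_single w, Finsupp.sum, map_sum]
      refine Finset.sum_congr rfl (fun l _ => ?_)
      rw [pr_Dl, pr0_single]
      rfl
    have h2 := h1 (show List L →₀ (Pt → k) from u)
    rw [← pr0_eq, ← pr0_eq] at h2
    exact h2
  | succ i ih =>
    intro u c h
    have e1 : prX Λ (i + 1) (DX Ψ cj (i + 1) u) c =
        prX Λ i (DX Ψ cj i (show XX L k i × XX L k i from u).1 +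
          ((show XX L k i × XX L k i from u).2 -
            tX cj i i (show XX L k i × XX L k i from u).2)) c +
        prX Λ i (- DX Ψ cj i (show XX L k i × XX L k i from u).2)
          (fun J l => c (i :: J) l) := rfl
    rw [e1, pr_add Λ hΛ, pr_sub Λ hΛ, pr_neg Λ hΛ,
      ih _ c (fun j hj => h j (Nat.lt_succ_of_lt hj)),
      ih _ (fun J l => c (i :: J) l) (fun j hj φ J l => h j (Nat.lt_succ_of_lt hj) φ (i :: J) l),
      pr_tX cj Λ hΛ i i _ c (fun φ J l => h i (Nat.lt_succ_self i) φ J l)]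
    have e2 : ∀ d : List ℕ → List L → Pt → k, prX Λ (i + 1) u d =
        prX Λ i (show XX L k i × XX L k i from u).1 d +
        prX Λ i (show XX L k i × XX L k i from u).2 (fun J l => d (i :: J) l) := fun _ => rfl
    have e3 : prX Λ i (show XX L k i × XX L k i from u).2 (fun J l =>
        bd (fun a g y => Ψ a y * g y) (fun j g => upY j g) cj (i :: J) l c) =
        prX Λ i (show XX L k i × XX L k i from u).2 c -
        prX Λ i (show XX L k i × XX L k i from u).2
          (fun J l => upY i (c J (l.map (cj i)))) -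
        prX Λ i (show XX L k i × XX L k i from u).2 (fun J l =>
          bd (fun a g y => Ψ a y * g y) (fun j g => upY j g) cj J l
            (fun J' l' => c (i :: J') l')) := by
      rw [← pr_subc Λ hΛ, ← pr_subc Λ hΛ]
      rfl
    rw [e2, e3]
    ring

end Pool.Agent.Work.MP_e9e200_al.SP
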