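import Pool.Agent.Work.MP_e9e200_al.Bd.B11

set_option autoImplicit false

namespace Pool.Agent.Work.MP_e9e200_al.SP

namespace Box

section

variable {k : Type} [Field k]

theorem congr (N : ℕ) : ∀ (i : ℕ) (n : Pt) (f g : Pt → k),
    (∀ y : Pt, (∀ j < i, y j < N) → (∀ j ≥ i, y j = n j) → f y = g y) →
    sumB i N n f = sumB i N n g
  | 0, n, f, g, h => h n (fun j hj => absurd hj (Nat.not_lt_zero j)) (fun _ _ => rfl)
  | i + 1, n, f, g, h => by
    show ∑ r ∈ Finset.range N, sumB i N (Function.update n i r) f =
      ∑ r ∈ Finset.range N, sumB i N (Function.update n i r) g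
    refine Finset.sum_congr rfl fun r hr => ?_
    apply congr N i
    intro y h1 h2
    apply h y
    · intro j hj
      rcases Nat.lt_succ_iff_lt_or_eq.1 hj with h3 | rfl
      · exact h1 j h3
      · rw [h2 j le_rfl, Function.update_self]
        exact Finset.mem_range.1 hr
    · intro j hj
      rw [h2 j (by omega), Function.update_of_ne (by omega)]

theorem add (N : ℕ) : ∀ (i : ℕ) (n : Pt) (f g : Pt → k),
    sumB i N n (f + g) = sumB i N n f + sumB i N n g
  | 0, n, f, g => rfl
  | i + 1, n, f, g => by
    show ∑ r ∈ Finset.range N, sumB i N (Function.update n i r) (f + g) =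
      ∑ r ∈ Finset.range N, sumB i N (Function.update n i r) f +
        ∑ r ∈ Finset.range N, sumB i N (Function.update n i r) g
    rw [← Finset.sum_add_distrib]
    exact Finset.sum_congr rfl fun r _ => add N i _ f g

theorem smul (N : ℕ) (c : k) : ∀ (i : ℕ) (n : Pt) (f : Pt → k),
    sumB i N n (fun y => c * f y) = c * sumB i N n f
  | 0, n, f => rfl
  | i + 1, n, f => by
    show ∑ r ∈ Finset.range N, sumB i N (Function.update n i r) (fun y => c * f y) =
      c * ∑ r ∈ Finset.range N, sumB i N (Function.update n i r) f
    rw [Finset.mul_sum]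
    exact Finset.sum_congr rfl fun r _ => smul N c i _ f

theorem zero (N : ℕ) : ∀ (i : ℕ) (n : Pt), sumB i N n (fun _ => (0 : k)) = 0
  | 0, n => rfl
  | i + 1, n => by
    show ∑ r ∈ Finset.range N, sumB i N (Function.update n i r) (fun _ => (0 : k)) = 0
    exact Finset.sum_eq_zero fun r _ => zero N i _

theorem slice (i N : ℕ) (n : Pt) (r : ℕ) (hr : r < N) (φ g : Pt → k) :
    sumB (i + 1) N n (fun y => φ y * (if y i = r then g y else 0)) =
      sumB i N (Function.update n i r) (fun y => φ y * g y) := by
  show ∑ s ∈ Finset.range N, sumB i N (Function.update n i s)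
    (fun y => φ y * (if y i = r then g y else 0)) = _
  rw [Finset.sum_eq_single r]
  · apply congr
    intro y _ h2
    have : y i = r := by rw [h2 i le_rfl, Function.update_self]
    simp only [this, if_true]
  · intro s _ hs
    refine Eq.trans ?_ (zero N i (Function.update n i s))
    apply congr
    intro y _ h2
    have : y i = s := by rw [h2 i le_rfl, Function.update_self]
    simp only [this, if_neg hs, mul_zero]
  · intro h
    exact absurd (Finset.mem_range.2 hr) h

theorem moveAux (N : ℕ) (j r r' : ℕ) : ∀ (i : ℕ), i ≤ j → ∀ (n : Pt) (f : Pt → k),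
    sumB i N (Function.update n j r') f =
      sumB i N (Function.update n j r) (fun y => f (Function.update y j r'))
  | 0, _, n, f => by
    show f (Function.update n j r') = f (Function.update (Function.update n j r) j r')
    rw [Function.update_idem]
  | i + 1, hi, n, f => by
    show ∑ s ∈ Finset.range N, sumB i N (Function.update (Function.update n j r') i s) f =
      ∑ s ∈ Finset.range N, sumB i N (Function.update (Function.update n j r) i s)
        (fun y => f (Function.update y j r'))
    refine Finset.sum_congr rfl fun s _ => ?_
    have hne : j ≠ i := by omega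
    rw [Function.update_comm hne, Function.update_comm hne]
    exact moveAux N j r r' i (by omega) _ f

end

end Box

theorem I_Box : StBox := fun _ _ i N n =>
  ⟨fun f g h => Box.congr N i n f g h, fun f g => Box.add N i n f g,
    fun c f => Box.smul N c i n f, fun r hr φ g => Box.slice i N n r hr φ g,
    fun r r' f => Box.moveAux N i r r' i le_rfl n f⟩

end Pool.Agent.Work.MP_e9e200_al.SP
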