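import Pool.Agent.Work.MP_e9e200_al.Bd.B11

/-!
# Characters separating a point (item D0b)
-/

set_option autoImplicit false

namespace Pool.Agent.Work.MP_e9e200_al.SP

open Pool.Agent.Work.MP_e9e200_al

namespace Chr

theorem exp_int (n : ℤ) : Complex.exp (2 * Real.pi * Complex.I * n) = 1 := by
  rw [Complex.exp_eq_one_iff]
  exact ⟨n, by ring⟩

theorem exp_rat_eq_one {q : ℚ} (h : Complex.exp (2 * Real.pi * Complex.I * (q : ℂ)) = 1) :
    (q : AddCircle (1 : ℚ)) = 0 := by
  rw [Complex.exp_eq_one_iff] at h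
  obtain ⟨n, hn⟩ := h
  have h2 : (2 * Real.pi * Complex.I : ℂ) ≠ 0 := by
    simp [Real.pi_ne_zero, Complex.I_ne_zero]
  have h3 : (q : ℂ) = (n : ℂ) := by
    have h4 : (2 * Real.pi * Complex.I : ℂ) * q = (2 * Real.pi * Complex.I : ℂ) * n := by
      rw [hn]; ring
    exact mul_left_cancel₀ h2 h4
  have h5 : q = (n : ℚ) := by exact_mod_cast h3
  rw [AddCircle.coe_eq_zero_iff]
  exact ⟨n, by rw [h5]; simp⟩

end Chr

theorem I_Chr : StChr := by
  intro M _ x hx
  obtain ⟨χ, hχ⟩ := CharacterModule.exists_character_apply_ne_zero_of_ne_zero hx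
  have hs : ∀ a : M, ∃ q : ℚ, (q : AddCircle (1 : ℚ)) = χ a := fun a =>
    QuotientAddGroup.mk_surjective (χ a)
  choose r hr using hs
  refine ⟨fun a => Complex.exp (2 * Real.pi * Complex.I * (r a : ℂ)), ?_, ?_, ?_⟩
  · intro a b
    have h1 : ((r (a + b) - r a - r b : ℚ) : AddCircle (1 : ℚ)) = 0 := by
      rw [AddCircle.coe_sub, AddCircle.coe_sub, hr, hr, hr, map_add]
      abel
    rw [AddCircle.coe_eq_zero_iff] at h1
    obtain ⟨n, hn⟩ := h1
    have h2 : r (a + b) = r a + r b + n := by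
      have h3 : (n : ℚ) = r (a + b) - r a - r b := by rw [← hn]; simp
      rw [h3]; ring
    have h4 : ((r (a + b) : ℚ) : ℂ) = (r a : ℂ) + (r b : ℂ) + (n : ℂ) := by
      rw [h2]; push_cast; ring
    show Complex.exp (2 * Real.pi * Complex.I * (r (a + b) : ℂ)) =
      Complex.exp (2 * Real.pi * Complex.I * (r a : ℂ)) *
        Complex.exp (2 * Real.pi * Complex.I * (r b : ℂ))
    rw [h4, mul_add, mul_add, Complex.exp_add, Complex.exp_add, Chr.exp_int, mul_one]
  · intro a
    exact Complex.exp_ne_zero _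
  · intro h
    apply hχ
    rw [← hr x]
    exact Chr.exp_rat_eq_one h

end Pool.Agent.Work.MP_e9e200_al.SP
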