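import Pool.Agent.Work.MP_e9e200_al.Bd.B11

set_option autoImplicit false

namespace Pool.Agent.Work.MP_e9e200_al.SP

namespace Cmp

section

variable {L W W' K : Type} [AddCommGroup W] [AddCommGroup W'] [AddCommGroup K]

theorem map_zero_of_sub (F : W → K) (hF : ∀ x y, F (x - y) = F x - F y) : F 0 = 0 := by
  have := hF 0 0
  rwa [sub_self, sub_self] at this

theorem cmpA (α : L → W → W) (α' : L → W' → W') (F : W → K) (F' : W' → K)
    (hF : ∀ x y, F (x - y) = F x - F y) (hF' : ∀ x y, F' (x - y) = F' x - F' y) :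
    ∀ (l : List L) (c : List L → W) (c' : List L → W'),
      (∀ p ∈ facesA l, F (c p) = F' (c' p) ∧
        ∀ a ∈ l, F (α a (c p)) = F' (α' a (c' p))) → F (bdA α l c) = F' (bdA α' l c')
  | [], c, c', _ => by
    show F 0 = F' 0
    rw [map_zero_of_sub F hF, map_zero_of_sub F' hF']
  | a :: l, c, c', h => by
    show F (α a (c l) - c l - bdA α l (fun l' => c (a :: l'))) =
      F' (α' a (c' l) - c' l - bdA α' l (fun l' => c' (a :: l')))
    have h1 := h l (by simp [facesA])
    rw [hF, hF, hF', hF', h1.1, h1.2 a (by simp),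
      cmpA α α' F F' hF hF' l (fun l' => c (a :: l')) (fun l' => c' (a :: l'))]
    intro p hp
    have h2 := h (a :: p) (by
      show a :: p ∈ l :: (facesA l).map (fun l' => a :: l')
      exact List.mem_cons_of_mem _ (List.mem_map_of_mem hp))
    exact ⟨h2.1, fun b hb => h2.2 b (List.mem_cons_of_mem _ hb)⟩

theorem cmp (α : L → W → W) (θ : ℕ → W → W) (α' : L → W' → W') (θ' : ℕ → W' → W')
    (cj : ℕ → L → L) (F : W → K) (F' : W' → K)
    (hF : ∀ x y, F (x - y) = F x - F y) (hF' : ∀ x y, F' (x - y) = F' x - F' y) :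
    ∀ (J : List ℕ) (l : List L) (c : List ℕ → List L → W) (c' : List ℕ → List L → W'),
    (∀ p ∈ faces cj J l, F (c p.1 p.2) = F' (c' p.1 p.2) ∧
      (∀ a ∈ l, F (α a (c p.1 p.2)) = F' (α' a (c' p.1 p.2))) ∧
      (∀ j ∈ J, F (θ j (c p.1 p.2)) = F' (θ' j (c' p.1 p.2)))) →
    F (bd α θ cj J l c) = F' (bd α' θ' cj J l c')
  | [], l, c, c', h => by
    show F (bdA α l (c [])) = F' (bdA α' l (c' []))
    apply cmpA α α' F F' hF hF'
    intro p hp
    have h1 := h ([], p) (by
      show ([], p) ∈ (facesA l).map (fun l' => ([], l'))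
      exact List.mem_map_of_mem hp)
    exact ⟨h1.1, h1.2.1⟩
  | j :: J, l, c, c', h => by
    show F (c J l - θ j (c J (l.map (cj j))) - bd α θ cj J l (fun J' l' => c (j :: J') l')) =
      F' (c' J l - θ' j (c' J (l.map (cj j))) -
        bd α' θ' cj J l (fun J' l' => c' (j :: J') l'))
    have h1 := h (J, l) (by simp [faces])
    have h2 := h (J, l.map (cj j)) (by simp [faces])
    rw [hF, hF, hF', hF', h1.1, h2.2.2 j (by simp),
      cmp α θ α' θ' cj F F' hF hF' J l (fun J' l' => c (j :: J') l')
        (fun J' l' => c' (j :: J') l')]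
    intro p hp
    have h3 := h (j :: p.1, p.2) (by
      show (j :: p.1, p.2) ∈ (J, l) :: (J, l.map (cj j)) ::
        (faces cj J l).map (fun p => (j :: p.1, p.2))
      exact List.mem_cons_of_mem _ (List.mem_cons_of_mem _
        (List.mem_map_of_mem (f := fun p : List ℕ × List L => (j :: p.1, p.2)) hp)))
    exact ⟨h3.1, h3.2.1, fun i hi => h3.2.2 i (List.mem_cons_of_mem _ hi)⟩

theorem lenA : ∀ (l : List L), ∀ p ∈ facesA l, p.length + 1 = l.length
  | [], p, hp => by simp [facesA] at hp
  | a :: l, p, hp => by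
    have hp' : p ∈ l :: (facesA l).map (fun l' => a :: l') := hp
    rcases List.mem_cons.1 hp' with rfl | h
    · rfl
    · obtain ⟨q, hq, rfl⟩ := List.mem_map.1 h
      have := lenA l q hq
      simp only [List.length_cons]
      omega

theorem len (cj : ℕ → L → L) : ∀ (J : List ℕ) (l : List L), ∀ p ∈ faces cj J l,
    p.1.length + p.2.length + 1 = J.length + l.length
  | [], l, p, hp => by
    have hp' : p ∈ (facesA l).map (fun l' => (([] : List ℕ), l')) := hp
    obtain ⟨q, hq, rfl⟩ := List.mem_map.1 hp'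
    have := lenA l q hq
    simp only [List.length_nil]
    omega
  | j :: J, l, p, hp => by
    have hp' : p ∈ (J, l) :: (J, l.map (cj j)) ::
        (faces cj J l).map (fun p => (j :: p.1, p.2)) := hp
    rcases List.mem_cons.1 hp' with rfl | h
    · simp only [List.length_cons]
      omega
    · rcases List.mem_cons.1 h with rfl | h
      · simp only [List.length_cons, List.length_map]
        omega
      · obtain ⟨q, hq, rfl⟩ := List.mem_map.1 h
        have := len cj J l q hq
        simp only [List.length_cons]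
        omega

end

end Cmp

theorem I_Cmp : StCmp :=
  ⟨fun _ _ _ _ _ _ _ α θ α' θ' cj F F' hF hF' J l c c' h =>
    Cmp.cmp α θ α' θ' cj F F' hF hF' J l c c' h, fun _ cj J l p hp => Cmp.len cj J l p hp⟩

end Pool.Agent.Work.MP_e9e200_al.SP
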