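import Pool.Agent.Work.MP_e9e200_al.Bd.B11

/-!
# There is no system with an end
-/

set_option autoImplicit false

namespace Pool.Agent.Work.MP_e9e200_al.SP

namespace Comb

theorem prX_zero {L k : Type} [Field k] (Λ : (Pt → k) → k) :
    ∀ (i : ℕ) (c : List ℕ → List L → Pt → k), prX Λ i (0 : XX L k i) c = 0 := by
  intro i
  induction i with
  | zero =>
    intro c
    change Finsupp.sum (0 : List L →₀ (Pt → k)) (fun l φ => Λ (fun y => φ y * c [] l y)) = 0
    exact Finsupp.sum_zero_index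
  | succ i ih =>
    intro c
    change prX Λ i (0 : XX L k i) c + prX Λ i (0 : XX L k i) (fun J l => c (i :: J) l) = 0
    rw [ih, ih, add_zero]

theorem bound (m : ℕ) (a : ℕ → ℝ) (ha : ∀ j < m, 0 < a j) (B : ℝ) :
    ∃ N1 : ℕ, ∀ j < m, ∀ N : ℕ, N1 ≤ N → B ≤ (N : ℝ) * a j := by
  have h1 : ∀ j, ∃ n : ℕ, j < m → ∀ N : ℕ, n ≤ N → B ≤ (N : ℝ) * a j := by
    intro j
    by_cases hj : j < m
    · obtain ⟨n, hn⟩ := exists_nat_ge (B / a j)
      refine ⟨n, fun _ N hN => ?_⟩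
      have h2 : B / a j ≤ (N : ℝ) := hn.trans (by exact_mod_cast hN)
      exact (div_le_iff₀ (ha j hj)).mp h2
    · exact ⟨0, fun h => absurd h hj⟩
  choose n hn using h1
  refine ⟨(Finset.range m).sup n, fun j hj N hN => hn j hj N ?_⟩
  exact (Finset.le_sup (f := n) (Finset.mem_range.mpr hj)).trans hN

end Comb

theorem I_Comb (he : StEta) (hev : StEv) (ha : StAdj) (hcut : StCut) (hp : StPos) (hc : StCmp)
    (hb : StBox) (hpr : StPr) (hs : StShiftB) : StComb := by
  classical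
  intro G k _ _ A _ t x0 b m χ ψ f vv u v hm hA ht hχ hvv hχ0 hχp hvp hbj hsys hend
  obtain ⟨w, hw1, hw2⟩ := hend
  obtain ⟨hp1, hp2, hp3⟩ := hp G t x0 m ht
  obtain ⟨hcj, hPsi⟩ := hp3 A k ψ
  obtain ⟨η, hη⟩ := he A k (PsiA A t x0 m ψ) (cjA A t) b m (fun j _ i _ a => hcj i j a) hPsi hbj
  have hψ : ∀ i < m, ∀ a ∈ A, ∃ C : ℝ, ∀ x, C ≤ χ i x → ψ i (x * a * x⁻¹) = 1 := by
    intro i hi a haA
    obtain ⟨C, hC⟩ := hsys.2.1 i hi a
    refine ⟨C, fun x hx => ?_⟩
    have e1 := hC x hx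
    have e2 : f i (x * a) = ψ i (x * a * x⁻¹) * f i x := by
      rw [← hsys.1 i hi (x * a * x⁻¹) ((inferInstance : A.Normal).conj_mem a haA x) x]
      congr 1
      group
    rw [e2] at e1
    exact mul_right_cancel₀ (hsys.2.2.1 i hi x) (by rw [e1, one_mul])
  obtain ⟨N0, hN0⟩ := hev A t x0 m χ ψ hA ht hχ hχ0 hχp hψ η hη m le_rfl f u v hsys
  obtain ⟨hfin, hdeg, hlt, hprs, -⟩ := hpr A k m (η m)
  have hlen : ∀ p ∈ suppX m (η m), p.1.length + p.2.length = m := by
    intro p hp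
    have := hdeg (m : ℤ) (hη.2.2.2 m le_rfl) p hp
    exact_mod_cast this
  have hface : ∀ q ∈ suppX m (η m), ∀ p ∈ faces (cjA A t) q.1 q.2,
      p.1.length + p.2.length + 1 = m := by
    intro q hq p hpq
    rw [hc.2 A (cjA A t) q.1 q.2 p hpq, hlen q hq]
  -- constants
  have hC : ∀ p : List ℕ × List A, ∃ C : ℝ, p.1.length + p.2.length + 1 = m →
      ∀ x, C ≤ vv x → w p.1 p.2 x = 0 := by
    intro p
    by_cases h : p.1.length + p.2.length + 1 = m
    · obtain ⟨C, hC⟩ := (hw2 p.1 p.2 h).2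
      exact ⟨C, fun _ => hC⟩
    · exact ⟨0, fun h' => absurd h' h⟩
  choose C hC using hC
  have hfin2 : (⋃ q ∈ suppX m (η m), {p | p ∈ faces (cjA A t) q.1 q.2}).Finite :=
    hfin.biUnion (fun q _ => List.finite_toSet _)
  obtain ⟨B, hB⟩ := (hfin2.image C).bddAbove
  have hB2 : ∀ q ∈ suppX m (η m), ∀ p ∈ faces (cjA A t) q.1 q.2, C p ≤ B := by
    intro q hq p hpq
    apply hB
    refine ⟨p, ?_, rfl⟩
    simp only [Set.mem_iUnion]
    exact ⟨q, hq, hpq⟩
  obtain ⟨N1, hN1⟩ := Comb.bound m (fun j => vv (t j)) hvp (B - vv x0)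
  set N := max N0 N1 with hN
  have hbig : ∀ j < m, ∀ y : Pt, y j = N → B ≤ vv (pos t x0 m y) := by
    intro j hj y hy
    rw [hp2 vv hvv y]
    have h1 : (y j : ℝ) * vv (t j) ≤ ∑ j ∈ Finset.range m, (y j : ℝ) * vv (t j) := by
      apply Finset.single_le_sum (f := fun j => (y j : ℝ) * vv (t j))
      · intro i hi
        exact mul_nonneg (Nat.cast_nonneg _) (hvp i (Finset.mem_range.mp hi)).le
      · exact Finset.mem_range.mpr hj
    have h2 := hN1 j hj (y j) (by rw [hy]; exact le_max_right _ _)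
    linarith
  have hne := hN0 N (le_max_left _ _) (fun _ => 0) (fun j h1 h2 => absurd h2 (not_lt.mpr h1))
  apply hne
  have key : ∀ q ∈ suppX m (η m), ∀ y : Pt, (∀ j < m, y j < N) →
      bd (fun a g y => PsiA A t x0 m ψ a y * g y) (fun j g => upY j g) (cjA A t) q.1 q.2
        (cut t x0 m m N w) y = v m q.1 q.2 (pos t x0 m y) := by
    intro q hq y hy
    rw [hw1 q.1 q.2 (hlen q hq)]
    apply hcut A t x0 m ψ ht m N w q.1 q.2 y le_rfl (hlt q hq) hy
    · intro p hpq a _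
      have h1 := (hw2 p.1 p.2 (hface q hq p hpq)).1 (pos t x0 m y * (a : G) * (pos t x0 m y)⁻¹)
        ((inferInstance : A.Normal).conj_mem a a.2 _) (pos t x0 m y)
      have h2 : pos t x0 m y * (a : G) * (pos t x0 m y)⁻¹ * pos t x0 m y =
          pos t x0 m y * (a : G) := by group
      rw [h2] at h1
      exact h1
    · intro p hpq j hj y' hy'
      apply hC p (hface q hq p hpq)
      exact (hB2 q hq p hpq).trans (hbig j (hlt q hq j hj) y' hy')
  have e1 : prX (sumB m N (fun _ => 0)) m (η m) (fun J l y => v m J l (pos t x0 m y)) =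
      prX (sumB m N (fun _ => 0)) m (η m) (fun J l =>
        bd (fun a g y => PsiA A t x0 m ψ a y * g y) (fun j g => upY j g) (cjA A t) J l
          (cut t x0 m m N w)) := by
    apply hprs
    intro q hq φ
    apply (hb k m N (fun _ => 0)).1
    intro y hy _
    change φ y * v m q.1 q.2 (pos t x0 m y) = φ y * _
    rw [key q hq y hy]
  rw [e1, ← ha A k (PsiA A t x0 m ψ) (cjA A t) (sumB m N (fun _ => 0))
    (hb k m N (fun _ => 0)).2.1 m (η m) (cut t x0 m m N w), hη.2.2.1 m le_rfl]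
  · exact Comb.prX_zero _ m _
  · intro j hj φ J l
    apply hs k m N (fun _ => 0) j φ _ hj
    intro y hy
    unfold cut
    rw [if_neg]
    intro h
    exact absurd (h j hj) (not_lt.mpr hy)

end Pool.Agent.Work.MP_e9e200_al.SP
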