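import Pool.Agent.Work.MP_e9e200_al.Bd.B11

/-!
# The boundary of a cut off family
-/

set_option autoImplicit false

namespace Pool.Agent.Work.MP_e9e200_al.SP

namespace Cut

theorem cut_of {G L k : Type} [Group G] [Field k] (t : ℕ → G) (x0 : G) (m i N : ℕ)
    (c : List ℕ → List L → G → k) (J : List ℕ) (l : List L) (y : Pt) (hy : ∀ j < i, y j < N) :
    cut t x0 m i N c J l y = c J l (pos t x0 m y) := by
  classical
  unfold cut
  exact if_pos hy

theorem cut_not {G L k : Type} [Group G] [Field k] (t : ℕ → G) (x0 : G) (m i N : ℕ)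
    (c : List ℕ → List L → G → k) (J : List ℕ) (l : List L) (y : Pt)
    (hy : ¬ ∀ j < i, y j < N) : cut t x0 m i N c J l y = 0 := by
  classical
  unfold cut
  exact if_neg hy

end Cut

theorem I_Cut (hc : StCmp) (hp : StPos) : StCut := by
  intro G k _ _ A _ t x0 m ψ ht i N c J l y him hJ hy h3 h4
  refine hc.1 (↥A) (Pt → k) (G → k) k (fun a g y => PsiA A t x0 m ψ a y * g y)
    (fun j g => upY j g) (actA A) (actT t) (cjA A t) (fun g => g y)
    (fun f => f (pos t x0 m y)) (fun _ _ => rfl) (fun _ _ => rfl) J l
    (cut t x0 m i N c) c ?_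
  intro p hpf
  have e0 : cut t x0 m i N c p.1 p.2 y = c p.1 p.2 (pos t x0 m y) :=
    Cut.cut_of t x0 m i N c p.1 p.2 y hy
  refine ⟨e0, ?_, ?_⟩
  · intro a ha
    show PsiA A t x0 m ψ a y * cut t x0 m i N c p.1 p.2 y = c p.1 p.2 (pos t x0 m y * a)
    rw [e0, h3 p hpf a ha]
  · intro j hj
    show cut t x0 m i N c p.1 p.2 (Function.update y j (y j + 1)) =
      c p.1 p.2 (pos t x0 m y * t j)
    have hji : j < i := hJ j hj
    have hpos := (hp G t x0 m ht).1 j (lt_of_lt_of_le hji him) y
    rw [← hpos]
    by_cases hN : y j + 1 < N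
    · refine Cut.cut_of t x0 m i N c p.1 p.2 _ ?_
      intro j' hj'
      by_cases hjj : j' = j
      · subst hjj
        rw [Function.update_self]
        exact hN
      · rw [Function.update_of_ne hjj]
        exact hy j' hj'
    · have hN' : y j + 1 = N := by
        have := hy j hji
        omega
      rw [Cut.cut_not, h4 p hpf j hj _ (by rw [Function.update_self]; exact hN')]
      intro hall
      have := hall j hji
      rw [Function.update_self] at this
      exact hN this

end Pool.Agent.Work.MP_e9e200_al.SP
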