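import Pool.Agent.Work.MP_e9e200_al.Bd.B11

/-!
# Item D3: the data for several characters
-/

set_option autoImplicit false

namespace Pool.Agent.Work.MP_e9e200_al.SP

open Pool.Agent.Work.MP_e9e200_al

namespace Data

/-- commuting elements come from a commutative group -/
theorem exists_comm {G : Type} [Group G] (t : ℕ → G) (ht : ∀ i j, t i * t j = t j * t i) :
    ∃ (A : Type) (_ : CommGroup A) (φ : A →* G) (τ : ℕ → A), ∀ i, φ (τ i) = t i := by
  let H := Subgroup.closure (Set.range t)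
  letI : CommGroup H := Subgroup.closureCommGroupOfComm (k := Set.range t) (by
    rintro _ ⟨i, rfl⟩ _ ⟨j, rfl⟩
    exact ht i j)
  exact ⟨H, inferInstance, H.subtype, fun i => ⟨t i, Subgroup.subset_closure ⟨i, rfl⟩⟩,
    fun i => rfl⟩

/-- the product of a list -/
theorem map_prod_list {G A : Type} [Group G] [CommGroup A] (φ : A →* G) (m : ℕ) (x : ℕ → A) :
    ((List.range m).map (fun l => φ (x l))).prod = φ (∏ l ∈ Finset.range m, x l) := by
  induction m with
  | zero => simp
  | succ m ih =>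
    rw [Finset.prod_range_succ, List.range_succ, List.map_append, List.prod_append, map_mul, ih]
    simp

/-- membership of a product -/
theorem map_prod_mem {G A ι : Type} [Group G] [CommGroup A] (φ : A →* G) (K : Subgroup G)
    (S : Finset ι) (x : ι → A) (h : ∀ l ∈ S, φ (x l) ∈ K) : φ (∏ l ∈ S, x l) ∈ K := by
  have : (∏ l ∈ S, x l) ∈ K.comap φ := Subgroup.prod_mem _ fun l hl => h l hl
  exact this

/-- the kernel of a character -/
def Ker {G : Type} [Group G] (χ : Additive G →+ ℝ) : Subgroup G where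
  carrier := {g | χ (Additive.ofMul g) = 0}
  mul_mem' := by
    intro a b ha hb
    change χ (Additive.ofMul (a * b)) = 0
    change χ (Additive.ofMul a) = 0 at ha
    change χ (Additive.ofMul b) = 0 at hb
    rw [ofMul_mul, map_add, ha, hb, add_zero]
  one_mem' := by simp
  inv_mem' := by
    intro a ha
    change χ (Additive.ofMul a⁻¹) = 0
    change χ (Additive.ofMul a) = 0 at ha
    rw [ofMul_inv, map_neg, ha, neg_zero]

theorem mem_Ker {G : Type} [Group G] (χ : Additive G →+ ℝ) (g : G) :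
    g ∈ Ker χ ↔ χ (Additive.ofMul g) = 0 := Iff.rfl

end Data

open Data in
theorem I_Data (h : StOne) (hp : StPos) : StData := by
  classical
  intro G _ _ hMet m X t hX hXZ htt hXt hXpos
  have hone : ∀ i, ∃ (U : Subgroup G) (ψ f : G → ℂ) (b : G) (q : ℕ),
      i < m → OneData G (X i) (t i) U ψ f b q := by
    intro i
    by_cases hi : i < m
    · obtain ⟨U, ψ, f, b, q, hd⟩ := h G hMet (X i) (hX i hi) (hXZ i hi) (t i) (hXpos i hi)
      exact ⟨U, ψ, f, b, q, fun _ => hd⟩
    · exact ⟨⊥, 1, 1, 1, 1, fun h => absurd h hi⟩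
  choose U ψ f b0 q hd using hone
  have hq1 : ∀ i, i < m → 1 ≤ q i := fun i hi => by
    obtain ⟨_, _, _, _, _, _, _, _, _, h1, _⟩ := hd i hi
    exact h1
  set e := ∏ i ∈ Finset.range m, q i with he
  have he1 : 1 ≤ e := Nat.succ_le_of_lt (Finset.prod_pos fun i hi =>
    Nat.lt_of_lt_of_le Nat.zero_lt_one (hq1 i (Finset.mem_range.1 hi)))
  have hqe : ∀ i, i < m → q i ∣ e := fun i hi =>
    Finset.dvd_prod_of_mem q (Finset.mem_range.2 hi)
  have hb0 : ∀ i, i < m → b0 i ∈ commutator G := fun i hi => by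
    obtain ⟨_, _, _, _, _, _, _, h1, _⟩ := hd i hi
    exact h1
  -- the common bound
  have hN : ∀ i j, ∃ N0 : ℕ, i < m → j < m → ∀ N ≥ N0, t i ^ N * b0 j * (t i ^ N)⁻¹ ∈ U i := by
    intro i j
    by_cases hij : i < m ∧ j < m
    · obtain ⟨_, h2, _⟩ := hd i hij.1
      obtain ⟨N0, hN0⟩ := h2 (b0 j) (hb0 j hij.2)
      exact ⟨N0, fun _ _ => hN0⟩
    · exact ⟨0, fun h1 h2 => absurd ⟨h1, h2⟩ hij⟩
  choose N0 hN0 using hN
  set c := ∑ i ∈ Finset.range m, ∑ j ∈ Finset.range m, N0 i j with hc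
  have hcN : ∀ i j, i < m → j < m → N0 i j ≤ c := by
    intro i j hi hj
    calc N0 i j ≤ ∑ j ∈ Finset.range m, N0 i j :=
          Finset.single_le_sum (f := fun j => N0 i j) (fun _ _ => Nat.zero_le _)
            (Finset.mem_range.2 hj)
      _ ≤ c := Finset.single_le_sum (f := fun i => ∑ j ∈ Finset.range m, N0 i j)
            (fun _ _ => Nat.zero_le _) (Finset.mem_range.2 hi)
  obtain ⟨A, _, φ, τ, hτ⟩ := exists_comm t htt
  -- the elements
  let x0 : G := ((List.range m).map (fun l => (t l ^ e) ^ c)).prod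
  have hbj : ∀ j, ∃ b : commutator G, j < m → (b : G) = ((t j ^ e) ^ c)⁻¹ * b0 j * (t j ^ e) ^ c := by
    intro j
    by_cases hj : j < m
    · refine ⟨⟨((t j ^ e) ^ c)⁻¹ * b0 j * (t j ^ e) ^ c, ?_⟩, fun _ => rfl⟩
      have := (inferInstance : (commutator G).Normal).conj_mem (b0 j) (hb0 j hj) ((t j ^ e) ^ c)⁻¹
      rwa [inv_inv] at this
    · exact ⟨1, fun h => absurd h hj⟩
  choose b hb using hbj
  have hpos : ∀ y : Pt, pos (fun i => t i ^ e) x0 m y =
      φ (∏ l ∈ Finset.range m, τ l ^ (e * (c + y l))) := by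
    intro y
    unfold pos
    have h1 : ∀ z : ℕ → ℕ, ((List.range m).map (fun l => (t l ^ e) ^ z l)).prod =
        φ (∏ l ∈ Finset.range m, τ l ^ (e * z l)) := by
      intro z
      rw [← map_prod_list]
      congr 1
      refine List.map_congr_left fun l _ => ?_
      rw [map_pow, hτ, pow_mul]
    rw [h1 y]
    change ((List.range m).map (fun l => (t l ^ e) ^ c)).prod * _ = _
    rw [h1 (fun _ => c), ← map_mul, ← Finset.prod_mul_distrib]
    congr 1
    refine Finset.prod_congr rfl fun l _ => ?_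
    rw [← pow_add, mul_add]
  refine ⟨e, x0, b, ψ, f, he1, ?_, ?_, ?_, ?_, ?_⟩
  · intro i hi a ha a' ha'
    obtain ⟨_, _, _, h4, _⟩ := hd i hi
    exact h4 a ha a' ha'
  · intro i hi a ha x
    obtain ⟨_, _, _, _, h5, _⟩ := hd i hi
    exact h5 a ha x
  · intro i hi g
    obtain ⟨_, _, _, _, _, h6, _⟩ := hd i hi
    exact h6 g
  · intro i hi x
    obtain ⟨_, _, _, _, _, _, h7, _⟩ := hd i hi
    exact h7 x
  · intro j hj y hyj
    -- the conjugate
    have hg : ∀ S : Finset ℕ, j ∉ S → (∀ l ∈ S, l < m) →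
        φ (∏ l ∈ S, τ l ^ (e * (c + y l))) ∈
          Subgroup.closure {h : G | ∃ h' : G, X j (Additive.ofMul h') = 0 ∧ h = h' ^ q j} := by
      intro S hjS hS
      refine map_prod_mem φ _ S _ fun l hl => Subgroup.subset_closure ?_
      obtain ⟨d, hd'⟩ := hqe j hj
      refine ⟨t l ^ (d * (c + y l)), ?_, ?_⟩
      · rw [ofMul_pow, map_nsmul, hXt j hj l (hS l hl) (fun h => hjS (h ▸ hl)), smul_zero]
      · rw [map_pow, hτ, ← pow_mul, hd']
        congr 1
        ring
    have hker : ∀ i, i < m → ∀ S : Finset ℕ, i ∉ S → (∀ l ∈ S, l < m) →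
        X i (Additive.ofMul (φ (∏ l ∈ S, τ l ^ (e * (c + y l))))) = 0 := by
      intro i hi S hiS hS
      rw [← mem_Ker]
      refine map_prod_mem φ _ S _ fun l hl => ?_
      rw [mem_Ker, map_pow, hτ, ofMul_pow, map_nsmul,
        hXt i hi l (hS l hl) (fun h => hiS (h ▸ hl)), smul_zero]
    have hcj : pos (fun i => t i ^ e) x0 m y * (b j : G) * (pos (fun i => t i ^ e) x0 m y)⁻¹ =
        φ (∏ l ∈ (Finset.range m).erase j, τ l ^ (e * (c + y l))) * b0 j *
          (φ (∏ l ∈ (Finset.range m).erase j, τ l ^ (e * (c + y l))))⁻¹ := by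
      rw [hpos, ← Finset.prod_erase_mul (Finset.range m) _ (Finset.mem_range.2 hj), map_mul,
        map_pow, hτ, hyj, add_zero, hb j hj, ← pow_mul]
      group
    unfold PsiA
    rw [hcj, Finset.prod_eq_single j]
    · obtain ⟨_, _, _, _, _, _, _, _, h9, _, h11⟩ := hd j hj
      rw [h11 _ (hg _ (Finset.notMem_erase _ _) fun l hl =>
        Finset.mem_range.1 (Finset.mem_of_mem_erase hl))]
      exact h9
    · intro i hi hij
      have hi' := Finset.mem_range.1 hi
      obtain ⟨h1, _, h3, _⟩ := hd i hi'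
      apply h3
      have hie : i ∈ (Finset.range m).erase j := Finset.mem_erase.2 ⟨hij, hi⟩
      rw [← Finset.prod_erase_mul _ _ hie, map_mul, map_pow, hτ]
      set g' := φ (∏ l ∈ ((Finset.range m).erase j).erase i, τ l ^ (e * (c + y l))) with hg'
      have hx : X i (Additive.ofMul g') = 0 := hker i hi' _ (Finset.notMem_erase _ _) fun l hl =>
        Finset.mem_range.1 (Finset.mem_of_mem_erase (Finset.mem_of_mem_erase hl))
      have hu : t i ^ (e * (c + y i)) * b0 j * (t i ^ (e * (c + y i)))⁻¹ ∈ U i := by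
        refine hN0 i j hi' hj _ ?_
        calc N0 i j ≤ c := hcN i j hi' hj
          _ ≤ 1 * (c + y i) := by omega
          _ ≤ e * (c + y i) := Nat.mul_le_mul_right _ he1
      have := h1 g' hx.ge _ hu
      convert this using 1
      group
    · intro h1
      exact absurd (Finset.mem_range.2 hj) h1

end Pool.Agent.Work.MP_e9e200_al.SP
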