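import Pool.Agent.Work.MP_e9e200_al.Bd.B11

/-!
# The fundamental chains (MP_e9e200_al, block SP)
-/

set_option autoImplicit false

namespace Pool.Agent.Work.MP_e9e200_al.SP

open Pool.Agent.Work.MP_e9e200_al

namespace Eta

section

variable {L k : Type} [Field k]

/-- the shift as a homomorphism -/
def sh (j : ℕ) : (Pt → k) →+ (Pt → k) where
  toFun := shiftY j
  map_zero' := by
    funext y
    unfold shiftY
    split_ifs <;> rfl
  map_add' := by
    intro a b
    funext y
    show shiftY j (a + b) y = shiftY j a y + shiftY j b y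
    unfold shiftY
    split_ifs
    · rw [add_zero]
    · rfl

theorem Dl_add (Ψ : L → Pt → k) (l : List L) (a b : Pt → k) :
    Dl Ψ l (a + b) = Dl Ψ l a + Dl Ψ l b := by
  induction l with
  | nil => show (0 : List L →₀ (Pt → k)) = 0 + 0; rw [add_zero]
  | cons x l ih =>
    show Finsupp.single l (fun y => (Ψ x y - 1) * (a + b) y) -
        Finsupp.mapDomain (fun l' => x :: l') (Dl Ψ l (a + b)) =
      (Finsupp.single l (fun y => (Ψ x y - 1) * a y) -
        Finsupp.mapDomain (fun l' => x :: l') (Dl Ψ l a)) +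
      (Finsupp.single l (fun y => (Ψ x y - 1) * b y) -
        Finsupp.mapDomain (fun l' => x :: l') (Dl Ψ l b))
    rw [ih, Finsupp.mapDomain_add]
    have h : (fun y => (Ψ x y - 1) * (a + b) y) =
        (fun y => (Ψ x y - 1) * a y) + (fun y => (Ψ x y - 1) * b y) := by
      funext y
      simp only [Pi.add_apply]
      ring
    rw [h, Finsupp.single_add]
    abel

/-- the differential of a basis element as a homomorphism -/
noncomputable def DlH (Ψ : L → Pt → k) (l : List L) : (Pt → k) →+ (List L →₀ (Pt → k)) :=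
  AddMonoidHom.mk' (Dl Ψ l) (Dl_add Ψ l)

/-- the translation at level zero -/
noncomputable def T0 (cj : ℕ → L → L) (j : ℕ) : (List L →₀ (Pt → k)) →+ (List L →₀ (Pt → k)) :=
  Finsupp.liftAddHom fun l => (Finsupp.singleAddHom (l.map (cj j))).comp (sh j)

/-- the differential at level zero -/
noncomputable def D0 (Ψ : L → Pt → k) : (List L →₀ (Pt → k)) →+ (List L →₀ (Pt → k)) :=
  Finsupp.liftAddHom fun l => DlH Ψ l

theorem T0_single (cj : ℕ → L → L) (j : ℕ) (l : List L) (φ : Pt → k) :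
    T0 cj j (Finsupp.single l φ) = Finsupp.single (l.map (cj j)) (shiftY j φ) := by
  unfold T0
  rw [Finsupp.liftAddHom_apply_single]
  rfl

theorem D0_single (Ψ : L → Pt → k) (l : List L) (φ : Pt → k) :
    D0 Ψ (Finsupp.single l φ) = Dl Ψ l φ := by
  unfold D0
  rw [Finsupp.liftAddHom_apply_single]
  rfl

/-- the translation as a homomorphism -/
noncomputable def TH (cj : ℕ → L → L) (j : ℕ) : ∀ i, XX L k i →+ XX L k i
  | 0 => T0 cj j
  | i + 1 => (AddMonoidHom.prodMap (TH cj j i) (TH cj j i) : XX L k i × XX L k i →+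
      XX L k i × XX L k i)

theorem TH_apply (cj : ℕ → L → L) (j : ℕ) : ∀ (i : ℕ) (u : XX L k i), TH cj j i u = tX cj j i u
  | 0, u => rfl
  | i + 1, u => by
    show (TH cj j i (show XX L k i × XX L k i from u).1,
      TH cj j i (show XX L k i × XX L k i from u).2) = (tX cj j i _, tX cj j i _)
    rw [TH_apply cj j i, TH_apply cj j i]

theorem tX_add (cj : ℕ → L → L) (j i : ℕ) (u v : XX L k i) :
    tX cj j i (u + v) = tX cj j i u + tX cj j i v := by
  rw [← TH_apply, ← TH_apply, ← TH_apply, map_add]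

theorem tX_zero (cj : ℕ → L → L) (j i : ℕ) : tX cj j i (0 : XX L k i) = 0 := by
  rw [← TH_apply, map_zero]

theorem tX_sub (cj : ℕ → L → L) (j i : ℕ) (u v : XX L k i) :
    tX cj j i (u - v) = tX cj j i u - tX cj j i v := by
  rw [← TH_apply, ← TH_apply, ← TH_apply, map_sub]

theorem tX_neg (cj : ℕ → L → L) (j i : ℕ) (u : XX L k i) :
    tX cj j i (-u) = -tX cj j i u := by
  rw [← TH_apply, ← TH_apply, map_neg]

theorem DX_add (Ψ : L → Pt → k) (cj : ℕ → L → L) : ∀ (i : ℕ) (u v : XX L k i),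
    DX Ψ cj i (u + v) = DX Ψ cj i u + DX Ψ cj i v
  | 0, u, v => map_add (D0 Ψ) u v
  | i + 1, u, v => by
    obtain ⟨u1, u2⟩ : XX L k i × XX L k i := u
    obtain ⟨v1, v2⟩ : XX L k i × XX L k i := v
    show ((DX Ψ cj i (u1 + v1) + ((u2 + v2) - tX cj i i (u2 + v2)), -DX Ψ cj i (u2 + v2)) :
        XX L k i × XX L k i) =
      ((DX Ψ cj i u1 + (u2 - tX cj i i u2)) + (DX Ψ cj i v1 + (v2 - tX cj i i v2)),
        -DX Ψ cj i u2 + -DX Ψ cj i v2)
    rw [DX_add Ψ cj i, DX_add Ψ cj i, tX_add]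
    congr 1 <;> abel

/-- the differential as a homomorphism -/
noncomputable def DH (Ψ : L → Pt → k) (cj : ℕ → L → L) (i : ℕ) : XX L k i →+ XX L k i :=
  AddMonoidHom.mk' (DX Ψ cj i) (DX_add Ψ cj i)

theorem DX_zero (Ψ : L → Pt → k) (cj : ℕ → L → L) (i : ℕ) : DX Ψ cj i (0 : XX L k i) = 0 :=
  map_zero (DH Ψ cj i)

theorem DX_neg (Ψ : L → Pt → k) (cj : ℕ → L → L) (i : ℕ) (u : XX L k i) :
    DX Ψ cj i (-u) = -DX Ψ cj i u := map_neg (DH Ψ cj i) u

theorem DX_sub (Ψ : L → Pt → k) (cj : ℕ → L → L) (i : ℕ) (u v : XX L k i) :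
    DX Ψ cj i (u - v) = DX Ψ cj i u - DX Ψ cj i v := map_sub (DH Ψ cj i) u v

theorem shiftY_comm (i j : ℕ) (φ : Pt → k) : shiftY i (shiftY j φ) = shiftY j (shiftY i φ) := by
  by_cases hij : i = j
  · rw [hij]
  · funext y
    unfold shiftY
    by_cases h1 : y i = 0
    · rw [if_pos h1]
      by_cases h2 : y j = 0
      · rw [if_pos h2]
      · rw [if_neg h2, if_pos]
        rw [Function.update_of_ne hij]
        exact h1
    · rw [if_neg h1]
      by_cases h2 : y j = 0
      · rw [if_pos h2, if_pos]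
        rw [Function.update_of_ne (Ne.symm hij)]
        exact h2
      · rw [if_neg h2, if_neg, if_neg]
        · rw [Function.update_of_ne (Ne.symm hij), Function.update_of_ne hij,
            Function.update_comm hij]
        · rw [Function.update_of_ne hij]
          exact h1
        · rw [Function.update_of_ne (Ne.symm hij)]
          exact h2

theorem T0_comm (cj : ℕ → L → L) (i j : ℕ) (h : ∀ a, cj i (cj j a) = cj j (cj i a))
    (u : List L →₀ (Pt → k)) : T0 cj i (T0 cj j u) = T0 cj j (T0 cj i u) := by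
  induction u using Finsupp.induction_linear with
  | zero => simp only [map_zero]
  | add u v hu hv => rw [map_add, map_add, map_add, map_add, hu, hv]
  | single l φ =>
    rw [T0_single, T0_single, T0_single, T0_single, shiftY_comm i j, List.map_map, List.map_map]
    congr 1
    apply List.map_congr_left
    intro a _
    exact h a

theorem tX_comm (cj : ℕ → L → L) (a b : ℕ) (h : ∀ x, cj a (cj b x) = cj b (cj a x)) :
    ∀ (i : ℕ) (u : XX L k i), tX cj a i (tX cj b i u) = tX cj b i (tX cj a i u)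
  | 0, u => T0_comm cj a b h u
  | i + 1, u => by
    obtain ⟨u1, u2⟩ : XX L k i × XX L k i := u
    show ((tX cj a i (tX cj b i u1), tX cj a i (tX cj b i u2)) : XX L k i × XX L k i) =
      (tX cj b i (tX cj a i u1), tX cj b i (tX cj a i u2))
    rw [tX_comm cj a b h i, tX_comm cj a b h i]

theorem shift_mul (Ψ : L → Pt → k) (cj : ℕ → L → L) (j : ℕ)
    (h : ∀ a y, Ψ (cj j a) (Function.update y j (y j + 1)) = Ψ a y) (a : L) (φ : Pt → k) :
    (fun y => (Ψ (cj j a) y - 1) * shiftY j φ y) = shiftY j (fun y => (Ψ a y - 1) * φ y) := by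
  funext y
  unfold shiftY
  by_cases h1 : y j = 0
  · rw [if_pos h1, if_pos h1, mul_zero]
  · rw [if_neg h1, if_neg h1]
    have h2 := h a (Function.update y j (y j - 1))
    have h3 : Function.update (Function.update y j (y j - 1)) j
        ((Function.update y j (y j - 1)) j + 1) = y := by
      rw [Function.update_self, Function.update_idem]
      have h4 : y j - 1 + 1 = y j := by omega
      rw [h4, Function.update_eq_self]
    rw [h3] at h2
    rw [h2]

theorem T0_mapDomain (cj : ℕ → L → L) (j : ℕ) (a : L) (u : List L →₀ (Pt → k)) :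
    T0 cj j (Finsupp.mapDomain (fun l' => a :: l') u) =
      Finsupp.mapDomain (fun l' => cj j a :: l') (T0 cj j u) := by
  induction u using Finsupp.induction_linear with
  | zero => rw [Finsupp.mapDomain_zero, map_zero, Finsupp.mapDomain_zero]
  | add u v hu hv => rw [Finsupp.mapDomain_add, map_add, map_add, Finsupp.mapDomain_add, hu, hv]
  | single l φ =>
    rw [Finsupp.mapDomain_single, T0_single, T0_single, Finsupp.mapDomain_single]
    rfl

theorem Dl_shift (Ψ : L → Pt → k) (cj : ℕ → L → L) (j : ℕ)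
    (h : ∀ a y, Ψ (cj j a) (Function.update y j (y j + 1)) = Ψ a y) (l : List L) (φ : Pt → k) :
    Dl Ψ (l.map (cj j)) (shiftY j φ) = T0 cj j (Dl Ψ l φ) := by
  induction l with
  | nil => exact (map_zero (T0 cj j)).symm
  | cons a l ih =>
    show Finsupp.single (l.map (cj j)) (fun y => (Ψ (cj j a) y - 1) * shiftY j φ y) -
        Finsupp.mapDomain (fun l' => cj j a :: l') (Dl Ψ (l.map (cj j)) (shiftY j φ)) =
      T0 cj j (Finsupp.single l (fun y => (Ψ a y - 1) * φ y) -
        Finsupp.mapDomain (fun l' => a :: l') (Dl Ψ l φ))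
    rw [map_sub, T0_single, T0_mapDomain, ih, shift_mul Ψ cj j h]

theorem D0_T0 (Ψ : L → Pt → k) (cj : ℕ → L → L) (j : ℕ)
    (h : ∀ a y, Ψ (cj j a) (Function.update y j (y j + 1)) = Ψ a y) (u : List L →₀ (Pt → k)) :
    D0 Ψ (T0 cj j u) = T0 cj j (D0 Ψ u) := by
  induction u using Finsupp.induction_linear with
  | zero => simp only [map_zero]
  | add u v hu hv => rw [map_add, map_add, map_add, map_add, hu, hv]
  | single l φ => rw [T0_single, D0_single, D0_single, Dl_shift Ψ cj j h]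

theorem DX_tX (Ψ : L → Pt → k) (cj : ℕ → L → L) (m : ℕ)
    (hc : ∀ j < m, ∀ i < m, ∀ a, cj i (cj j a) = cj j (cj i a))
    (h : ∀ j < m, ∀ a y, Ψ (cj j a) (Function.update y j (y j + 1)) = Ψ a y)
    (j : ℕ) (hj : j < m) : ∀ (i : ℕ), i ≤ m → ∀ u : XX L k i,
    DX Ψ cj i (tX cj j i u) = tX cj j i (DX Ψ cj i u)
  | 0, _, u => D0_T0 Ψ cj j (h j hj) u
  | i + 1, hi, u => by
    obtain ⟨u1, u2⟩ : XX L k i × XX L k i := u
    show ((DX Ψ cj i (tX cj j i u1) + (tX cj j i u2 - tX cj i i (tX cj j i u2)),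
        -DX Ψ cj i (tX cj j i u2)) : XX L k i × XX L k i) =
      (tX cj j i (DX Ψ cj i u1 + (u2 - tX cj i i u2)), tX cj j i (-DX Ψ cj i u2))
    rw [DX_tX Ψ cj m hc h j hj i (by omega), DX_tX Ψ cj m hc h j hj i (by omega), tX_add, tX_sub,
      tX_neg, tX_comm cj i j (hc j hj i (by omega))]

theorem EX_add : ∀ (i : ℕ) (Ls : Finset ℕ) (n : ℤ) (u v : XX L k i), EX i Ls n u → EX i Ls n v →
    EX i Ls n (u + v)
  | 0, Ls, n, u, v, hu, hv => by
    intro l y h
    by_cases h1 : (show List L →₀ (Pt → k) from u) l y = 0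
    · by_cases h2 : (show List L →₀ (Pt → k) from v) l y = 0
      · exfalso
        apply h
        show (show List L →₀ (Pt → k) from u) l y + (show List L →₀ (Pt → k) from v) l y = 0
        rw [h1, h2, add_zero]
      · exact hv l y h2
    · exact hu l y h1
  | i + 1, Ls, n, u, v, hu, hv => ⟨EX_add i _ _ _ _ hu.1 hv.1, EX_add i _ _ _ _ hu.2 hv.2⟩

theorem EX_neg : ∀ (i : ℕ) (Ls : Finset ℕ) (n : ℤ) (u : XX L k i), EX i Ls n u →
    EX i Ls n (-u)
  | 0, Ls, n, u, hu => by
    intro l y h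
    apply hu l y
    intro h1
    apply h
    show -(show List L →₀ (Pt → k) from u) l y = 0
    rw [h1, neg_zero]
  | i + 1, Ls, n, u, hu => ⟨EX_neg i _ _ _ hu.1, EX_neg i _ _ _ hu.2⟩

theorem EX_sub (i : ℕ) (Ls : Finset ℕ) (n : ℤ) (u v : XX L k i) (hu : EX i Ls n u)
    (hv : EX i Ls n v) : EX i Ls n (u - v) := by
  rw [sub_eq_add_neg]
  exact EX_add i _ _ _ _ hu (EX_neg i _ _ _ hv)

theorem EX_mono : ∀ (i : ℕ) (Ls Ls' : Finset ℕ) (_ : Ls ⊆ Ls') (n : ℤ) (u : XX L k i),
    EX i Ls n u → EX i Ls' n u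
  | 0, Ls, Ls', hL, n, u, hu => by
    intro l y h
    obtain ⟨⟨j, hj, hy⟩, h2⟩ := hu l y h
    exact ⟨⟨j, hL hj, hy⟩, h2⟩
  | i + 1, Ls, Ls', hL, n, u, hu => ⟨EX_mono i _ _ hL _ _ hu.1,
      EX_mono i _ _ (Finset.erase_subset_erase i hL) _ _ hu.2⟩

theorem T0_apply_ne (cj : ℕ → L → L) (j : ℕ) (u : List L →₀ (Pt → k)) (l' : List L) (y : Pt)
    (h : T0 cj j u l' y ≠ 0) : ∃ l, l.map (cj j) = l' ∧ shiftY j (u l) y ≠ 0 := by
  classical
  have e : T0 cj j u = ∑ l ∈ u.support, Finsupp.single (l.map (cj j)) (shiftY j (u l)) := rfl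
  rw [e, Finsupp.finsetSum_apply, Finset.sum_apply] at h
  obtain ⟨l, _, hl⟩ := Finset.exists_ne_zero_of_sum_ne_zero h
  rw [Finsupp.single_apply] at hl
  by_cases h1 : l.map (cj j) = l'
  · rw [if_pos h1] at hl
    exact ⟨l, h1, hl⟩
  · rw [if_neg h1] at hl
    exact absurd rfl hl

theorem EX_tX (cj : ℕ → L → L) (j : ℕ) : ∀ (i : ℕ) (Ls : Finset ℕ) (_ : j ∉ Ls) (n : ℤ)
    (u : XX L k i), EX i Ls n u → EX i Ls n (tX cj j i u)
  | 0, Ls, hj, n, u, hu => by
    intro l' y h
    obtain ⟨l, hl, h1⟩ := T0_apply_ne cj j u l' y h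
    unfold shiftY at h1
    by_cases h2 : y j = 0
    · rw [if_pos h2] at h1
      exact absurd rfl h1
    · rw [if_neg h2] at h1
      obtain ⟨⟨j', hj', hy⟩, h3⟩ := hu l _ h1
      have hne : j' ≠ j := fun e => hj (e ▸ hj')
      rw [Function.update_of_ne hne] at hy
      refine ⟨⟨j', hj', hy⟩, ?_⟩
      rw [← hl, List.length_map]
      exact h3
  | i + 1, Ls, hj, n, u, hu => ⟨EX_tX cj j i _ hj _ _ hu.1,
      EX_tX cj j i _ (fun h => hj (Finset.mem_of_mem_erase h)) _ _ hu.2⟩

theorem EX_HX : ∀ (i : ℕ) (Ls : Finset ℕ) (n : ℤ) (u : XX L k i), EX i Ls n u → HX i n u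
  | 0, Ls, n, u, hu => by
    intro l h
    obtain ⟨y, hy⟩ : ∃ y, (show List L →₀ (Pt → k) from u) l y ≠ 0 := by
      by_contra h1
      push Not at h1
      exact h (funext h1)
    exact (hu l y hy).2
  | i + 1, Ls, n, u, hu => ⟨EX_HX i _ _ _ hu.1, EX_HX i _ _ _ hu.2⟩

/-- the invariant -/
def Inv (Ψ : L → Pt → k) (cj : ℕ → L → L) (m i : ℕ) (u : XX L k i) : Prop :=
  DX Ψ cj i u = 0 ∧ HX i i u ∧ ∀ j, i ≤ j → j < m →
    EX i (insert j (Finset.range i)) i (u - tX cj j i u)

theorem inv_zero (Ψ : L → Pt → k) (cj : ℕ → L → L) (m : ℕ) :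
    Inv Ψ cj m 0 (show XX L k 0 from (Finsupp.single [] (fun _ => 1) : List L →₀ (Pt → k))) := by
  classical
  refine ⟨?_, ?_, ?_⟩
  · show D0 Ψ (Finsupp.single [] (fun _ => 1)) = 0
    rw [D0_single]
    rfl
  · intro l h
    have h1 : l = [] := by
      by_contra h2
      apply h
      show (Finsupp.single [] (fun _ => 1) : List L →₀ (Pt → k)) l = 0
      rw [Finsupp.single_apply, if_neg (fun e => h2 e.symm)]
    rw [h1]
    rfl
  · intro j _ _ l y h
    have e : (show List L →₀ (Pt → k) from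
        ((show XX L k 0 from (Finsupp.single [] (fun _ => 1) : List L →₀ (Pt → k))) -
        tX cj j 0 (show XX L k 0 from (Finsupp.single [] (fun _ => 1) : List L →₀ (Pt → k))))) =
        Finsupp.single [] (fun _ => 1) - Finsupp.single [] (shiftY j (fun _ => 1)) := by
      show (Finsupp.single [] (fun _ => 1) : List L →₀ (Pt → k)) -
        T0 cj j (Finsupp.single [] (fun _ => 1)) = _
      rw [T0_single]
      rfl
    rw [e, ← Finsupp.single_sub, Finsupp.single_apply] at h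
    by_cases h1 : ([] : List L) = l
    · rw [if_pos h1] at h
      refine ⟨⟨j, Finset.mem_insert_self _ _, ?_⟩, by rw [← h1]; rfl⟩
      by_contra h2
      apply h
      show (1 : k) - shiftY j (fun _ => 1) y = 0
      unfold shiftY
      rw [if_neg h2, sub_self]
    · rw [if_neg h1] at h
      exact absurd rfl h

theorem inv_step (hA : StAcy) (Ψ : L → Pt → k) (cj : ℕ → L → L) (b : ℕ → L) (m : ℕ)
    (hc : ∀ j < m, ∀ i < m, ∀ a, cj i (cj j a) = cj j (cj i a))
    (h : ∀ j < m, ∀ a y, Ψ (cj j a) (Function.update y j (y j + 1)) = Ψ a y)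
    (hb : ∀ j < m, ∀ y : Pt, y j = 0 → Ψ (b j) y ≠ 1) (i : ℕ) (hi : i < m) (u : XX L k i)
    (hu : Inv Ψ cj m i u) :
    ∃ ρ : XX L k i, Inv Ψ cj m (i + 1) (show XX L k (i + 1) from (ρ, u)) := by
  obtain ⟨h1, h2, h3⟩ := hu
  have h4 := EX_neg i _ _ _ (h3 i le_rfl hi)
  rw [← Finset.range_add_one] at h4
  have h5 : DX Ψ cj i (-(u - tX cj i i u)) = 0 := by
    rw [DX_neg, DX_sub, DX_tX Ψ cj m hc h i hi i hi.le, h1, tX_zero, sub_zero, neg_zero]
  obtain ⟨ρ, hρ1, hρ2⟩ := hA L k Ψ cj b m hc h hb i hi.le (Finset.range (i + 1))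
    (fun j hj => by rw [Finset.mem_range] at hj; omega) i _ h4 h5
  refine ⟨ρ, ?_, ?_, ?_⟩
  · show ((DX Ψ cj i ρ + (u - tX cj i i u), -DX Ψ cj i u) : XX L k i × XX L k i) = 0
    rw [hρ2, h1, neg_add_cancel, neg_zero]
    rfl
  · refine ⟨?_, ?_⟩
    · have h6 := EX_HX i _ _ _ hρ1
      push_cast
      exact h6
    · show HX i (((i + 1 : ℕ) : ℤ) - 1) u
      have e : (((i + 1 : ℕ) : ℤ) - 1) = (i : ℤ) := by push_cast; ring
      rw [e]
      exact h2
  · intro j hj hjm
    refine ⟨?_, ?_⟩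
    · show EX i (insert j (Finset.range (i + 1))) ((i + 1 : ℕ) : ℤ) (ρ - tX cj j i ρ)
      push_cast
      have h7 : j ∉ Finset.range (i + 1) := by
        rw [Finset.mem_range]
        omega
      exact EX_mono i _ _ (Finset.subset_insert _ _) _ _
        (EX_sub i _ _ _ _ hρ1 (EX_tX cj j i _ h7 _ _ hρ1))
    · show EX i ((insert j (Finset.range (i + 1))).erase i) (((i + 1 : ℕ) : ℤ) - 1)
        (u - tX cj j i u)
      have e : (((i + 1 : ℕ) : ℤ) - 1) = (i : ℤ) := by push_cast; ring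
      rw [e]
      have e2 : (insert j (Finset.range (i + 1))).erase i = insert j (Finset.range i) := by
        ext x
        simp only [Finset.mem_erase, Finset.mem_insert, Finset.mem_range]
        omega
      rw [e2]
      exact h3 j (by omega) hjm

end

end Eta

open Eta in
theorem I_Eta (h : StAcy) : StEta := by
  classical
  intro L k _ Ψ cj b m hc hΨ hb
  have hstep : ∀ i (u : XX L k i), ∃ ρ : XX L k i, i < m → Inv Ψ cj m i u →
      Inv Ψ cj m (i + 1) (show XX L k (i + 1) from (ρ, u)) := by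
    intro i u
    by_cases h1 : i < m ∧ Inv Ψ cj m i u
    · obtain ⟨ρ, hρ⟩ := inv_step h Ψ cj b m hc hΨ hb i h1.1 u h1.2
      exact ⟨ρ, fun _ _ => hρ⟩
    · exact ⟨0, fun h2 h3 => absurd ⟨h2, h3⟩ h1⟩
  choose ρ hρ using hstep
  let η : ∀ i, XX L k i := fun i => Nat.rec
    (show XX L k 0 from (Finsupp.single [] (fun _ => 1) : List L →₀ (Pt → k)))
    (fun i u => (show XX L k (i + 1) from (ρ i u, u))) i
  have hη : ∀ i ≤ m, Inv Ψ cj m i (η i) := by
    intro i
    induction i with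
    | zero => intro _; exact inv_zero Ψ cj m
    | succ i ih => intro hi; exact hρ i (η i) (by omega) (ih (by omega))
  exact ⟨η, rfl, fun i _ => rfl, fun i hi => (hη i hi).1, fun i hi => (hη i hi).2.1⟩

end Pool.Agent.Work.MP_e9e200_al.SP
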