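import Pool.Agent.Work.MP_e9e200_al.Bd.B11

/-! Item F3: extension of a functional to an equivariant map. -/

set_option autoImplicit false
set_option linter.unusedSectionVars false

namespace Pool.Agent.Work.MP_e9e200_al.SP

open Pool.Agent.Work.MP_e9e200_al

namespace Ext

variable {G : Type} [Group G] (S : Submonoid G) {k : Type} [Field k] {P : Type}
  [AddCommGroup P] [Module (MonoidAlgebra ℤ S) P]

/-- the value of the functional at a group element, zero outside the monoid -/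
noncomputable def fv (ξ : P →+ k) (p : P) (g : G) : k :=
  open Classical in if h : g ∈ S then ξ (MonoidAlgebra.of ℤ S ⟨g, h⟩ • p) else 0

theorem fv_mem (ξ : P →+ k) (p : P) (s : S) :
    fv S ξ p (s : G) = ξ (MonoidAlgebra.of ℤ S s • p) := by
  unfold fv
  rw [dif_pos s.2]

theorem fv_mul (A : Subgroup G) (hAS : ∀ a ∈ A, a ∈ S) (ψ : G → k) (x1 : G) (ξ : P →+ k)
    (hξ : ∀ (a : G) (ha : a ∈ A) (p : P), ξ (MonoidAlgebra.of ℤ S ⟨a, hAS a ha⟩ • p) =
      ψ (x1 * a * x1⁻¹) * ξ p) (p : P) (a : G) (ha : a ∈ A) (g : G) :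
    fv S ξ p (a * g) = ψ (x1 * a * x1⁻¹) * fv S ξ p g := by
  by_cases hg : g ∈ S
  · have e1 : fv S ξ p g = ξ (MonoidAlgebra.of ℤ S ⟨g, hg⟩ • p) := fv_mem S ξ p ⟨g, hg⟩
    have e2 : fv S ξ p (a * g) =
        ξ (MonoidAlgebra.of ℤ S (⟨a, hAS a ha⟩ * ⟨g, hg⟩) • p) :=
      fv_mem S ξ p (⟨a, hAS a ha⟩ * ⟨g, hg⟩)
    rw [e1, e2, map_mul, mul_smul, hξ a ha]
  · have hag : a * g ∉ S := by
      intro h
      apply hg
      have h1 := S.mul_mem (hAS a⁻¹ (A.inv_mem ha)) h
      rwa [inv_mul_cancel_left] at h1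
    have e1 : fv S ξ p g = 0 := by
      unfold fv
      rw [dif_neg hg]
    have e2 : fv S ξ p (a * g) = 0 := by
      unfold fv
      rw [dif_neg hag]
    rw [e1, e2, mul_zero]

/-- the map on the monoid ring -/
noncomputable def W (ξ : P →+ k) (x1 : G) (p : P) : MonoidAlgebra ℤ S →+ (G → k) :=
  MonoidAlgebra.liftNC (Int.castAddHom (G → k)) (fun (s : S) (x : G) => fv S ξ p (x1⁻¹ * x * s))

variable {S}

theorem W_of (ξ : P →+ k) (x1 : G) (p : P) (s : S) :
    W S ξ x1 p (MonoidAlgebra.of ℤ S s) = fun x : G => fv S ξ p (x1⁻¹ * x * s) := by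
  unfold W
  rw [MonoidAlgebra.of_apply, MonoidAlgebra.liftNC_single]
  simp

theorem W_mul (ξ : P →+ k) (x1 : G) (p : P) (s : S) (r : MonoidAlgebra ℤ S) :
    ∀ x : G, W S ξ x1 p (MonoidAlgebra.of ℤ S s * r) x = W S ξ x1 p r (x * s) := by
  induction r using MonoidAlgebra.induction_on with
  | of t =>
    intro x
    rw [← map_mul, W_of, W_of]
    show fv S ξ p (x1⁻¹ * x * ((s * t : S) : G)) = fv S ξ p (x1⁻¹ * (x * s) * t)
    rw [Submonoid.coe_mul]
    simp only [mul_assoc]
  | add r r' hr hr' =>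
    intro x
    rw [mul_add, map_add, map_add, Pi.add_apply, Pi.add_apply, hr, hr']
  | smul n r hr =>
    intro x
    have e1 : MonoidAlgebra.of ℤ S s * (n • r) = n • (MonoidAlgebra.of ℤ S s * r) := by
      rw [mul_smul_comm]
    rw [e1, map_zsmul, map_zsmul, Pi.smul_apply, Pi.smul_apply, hr]

theorem W_left (A : Subgroup G) [A.Normal] (hAS : ∀ a ∈ A, a ∈ S) (ψ : G → k) (x1 : G)
    (ξ : P →+ k)
    (hξ : ∀ (a : G) (ha : a ∈ A) (p : P), ξ (MonoidAlgebra.of ℤ S ⟨a, hAS a ha⟩ • p) =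
      ψ (x1 * a * x1⁻¹) * ξ p) (p : P) (a : G) (ha : a ∈ A) (r : MonoidAlgebra ℤ S) :
    ∀ x : G, W S ξ x1 p r (a * x) = ψ a * W S ξ x1 p r x := by
  induction r using MonoidAlgebra.induction_on with
  | of t =>
    intro x
    rw [W_of]
    show fv S ξ p (x1⁻¹ * (a * x) * t) = ψ a * fv S ξ p (x1⁻¹ * x * t)
    have ha' : x1⁻¹ * a * x1 ∈ A := (inferInstance : A.Normal).conj_mem' a ha x1
    have e1 : x1⁻¹ * (a * x) * (t : G) = (x1⁻¹ * a * x1) * (x1⁻¹ * x * t) := by group
    have e2 : x1 * (x1⁻¹ * a * x1) * x1⁻¹ = a := by group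
    rw [e1, fv_mul S A hAS ψ x1 ξ hξ p _ ha', e2]
  | add r r' hr hr' =>
    intro x
    rw [map_add, Pi.add_apply, Pi.add_apply, hr, hr', mul_add]
  | smul n r hr =>
    intro x
    rw [map_zsmul, Pi.smul_apply, Pi.smul_apply, hr, mul_smul_comm]

theorem W_base (ξ : P →+ k) (x1 : G) (p : P) (s : S) (r : MonoidAlgebra ℤ S) :
    W S ξ x1 p r (x1 * s) = ξ (MonoidAlgebra.of ℤ S s • (r • p)) := by
  induction r using MonoidAlgebra.induction_on with
  | of t =>
    rw [W_of]
    show fv S ξ p (x1⁻¹ * (x1 * s) * t) =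
      ξ (MonoidAlgebra.of ℤ S s • (MonoidAlgebra.of ℤ S t • p))
    have e1 : x1⁻¹ * (x1 * (s : G)) * (t : G) = ((s * t : S) : G) := by
      rw [Submonoid.coe_mul, inv_mul_cancel_left]
    rw [e1, fv_mem, map_mul, mul_smul]
  | add r r' hr hr' =>
    rw [map_add, Pi.add_apply, hr, hr', add_smul, smul_add, map_add]
  | smul n r hr =>
    have e2 : (n • r) • p = n • (r • p) := smul_assoc n r p
    have e3 : MonoidAlgebra.of ℤ S s • (n • (r • p)) = n • (MonoidAlgebra.of ℤ S s • (r • p)) :=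
      smul_comm _ _ _
    rw [map_zsmul, Pi.smul_apply, hr, e2, e3, map_zsmul]

end Ext

open Ext in
theorem I_Ext : StExt := by
  intro G _ A _ S hAS k _ ψ x1 P _ _ hP ξ hξ
  classical
  obtain ⟨σ, hσ⟩ := Module.projective_def.mp hP
  let E : (P →₀ MonoidAlgebra ℤ S) →+ (G → k) := Finsupp.liftAddHom (W S ξ x1)
  have hE1 : ∀ (p : P) (r : MonoidAlgebra ℤ S), E (Finsupp.single p r) = W S ξ x1 p r :=
    fun p r => Finsupp.liftAddHom_apply_single _ _ _
  have hE2 : ∀ (s : S) (f : P →₀ MonoidAlgebra ℤ S) (x : G),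
      E (MonoidAlgebra.of ℤ S s • f) x = E f (x * s) := by
    intro s f
    induction f using Finsupp.induction_linear with
    | zero =>
      intro x
      rw [smul_zero, map_zero]
      rfl
    | add f g hf hg =>
      intro x
      rw [smul_add, map_add, map_add, Pi.add_apply, Pi.add_apply, hf, hg]
    | single p r =>
      intro x
      rw [Finsupp.smul_single, smul_eq_mul, hE1, hE1, W_mul]
  have hE3 : ∀ a ∈ A, ∀ (f : P →₀ MonoidAlgebra ℤ S) (x : G), E f (a * x) = ψ a * E f x := by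
    intro a ha f
    induction f using Finsupp.induction_linear with
    | zero =>
      intro x
      rw [map_zero, Pi.zero_apply, Pi.zero_apply, mul_zero]
    | add f g hf hg =>
      intro x
      rw [map_add, Pi.add_apply, Pi.add_apply, hf, hg, mul_add]
    | single p r =>
      intro x
      rw [hE1, W_left A hAS ψ x1 ξ hξ p a ha]
  have hE4 : ∀ (s : S) (f : P →₀ MonoidAlgebra ℤ S), E f (x1 * s) =
      ξ (MonoidAlgebra.of ℤ S s • Finsupp.linearCombination (MonoidAlgebra ℤ S) id f) := by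
    intro s f
    induction f using Finsupp.induction_linear with
    | zero =>
      rw [map_zero, map_zero, smul_zero, map_zero]
      rfl
    | add f g hf hg =>
      rw [map_add, Pi.add_apply, hf, hg, map_add, smul_add, map_add]
    | single p r =>
      rw [hE1, W_base, Finsupp.linearCombination_single, id]
  refine ⟨E.comp σ.toAddMonoidHom, fun s p x => ?_, fun a ha p x => hE3 a ha _ x, fun s p => ?_⟩
  · show E (σ (MonoidAlgebra.of ℤ S s • p)) x = E (σ p) (x * s)
    rw [map_smul, hE2]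
  · show E (σ p) (x1 * s) = _
    rw [hE4, hσ p]

end Pool.Agent.Work.MP_e9e200_al.SP
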