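import Pool.Agent.Work.MP_e9e200_al.Bd.B11

/-! Block SP, item D1: a subgroup with a finite quotient. -/

set_option autoImplicit false

namespace Pool.Agent.Work.MP_e9e200_al.SP

open Pool.Agent.Work.MP_e9e200_al

namespace Fin

/-- subgroups of finitely generated abelian groups are finitely generated -/
theorem sub_fg (A : Type) [CommGroup A] [Group.FG A] (H : Subgroup A) : Group.FG H := by
  have h1 : Module.Finite ℤ (Additive A) := Module.Finite.iff_addGroup_fg.mpr inferInstance
  have h2 : (AddSubgroup.toIntSubmodule H.toAddSubgroup).FG := IsNoetherian.noetherian _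
  rw [Submodule.fg_iff_addSubgroup_fg, AddSubgroup.toIntSubmodule_toAddSubgroup,
    ← Subgroup.fg_iff_add_fg] at h2
  exact (Group.fg_iff_subgroup_fg H).mpr h2

section

variable {N Γ : Type} [AddCommGroup N] [CommGroup Γ] (ρ : Γ →* AddMonoid.End N)

/-- the action of the group ring -/
noncomputable def act : MonoidAlgebra ℤ Γ →+* AddMonoid.End N :=
  (MonoidAlgebra.lift ℤ (AddMonoid.End N) Γ ρ).toRingHom

theorem act_of (γ : Γ) : act ρ (MonoidAlgebra.of ℤ Γ γ) = ρ γ :=
  MonoidAlgebra.lift_of ρ γ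

theorem act_mem (B : AddSubgroup N) (hB : ∀ γ, ∀ b ∈ B, ρ γ b ∈ B) (r : MonoidAlgebra ℤ Γ)
    (b : N) (hb : b ∈ B) : act ρ r b ∈ B := by
  induction r using MonoidAlgebra.induction_on with
  | of s =>
    rw [act_of]
    exact hB s b hb
  | add x y hx hy =>
    rw [map_add]
    exact B.add_mem hx hy
  | smul n x hx =>
    rw [map_zsmul]
    exact B.zsmul_mem hx n

end

theorem ft (Γ : Type) [CommGroup Γ] [Group.FG Γ] :
    @Algebra.FiniteType ℤ (MonoidAlgebra ℤ Γ) _ _ (Ring.toIntAlgebra (MonoidAlgebra ℤ Γ)) := by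
  have h1 : Algebra.FiniteType ℤ (MonoidAlgebra ℤ Γ) := inferInstance
  have h2 : (MonoidAlgebra.algebra : Algebra ℤ (MonoidAlgebra ℤ Γ)) =
    Ring.toIntAlgebra (MonoidAlgebra ℤ Γ) := Subsingleton.elim _ _
  rw [← h2]
  exact h1

theorem absL (hFQ : StFQ) (N Γ : Type) [AddCommGroup N] [CommGroup Γ] [Group.FG Γ]
    (ρ : Γ →* AddMonoid.End N) (A1 A2 : AddSubgroup N) (h12 : A1 ≤ A2)
    (hs1 : ∀ γ, ∀ a ∈ A1, ρ γ a ∈ A1) (hs2 : ∀ γ, ∀ a ∈ A2, ρ γ a ∈ A2)
    (hne : ∃ a ∈ A2, a ∉ A1) (S : Set N) (hSf : S.Finite)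
    (hgen : ∀ B : AddSubgroup N, A1 ≤ B → (∀ γ, ∀ b ∈ B, ρ γ b ∈ B) →
      (∀ s ∈ S, s ∈ A2 → s ∈ B) → A2 ≤ B) :
    ∃ (W : AddSubgroup N) (b : N) (q : ℕ), A1 ≤ W ∧ W ≤ A2 ∧ (∀ γ, ∀ w ∈ W, ρ γ w ∈ W) ∧
      b ∈ A2 ∧ b ∉ W ∧ 1 ≤ q ∧ ∀ γ : Γ, ρ (γ ^ q) b - b ∈ W := by
  classical
  let R : Type := MonoidAlgebra ℤ Γ
  let _ : CommRing R := inferInstanceAs (CommRing (MonoidAlgebra ℤ Γ))
  let _ : Module R N := Module.compHom N (act ρ)
  have hof : ∀ (γ : Γ) (n : N), (MonoidAlgebra.of ℤ Γ γ : R) • n = ρ γ n := by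
    intro γ n
    change act ρ (MonoidAlgebra.of ℤ Γ γ) n = ρ γ n
    rw [act_of]
  let S1 : Submodule R N :=
    { A1 with smul_mem' := fun r b hb => act_mem ρ A1 hs1 r b hb }
  let S2 : Submodule R N :=
    { A2 with smul_mem' := fun r b hb => act_mem ρ A2 hs2 r b hb }
  let T : Submodule R S2 := S1.comap S2.subtype
  let M : Type := S2 ⧸ T
  let _ : AddCommGroup M := inferInstanceAs (AddCommGroup (S2 ⧸ T))
  let _ : Module R M := inferInstanceAs (Module R (S2 ⧸ T))
  let π : S2 →ₗ[R] M := T.mkQ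
  have hπs : Function.Surjective π := T.mkQ_surjective
  have hπ0 : ∀ a : S2, π a = 0 ↔ (a : N) ∈ A1 := by
    intro a
    change T.mkQ a = 0 ↔ _
    rw [Submodule.mkQ_apply, Submodule.Quotient.mk_eq_zero]
    rfl
  have hfin : Module.Finite R M := by
    let S' : Set S2 := {s | (s : N) ∈ S}
    have hS' : S'.Finite := hSf.preimage (Subtype.val_injective.injOn)
    have hfg : (⊤ : Submodule R M).FG := by
      refine ⟨(hS'.image π).toFinset, ?_⟩
      rw [Set.Finite.coe_toFinset, eq_top_iff]
      rintro m -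
      obtain ⟨a, rfl⟩ := hπs m
      let B : Submodule R N := ((Submodule.span R (π '' S')).comap π).map S2.subtype
      have hB := hgen B.toAddSubgroup (by
        intro n hn
        refine ⟨⟨n, h12 hn⟩, ?_, rfl⟩
        change π ⟨n, h12 hn⟩ ∈ Submodule.span R (π '' S')
        rw [(hπ0 ⟨n, h12 hn⟩).mpr hn]
        exact Submodule.zero_mem _) (by
        intro γ b hb
        rw [← hof]
        exact B.smul_mem _ hb) (by
        intro s hs hs2'
        refine ⟨⟨s, hs2'⟩, ?_, rfl⟩
        change π ⟨s, hs2'⟩ ∈ Submodule.span R (π '' S')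
        exact Submodule.subset_span ⟨⟨s, hs2'⟩, hs, rfl⟩) a.2
      obtain ⟨a', ha', haa⟩ := hB
      have : a' = a := Subtype.ext haa
      rw [← this]
      exact ha'
    exact ⟨hfg⟩
  have hnt : Nontrivial M := by
    obtain ⟨a, ha2, ha1⟩ := hne
    refine ⟨⟨π ⟨a, ha2⟩, 0, ?_⟩⟩
    intro h
    exact ha1 ((hπ0 ⟨a, ha2⟩).mp h)
  have hft : @Algebra.FiniteType ℤ R _ _ (Ring.toIntAlgebra R) := ft Γ
  obtain ⟨W1, hW1, hW1f⟩ := hFQ R M
  obtain ⟨m, hm⟩ : ∃ m, m ∉ W1 := by
    by_contra hcon
    push Not at hcon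
    exact hW1 (eq_top_iff.mpr fun x _ => hcon x)
  obtain ⟨b0, rfl⟩ := hπs m
  let W : Submodule R N := (W1.comap π).map S2.subtype
  have hWmem : ∀ a : S2, (a : N) ∈ W ↔ π a ∈ W1 := by
    intro a
    constructor
    · rintro ⟨a', ha', haa⟩
      have : a' = a := Subtype.ext haa
      rw [← this]
      exact ha'
    · intro h
      exact ⟨a, h, rfl⟩
  let E : Γ →* AddMonoid.End (M ⧸ W1) :=
    (DistribMulAction.toAddMonoidEnd R (M ⧸ W1)).comp (MonoidAlgebra.of ℤ Γ)
  have hfe : Finite (AddMonoid.End (M ⧸ W1)) := DFunLike.finite _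
  refine ⟨W.toAddSubgroup, b0, Nat.card (AddMonoid.End (M ⧸ W1))ˣ, ?_, ?_, ?_, b0.2, ?_,
    Nat.card_pos, ?_⟩
  · intro n hn
    refine (hWmem ⟨n, h12 hn⟩).mpr ?_
    rw [(hπ0 ⟨n, h12 hn⟩).mpr hn]
    exact W1.zero_mem
  · rintro n ⟨a, -, rfl⟩
    exact a.2
  · intro γ w hw
    rw [← hof]
    exact W.smul_mem _ hw
  · intro h
    exact hm ((hWmem b0).mp h)
  · intro γ
    have h1 : E.toHomUnits γ ^ Nat.card (AddMonoid.End (M ⧸ W1))ˣ = 1 := pow_card_eq_one'
    have h2 : E (γ ^ Nat.card (AddMonoid.End (M ⧸ W1))ˣ) = 1 := by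
      rw [← MonoidHom.coe_toHomUnits, map_pow, h1, Units.val_one]
    generalize Nat.card (AddMonoid.End (M ⧸ W1))ˣ = q at h2 ⊢
    have h3 : (MonoidAlgebra.of ℤ Γ (γ ^ q) : R) • (W1.mkQ (π b0)) = W1.mkQ (π b0) := by
      have := DFunLike.congr_fun h2 (W1.mkQ (π b0))
      exact this
    rw [← map_smul, ← map_smul, ← sub_eq_zero, ← map_sub, ← map_sub, Submodule.mkQ_apply,
      Submodule.Quotient.mk_eq_zero] at h3
    have h4 := (hWmem _).mpr h3
    rw [Submodule.coe_sub, Submodule.coe_smul, hof] at h4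
    exact h4

/-! ### The derived group as a module -/

section

variable {G : Type} [Group G]

/-- the derived group is commutative -/
@[instance_reducible]
def cgC (hmet : Metab G) : CommGroup (commutator G) :=
  { (inferInstance : Group (commutator G)) with
    mul_comm := fun a b => Subtype.ext (hmet a a.2 b b.2) }

/-- the derived group, written additively -/
def NN (_ : Metab G) : Type := Additive (commutator G)

instance (hmet : Metab G) : AddCommGroup (NN hmet) :=
  @Additive.addCommGroup (commutator G) (cgC hmet)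

variable {hmet : Metab G}

/-- the underlying element -/
def val (a : NN hmet) : G := ((Additive.toMul (show Additive (commutator G) from a) :
  commutator G) : G)

/-- an element of the derived group -/
def mk (hmet : Metab G) (x : G) (hx : x ∈ commutator G) : NN hmet :=
  (Additive.ofMul (⟨x, hx⟩ : commutator G) : Additive (commutator G))

theorem val_mk (x : G) (hx : x ∈ commutator G) : val (mk hmet x hx) = x := rfl

theorem val_mem (a : NN hmet) : val a ∈ commutator G :=
  (Additive.toMul (show Additive (commutator G) from a) : commutator G).2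

theorem val_inj {a b : NN hmet} (h : val a = val b) : a = b :=
  (Subtype.ext h : (Additive.toMul (show Additive (commutator G) from a) : commutator G) =
    Additive.toMul (show Additive (commutator G) from b))

theorem val_add (a b : NN hmet) : val (a + b) = val a * val b := rfl

theorem val_zero : val (0 : NN hmet) = 1 := rfl

theorem val_neg (a : NN hmet) : val (-a) = (val a)⁻¹ := rfl

theorem val_sub (a b : NN hmet) : val (a - b) = val a * (val b)⁻¹ := by
  rw [sub_eq_add_neg, val_add, val_neg]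

theorem conj_mem {a : G} (ha : a ∈ commutator G) (g : G) : g * a * g⁻¹ ∈ commutator G :=
  (inferInstance : (commutator G).Normal).conj_mem a ha g

/-- the conjugation -/
def cj (hmet : Metab G) : G →* AddMonoid.End (NN hmet) where
  toFun g := AddMonoidHom.mk' (fun a => mk hmet (g * val a * g⁻¹) (conj_mem (val_mem a) g)) (by
    intro a b
    apply val_inj
    change g * (val a * val b) * g⁻¹ = g * val a * g⁻¹ * (g * val b * g⁻¹)
    group)
  map_one' := by
    apply AddMonoidHom.ext
    intro a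
    apply val_inj
    change 1 * val a * 1⁻¹ = val a
    group
  map_mul' g h := by
    apply AddMonoidHom.ext
    intro a
    apply val_inj
    change g * h * val a * (g * h)⁻¹ = g * (h * val a * h⁻¹) * g⁻¹
    group

theorem val_cj (g : G) (a : NN hmet) : val (cj hmet g a) = g * val a * g⁻¹ := rfl

theorem cj_ker (hmet : Metab G) : commutator G ≤ (cj hmet).ker := by
  intro g hg
  rw [MonoidHom.mem_ker]
  apply AddMonoidHom.ext
  intro a
  apply val_inj
  change g * val a * g⁻¹ = val a
  rw [hmet g hg (val a) (val_mem a), mul_inv_cancel_right]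

/-- the action of the abelianization -/
def cjA' (hmet : Metab G) : Abelianization G →* AddMonoid.End (NN hmet) :=
  QuotientGroup.lift (commutator G) (cj hmet) (cj_ker hmet)

theorem cjA'_of (g : G) : cjA' hmet (Abelianization.of g) = cj hmet g := rfl

/-- the kernel of the character -/
def KK (χ : Additive G →+ ℝ) : Subgroup G where
  carrier := {g | χ (Additive.ofMul g) = 0}
  one_mem' := by
    rw [Set.mem_ofPred_eq, ofMul_one, map_zero]
  mul_mem' := by
    intro a b ha hb
    rw [Set.mem_ofPred_eq] at ha hb ⊢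
    rw [Glue.char_mul, ha, hb, add_zero]
  inv_mem' := by
    intro a ha
    rw [Set.mem_ofPred_eq] at ha ⊢
    rw [Glue3.char_inv, ha, neg_zero]

/-- the elements of a subgroup of `G` -/
def AN (hmet : Metab G) (H : Subgroup G) : AddSubgroup (NN hmet) where
  carrier := {a | val a ∈ H}
  zero_mem' := H.one_mem
  add_mem' := fun ha hb => H.mul_mem ha hb
  neg_mem' := fun ha => H.inv_mem ha

theorem mem_AN {H : Subgroup G} {a : NN hmet} : a ∈ AN hmet H ↔ val a ∈ H := Iff.rfl

/-- the subgroup of `G` -/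
def WG (W : AddSubgroup (NN hmet)) : Subgroup G where
  carrier := {x | ∃ h : x ∈ commutator G, mk hmet x h ∈ W}
  one_mem' := ⟨Subgroup.one_mem _, W.zero_mem⟩
  mul_mem' := fun ⟨h1, h1'⟩ ⟨h2, h2'⟩ => ⟨Subgroup.mul_mem _ h1 h2, W.add_mem h1' h2'⟩
  inv_mem' := fun ⟨h1, h1'⟩ => ⟨Subgroup.inv_mem _ h1, W.neg_mem h1'⟩

theorem mem_WG {W : AddSubgroup (NN hmet)} {x : G} :
    x ∈ WG W ↔ ∃ h : x ∈ commutator G, mk hmet x h ∈ W := Iff.rfl

theorem main (hFQ : StFQ) [Group.FG G] (hmet : Metab G) (χ : Additive G →+ ℝ)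
    (hχ : ∀ g, ∃ z : ℤ, χ g = z) (V : Finset G) (hV : ∀ v ∈ V, v ∈ commutator G) (t : G)
    (ht : 0 < χ (Additive.ofMul t)) (hex : ∃ a ∈ commutator G, a ∉ Gen G χ V)
    (hN : ∀ a ∈ commutator G, ∃ N : ℕ, t ^ N * a * (t ^ N)⁻¹ ∈ Gen G χ V) :
    ∃ (W : Subgroup G) (b : G) (q : ℕ), Gen G χ V ≤ W ∧ W ≤ commutator G ∧
    (∀ g, χ (Additive.ofMul g) = 0 → ∀ w ∈ W, g * w * g⁻¹ ∈ W) ∧ b ∈ commutator G ∧ b ∉ W ∧
    1 ≤ q ∧ ∀ g, χ (Additive.ofMul g) = 0 → g ^ q * b * (g ^ q)⁻¹ * b⁻¹ ∈ W := by
  classical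
  obtain ⟨T, hT⟩ := hχ (Additive.ofMul t)
  let Γ : Type := ((KK χ).map Abelianization.of : Subgroup (Abelianization G))
  let _ : CommGroup Γ :=
    inferInstanceAs (CommGroup ((KK χ).map Abelianization.of : Subgroup (Abelianization G)))
  have hfgA : Group.FG (Abelianization G) :=
    Group.fg_of_surjective (f := (Abelianization.of : G →* Abelianization G))
      (QuotientGroup.mk'_surjective _)
  have hfg : Group.FG Γ := sub_fg (Abelianization G) _
  let ρ : Γ →* AddMonoid.End (NN hmet) := (cjA' hmet).comp (Subgroup.subtype _)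
  -- the class of an element of the kernel
  have hcl : ∀ g : G, χ (Additive.ofMul g) = 0 → ∃ γ : Γ, ρ γ = cj hmet g := by
    intro g hg
    exact ⟨⟨Abelianization.of g, g, hg, rfl⟩, rfl⟩
  have hrep : ∀ γ : Γ, ∃ g : G, χ (Additive.ofMul g) = 0 ∧ ρ γ = cj hmet g := by
    rintro ⟨_, g, hg, rfl⟩
    exact ⟨g, hg, rfl⟩
  have htt : 0 ≤ χ (Additive.ofMul t) := ht.le
  let H2 : Subgroup G := (Gen G χ V).comap (MulAut.conj t).toMonoidHom
  have hH2 : ∀ x, x ∈ H2 ↔ t * x * t⁻¹ ∈ Gen G χ V := fun x => Iff.rfl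
  -- values
  let gr : ℤ → G := fun r => if h : ∃ g : G, χ (Additive.ofMul g) = r then h.choose else 1
  have hgr : ∀ g : G, ∀ r : ℤ, χ (Additive.ofMul g) = r → χ (Additive.ofMul (gr r)) = r := by
    intro g r h
    have h' : ∃ g : G, χ (Additive.ofMul g) = r := ⟨g, h⟩
    simp only [gr, dif_pos h']
    exact h'.choose_spec
  let vm : G → NN hmet := fun v => if h : v ∈ commutator G then mk hmet v h else 0
  have hvm : ∀ v ∈ V, val (vm v) = v := by
    intro v hv
    simp only [vm, dif_pos (hV v hv)]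
    rfl
  let S : Set (NN hmet) := (fun p : ℤ × G => cj hmet (gr p.1) (vm p.2)) ''
    ((Finset.Icc (-T) 0 ×ˢ V : Finset (ℤ × G)) : Set (ℤ × G))
  obtain ⟨W, b, q, hW1, -, hW3, -, hb, hq, hWq⟩ := absL hFQ (NN hmet) Γ ρ
    (AN hmet (Gen G χ V)) (AN hmet H2)
    (by
      intro a ha
      exact Glue3.gen_conj htt ha)
    (by
      intro γ a ha
      obtain ⟨g, hg, hγ⟩ := hrep γ
      rw [hγ]
      exact Glue3.gen_conj hg.ge ha)
    (by
      intro γ a ha
      obtain ⟨g, hg, hγ⟩ := hrep γ
      rw [hγ, mem_AN, hH2, val_cj]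
      have h1 := Glue3.gen_conj (g0 := t * g * t⁻¹) (V := V) (χ := χ) (w := t * val a * t⁻¹) (by
        rw [Glue.char_mul, Glue.char_mul, Glue3.char_inv, hg]
        simp) ha
      have h2 : t * g * t⁻¹ * (t * val a * t⁻¹) * (t * g * t⁻¹)⁻¹ =
        t * (g * val a * g⁻¹) * t⁻¹ := by group
      rwa [h2] at h1)
    (by
      obtain ⟨a, ha, ha1⟩ := hex
      have hn := Nat.find_spec (hN a ha)
      have hmin : ∀ k < Nat.find (hN a ha), t ^ k * a * (t ^ k)⁻¹ ∉ Gen G χ V :=
        fun k hk => Nat.find_min (hN a ha) hk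
      generalize Nat.find (hN a ha) = n at hn hmin
      cases n with
      | zero =>
        exfalso
        apply ha1
        rw [pow_zero, one_mul, inv_one, mul_one] at hn
        exact hn
      | succ n =>
        refine ⟨mk hmet (t ^ n * a * (t ^ n)⁻¹) (conj_mem ha _), ?_, ?_⟩
        · rw [mem_AN, hH2, val_mk]
          have h2 : t * (t ^ n * a * (t ^ n)⁻¹) * t⁻¹ =
            t ^ (n + 1) * a * (t ^ (n + 1))⁻¹ := by
            rw [pow_succ']
            group
          rwa [h2]
        · rw [mem_AN, val_mk]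
          exact hmin n (Nat.lt_succ_self n))
    S (Set.Finite.image _ (Finset.finite_toSet _))
    (by
      intro B hB1 hB2 hB3
      have key : ∀ y ∈ Gen G χ V, ∀ n : NN hmet, t * val n * t⁻¹ = y → n ∈ B := by
        intro y hy
        unfold Gen at hy
        induction hy using Subgroup.closure_induction with
        | mem y hy =>
          obtain ⟨g, v, hg, hv, rfl⟩ := hy
          intro n hn
          have hn' : val n = (t⁻¹ * g) * v * (t⁻¹ * g)⁻¹ := by
            have : val n = t⁻¹ * (t * val n * t⁻¹) * t := by group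
            rw [this, hn]
            group
          by_cases h0 : 0 ≤ χ (Additive.ofMul (t⁻¹ * g))
          · apply hB1
            rw [mem_AN, hn']
            exact Subgroup.subset_closure ⟨_, v, h0, hv, rfl⟩
          · rw [not_le] at h0
            obtain ⟨r, hr⟩ := hχ (Additive.ofMul (t⁻¹ * g))
            have hr1 := hgr _ r hr
            have hval : (r : ℝ) = χ (Additive.ofMul g) - T := by
              rw [← hr, Glue.char_mul, Glue3.char_inv, hT]
              ring
            have hr2 : r ≤ 0 := by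
              rw [hr] at h0
              exact_mod_cast h0.le
            have hr3 : -T ≤ r := by
              have : (-T : ℝ) ≤ r := by
                rw [hval]
                linarith
              exact_mod_cast this
            have hsS : cj hmet (gr r) (vm v) ∈ S := by
              refine ⟨(r, v), ?_, rfl⟩
              rw [Finset.mem_coe, Finset.mem_product, Finset.mem_Icc]
              exact ⟨⟨hr3, hr2⟩, hv⟩
            have hs2 : cj hmet (gr r) (vm v) ∈ AN hmet H2 := by
              rw [mem_AN, hH2, val_cj, hvm v hv]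
              refine Subgroup.subset_closure ⟨t * gr r, v, ?_, hv, by group⟩
              rw [Glue.char_mul, hr1, hT, hval]
              linarith
            have hsB := hB3 _ hsS hs2
            obtain ⟨γ, hγ⟩ := hcl (t⁻¹ * g * (gr r)⁻¹) (by
              rw [Glue.char_mul, Glue3.char_inv, hr, hr1]
              ring)
            have h3 := hB2 γ _ hsB
            rw [hγ] at h3
            have h4 : cj hmet (t⁻¹ * g * (gr r)⁻¹) (cj hmet (gr r) (vm v)) = n := by
              apply val_inj
              rw [val_cj, val_cj, hvm v hv, hn']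
              group
            rwa [h4] at h3
        | one =>
          intro n hn
          have h1 : n = 0 := by
            apply val_inj
            have : val n = t⁻¹ * (t * val n * t⁻¹) * t := by group
            rw [this, hn, val_zero]
            group
          rw [h1]
          exact B.zero_mem
        | mul x y hx hy hx' hy' =>
          intro n hn
          have hxc : x ∈ commutator G := Glue3.gen_le hV hx
          have hyc : y ∈ commutator G := Glue3.gen_le hV hy
          have hxc' : t⁻¹ * x * t ∈ commutator G := by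
            have := conj_mem hxc t⁻¹
            rwa [inv_inv] at this
          have hyc' : t⁻¹ * y * t ∈ commutator G := by
            have := conj_mem hyc t⁻¹
            rwa [inv_inv] at this
          have h1 := hx' (mk hmet _ hxc') (by rw [val_mk]; group)
          have h2 := hy' (mk hmet _ hyc') (by rw [val_mk]; group)
          have h3 : n = mk hmet _ hxc' + mk hmet _ hyc' := by
            apply val_inj
            rw [val_add, val_mk, val_mk]
            have : val n = t⁻¹ * (t * val n * t⁻¹) * t := by group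
            rw [this, hn]
            group
          rw [h3]
          exact B.add_mem h1 h2
        | inv x hx hx' =>
          intro n hn
          have h1 := hx' (-n) (by
            rw [val_neg]
            have : t * (val n)⁻¹ * t⁻¹ = (t * val n * t⁻¹)⁻¹ := by group
            rw [this, hn, inv_inv])
          rw [← neg_neg n]
          exact B.neg_mem h1
      intro n hn
      exact key _ hn n rfl)
  refine ⟨WG W, val b, q, ?_, ?_, ?_, val_mem b, ?_, hq, ?_⟩
  · intro x hx
    have hxc : x ∈ commutator G := Glue3.gen_le hV hx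
    exact ⟨hxc, hW1 (show mk hmet x hxc ∈ AN hmet (Gen G χ V) from hx)⟩
  · rintro x ⟨hx, -⟩
    exact hx
  · rintro g hg w ⟨hw, hw'⟩
    obtain ⟨γ, hγ⟩ := hcl g hg
    have h1 := hW3 γ _ hw'
    rw [hγ] at h1
    exact ⟨conj_mem hw g, h1⟩
  · rintro ⟨h, h'⟩
    exact hb h'
  · intro g hg
    obtain ⟨γ, hγ⟩ := hcl g hg
    have h1 := hWq γ
    rw [map_pow, hγ, ← map_pow] at h1
    exact ⟨Subgroup.mul_mem _ (conj_mem (val_mem b) _) (Subgroup.inv_mem _ (val_mem b)), by
      have h2 : cj hmet (g ^ q) b - b = mk hmet (g ^ q * val b * (g ^ q)⁻¹ * (val b)⁻¹)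
          (Subgroup.mul_mem _ (conj_mem (val_mem b) _) (Subgroup.inv_mem _ (val_mem b))) := by
        apply val_inj
        rw [val_sub, val_cj, val_mk]
      rwa [h2] at h1⟩

end

end Fin

theorem I_Fin (h : StFQ) : StFin := by
  intro G _ _ hmet χ hχ V hV t ht hex hN
  exact Fin.main h hmet χ hχ V hV t ht hex hN

end Pool.Agent.Work.MP_e9e200_al.SP
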