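import Pool.Agent.Work.MP_e9e200_al.Bd.B11

/-!
# Projective modules over the monoid ring and equivariant lifts for a subgroup
-/

set_option autoImplicit false

namespace Pool.Agent.Work.MP_e9e200_al.SP

open Pool.Agent.Work.MP_e9e200_al

namespace LiftA

/-- additive maps on the monoid ring -/
noncomputable def Wf {S N : Type} [Monoid S] [AddCommGroup N] (f : S → N) :
    MonoidAlgebra ℤ S →+ N :=
  (Finsupp.liftAddHom fun s => zmultiplesHom N (f s)).comp
    (MonoidAlgebra.coeffAddEquiv (R := ℤ) (M := S)).toAddMonoidHom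

theorem Wf_of {S N : Type} [Monoid S] [AddCommGroup N] (f : S → N) (s : S) :
    Wf f (MonoidAlgebra.of ℤ S s) = f s := by
  have h : Wf f (MonoidAlgebra.of ℤ S s) =
      Finsupp.liftAddHom (fun s => zmultiplesHom N (f s)) (Finsupp.single s (1 : ℤ)) := rfl
  rw [h, Finsupp.liftAddHom_apply_single, zmultiplesHom_apply, one_zsmul]

/-- the orbits of the subgroup -/
def st {G : Type} [Group G] (A : Subgroup G) (S : Submonoid G) : Setoid S where
  r s s' := ∃ a ∈ A, (s' : G) = a * s
  iseqv := by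
    refine ⟨fun s => ⟨1, A.one_mem, by rw [one_mul]⟩, ?_, ?_⟩
    · rintro s s' ⟨a, ha, h⟩
      exact ⟨a⁻¹, A.inv_mem ha, by rw [h, inv_mul_cancel_left]⟩
    · rintro s s' s'' ⟨a, ha, h⟩ ⟨b, hb, h'⟩
      exact ⟨b * a, A.mul_mem hb ha, by rw [h', h, mul_assoc]⟩

/-- representatives of the orbits -/
noncomputable def rep {G : Type} [Group G] (A : Subgroup G) (S : Submonoid G) (s : S) : S :=
  Quotient.out (Quotient.mk (st A S) s)

theorem rep_mul {G : Type} [Group G] (A : Subgroup G) (S : Submonoid G) (a : S)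
    (ha : (a : G) ∈ A) (s : S) : rep A S (a * s) = rep A S s := by
  unfold rep
  congr 1
  exact (Quotient.sound (s := st A S) ⟨(a : G), ha, by rw [Submonoid.coe_mul]⟩).symm

theorem al_mem {G : Type} [Group G] (A : Subgroup G) (S : Submonoid G) (s : S) :
    (s : G) * (rep A S s : G)⁻¹ ∈ A := by
  obtain ⟨a, ha, h⟩ : ∃ a ∈ A, (s : G) = a * (rep A S s : G) :=
    Quotient.mk_out (s := st A S) s
  rw [h, mul_inv_cancel_right]
  exact ha

end LiftA

open LiftA in
theorem I_LiftA : StLiftA := by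
  intro G _ A S hAS P N N' _ _ _ _ _ _ hP π g hg hex
  classical
  obtain ⟨σ, hσ⟩ := Module.projective_def.mp hP
  choose q0 hq0 using hex
  -- the element of `A`
  let al : S → S := fun s => ⟨(s : G) * (rep A S s : G)⁻¹, hAS _ (al_mem A S s)⟩
  have hal : ∀ s, al s * rep A S s = s := by
    intro s
    apply Subtype.ext
    show (s : G) * (rep A S s : G)⁻¹ * (rep A S s : G) = s
    rw [inv_mul_cancel_right]
  have halm : ∀ (a : S) (_ : (a : G) ∈ A) (s : S), al (a * s) = a * al s := by
    intro a ha s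
    apply Subtype.ext
    show ((a * s : S) : G) * (rep A S (a * s) : G)⁻¹ = (a : G) * ((s : G) * (rep A S s : G)⁻¹)
    rw [rep_mul A S a ha, Submonoid.coe_mul, mul_assoc]
  let f : P → S → N := fun p s => MonoidAlgebra.of ℤ S (al s) •
    q0 (MonoidAlgebra.of ℤ S (rep A S s) • p)
  let E : (P →₀ MonoidAlgebra ℤ S) →+ N := Finsupp.liftAddHom fun p => Wf (f p)
  have hE : ∀ (p : P) (r : MonoidAlgebra ℤ S), E (Finsupp.single p r) = Wf (f p) r :=
    fun p r => Finsupp.liftAddHom_apply_single _ _ _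
  have h1 : ∀ (p : P) (r : MonoidAlgebra ℤ S), π (Wf (f p) r) = g (r • p) := by
    intro p r
    induction r using MonoidAlgebra.induction_on with
    | of s =>
      have e1 : π (f p s) = MonoidAlgebra.of ℤ S (al s) • g (MonoidAlgebra.of ℤ S (rep A S s) • p) := by
        show π (MonoidAlgebra.of ℤ S (al s) • q0 (MonoidAlgebra.of ℤ S (rep A S s) • p)) = _
        rw [map_smul, hq0]
      have e2 : g (MonoidAlgebra.of ℤ S (al s) • MonoidAlgebra.of ℤ S (rep A S s) • p) =
          MonoidAlgebra.of ℤ S (al s) • g (MonoidAlgebra.of ℤ S (rep A S s) • p) :=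
        hg _ (al_mem A S s) _
      rw [Wf_of, e1, ← e2, smul_smul, ← map_mul, hal]
    | add x y hx hy => rw [map_add, map_add, hx, hy, add_smul, map_add]
    | smul n x hx =>
      have e2 : (n • x) • p = n • (x • p) := smul_assoc n x p
      rw [map_zsmul, map_zsmul, hx, e2, map_zsmul]
  have h2 : ∀ (a : G) (ha : a ∈ A) (p : P) (r : MonoidAlgebra ℤ S),
      Wf (f p) (MonoidAlgebra.of ℤ S ⟨a, hAS a ha⟩ * r) =
        MonoidAlgebra.of ℤ S ⟨a, hAS a ha⟩ • Wf (f p) r := by
    intro a ha p r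
    induction r using MonoidAlgebra.induction_on with
    | of s =>
      rw [← map_mul, Wf_of, Wf_of]
      show MonoidAlgebra.of ℤ S (al (⟨a, hAS a ha⟩ * s)) •
        q0 (MonoidAlgebra.of ℤ S (rep A S (⟨a, hAS a ha⟩ * s)) • p) =
        MonoidAlgebra.of ℤ S ⟨a, hAS a ha⟩ • MonoidAlgebra.of ℤ S (al s) •
          q0 (MonoidAlgebra.of ℤ S (rep A S s) • p)
      rw [halm _ ha, rep_mul A S _ ha, map_mul, smul_smul]
    | add x y hx hy => rw [mul_add, map_add, map_add, hx, hy, smul_add]
    | smul n x hx =>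
      rw [mul_smul_comm, map_zsmul, map_zsmul, hx, smul_comm]
  have h3 : ∀ x : P →₀ MonoidAlgebra ℤ S,
      π (E x) = g (Finsupp.linearCombination (MonoidAlgebra ℤ S) id x) := by
    intro x
    induction x using Finsupp.induction_linear with
    | zero => rw [map_zero, map_zero, map_zero, map_zero]
    | add x y hx hy => rw [map_add, map_add, map_add, map_add, hx, hy]
    | single p r => rw [hE, h1, Finsupp.linearCombination_single, id]
  have h4 : ∀ (a : G) (ha : a ∈ A) (x : P →₀ MonoidAlgebra ℤ S),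
      E (MonoidAlgebra.of ℤ S ⟨a, hAS a ha⟩ • x) = MonoidAlgebra.of ℤ S ⟨a, hAS a ha⟩ • E x := by
    intro a ha x
    induction x using Finsupp.induction_linear with
    | zero => rw [smul_zero, map_zero, smul_zero]
    | add x y hx hy => rw [smul_add, map_add, map_add, smul_add, hx, hy]
    | single p r => rw [Finsupp.smul_single, hE, hE, smul_eq_mul, h2 a ha]
  refine ⟨E.comp σ.toAddMonoidHom, ?_, ?_⟩
  · intro a ha p
    show E (σ (MonoidAlgebra.of ℤ S ⟨a, hAS a ha⟩ • p)) = _
    rw [map_smul, h4 a ha]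
    rfl
  · intro p
    show π (E (σ p)) = g p
    rw [h3, hσ p]

end Pool.Agent.Work.MP_e9e200_al.SP
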