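import Pool.Agent.Work.MP_e9e200_al.Bd.B11

/-!
# Sigma invariants of split metabelian groups: the theorem
-/

set_option autoImplicit false

namespace Pool.Agent.Work.MP_e9e200_al.SP

open Pool.Agent.Work.MP_e9e200_al

theorem I_MainSP (hs : StSumSP) (ht : StTs) (hv : StVan) (hcar : StCar) (hm : StMono) :
    StMainSP := by
  intro m G _ _ _ A B hA hcomm hB hfin v hv'
  classical
  obtain ⟨hv0, s, hcard, hsT, hconv⟩ := hv'
  refine ⟨hv0, fun hfp => ?_⟩
  obtain ⟨n, hn, w, c, hli, hwc, hsum⟩ := hcar _ s v 0 hconv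
  obtain _ | n := n
  · rw [Finset.sum_range_zero] at hsum
    exact hv0 hsum
  have hmet : Metab G := fun a ha b hb => hA a (hcomm ha) b (hcomm hb)
  have hnor : A.Normal := by
    refine ⟨fun a ha g => ?_⟩
    have h1 : g * a * g⁻¹ * a⁻¹ ∈ commutator G :=
      Subgroup.commutator_mem_commutator (Subgroup.mem_top g) (Subgroup.mem_top a)
    have h2 := A.mul_mem (hcomm h1) ha
    rwa [inv_mul_cancel_right] at h2
  have hex : ∀ i, ∃ (χ : Additive G →+ ℝ) (d : ℝ), i < n + 1 →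
      χ ∈ SigC G 1 ∧ (∀ g, ∃ z : ℤ, χ g = z) ∧ 0 < d ∧ w i = d • χ := by
    intro i
    by_cases hi : i < n + 1
    · obtain ⟨χ, ⟨h1, h2⟩, d, hd, hw⟩ := hsT (w i) (hwc i hi).1
      exact ⟨χ, d, fun _ => ⟨h1, h2, hd, hw⟩⟩
    · exact ⟨0, 0, fun h => absurd h hi⟩
  choose X d hX using hex
  have hli' : LinearIndependent ℝ (fun i : Fin (n + 1) => X i) := by
    have h := hli.units_smul (fun i : Fin (n + 1) =>
      Units.mk0 (d i)⁻¹ (inv_ne_zero (hX i i.2).2.2.1.ne'))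
    have e : (fun i : Fin (n + 1) => Units.mk0 (d i)⁻¹ (inv_ne_zero (hX i i.2).2.2.1.ne')) •
        (fun i : Fin (n + 1) => w i) = (fun i : Fin (n + 1) => X i) := by
      funext i
      show (d i)⁻¹ • w i = X i
      rw [(hX i i.2).2.2.2, smul_smul, inv_mul_cancel₀ (hX i i.2).2.2.1.ne', one_smul]
    exact e ▸ h
  obtain ⟨t, htc, ht0, htp⟩ := ht G A B hB hfin (n + 1) X (fun i hi => (hX i hi).2.1)
    (fun i hi a ha => hv G A hA hcomm (X i) (hX i hi).1 a ha) hli'
  refine hs G hmet (n + 1) X (fun i => c i * d i) t v (by omega) (fun i hi => (hX i hi).1)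
    (fun i hi => (hX i hi).2.1) (fun i hi => mul_pos (hwc i hi).2.1 (hX i hi).2.2.1) htc ht0 htp ?_
    (hm _ _ m (n + 1) (by omega) hfp)
  rw [hsum]
  refine Finset.sum_congr rfl fun i hi => ?_
  rw [(hX i (Finset.mem_range.mp hi)).2.2.2, smul_smul]

end Pool.Agent.Work.MP_e9e200_al.SP
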