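import Pool.Agent.Work.MP_e9e200_al.Bd.B11

/-!
# Multiplication by `a - 1` is null homotopic over `ℤA`
-/

set_option autoImplicit false

namespace Pool.Agent.Work.MP_e9e200_al.SP

open Pool.Agent.Work.MP_e9e200_al

namespace Null

/-- dependent choice -/
theorem dep_seq {T : ℕ → Type} (P0 : T 0 → Prop) (R : ∀ j, T j → T (j + 1) → Prop)
    (h0 : ∃ x, P0 x) (hs : ∀ j x, ∃ y, R j x y) :
    ∃ f : ∀ j, T j, P0 (f 0) ∧ ∀ j, R j (f j) (f (j + 1)) := by
  choose g hg using hs
  obtain ⟨x, hx⟩ := h0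
  exact ⟨fun j => Nat.rec (motive := T) x (fun j y => g j y) j, hx, fun j => hg j _⟩

theorem of_smul_triv {S : Type} [Monoid S] (s : S) (z : Triv S) :
    MonoidAlgebra.of ℤ S s • z = z := by
  change (aug S (MonoidAlgebra.of ℤ S s)) * (show ℤ from z) = z
  have : aug S (MonoidAlgebra.of ℤ S s) = 1 := by
    simp [aug]
  rw [this, one_mul]

variable {R M : Type} [Ring R] [AddCommGroup M] [Module R M]

/-- `p ↦ c p - p` -/
def mu (M : Type) [AddCommGroup M] [Module R M] (c : R) : M →+ M where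
  toFun p := c • p - p
  map_zero' := by simp
  map_add' p q := by rw [smul_add]; abel

theorem mu_apply (c : R) (p : M) : mu M c p = c • p - p := rfl

theorem mu_smul {c b : R} (h : c * b = b * c) (p : M) : mu M c (b • p) = b • mu M c p := by
  rw [mu_apply, mu_apply, smul_sub, smul_smul, smul_smul, h]

theorem mu_map {N : Type} [AddCommGroup N] [Module R N] (c : R) (d : M →ₗ[R] N) (p : M) :
    d (mu M c p) = mu N c (d p) := by
  rw [mu_apply, mu_apply, map_sub, map_smul]

end Null

theorem I_Null (h : StLiftA) : StNull := by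
  intro G _ A hA S hAS P d ε hres a ha
  obtain ⟨hproj, -, hex0, hex⟩ := hres
  set c : MonoidAlgebra ℤ S := MonoidAlgebra.of ℤ S ⟨a, hAS a ha⟩ with hc
  have hcomm : ∀ (b : G) (hb : b ∈ A), c * MonoidAlgebra.of ℤ S ⟨b, hAS b hb⟩ =
      MonoidAlgebra.of ℤ S ⟨b, hAS b hb⟩ * c := by
    intro b hb
    rw [hc, ← map_mul, ← map_mul]
    congr 1
    exact Subtype.ext (hA a ha b hb)
  obtain ⟨f, hf0, hf⟩ := Null.dep_seq
    (T := fun j => {h : P j →+ P (j + 1) // (∀ (b : G) (hb : b ∈ A) (p : P j),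
      h (MonoidAlgebra.of ℤ S ⟨b, hAS b hb⟩ • p) =
        MonoidAlgebra.of ℤ S ⟨b, hAS b hb⟩ • h p) ∧
      ∀ p, d j (h (d j p)) = Null.mu (P j) c (d j p)})
    (P0 := fun h => ∀ p, d 0 (h.1 p) = Null.mu (P 0) c p)
    (R := fun j h h' => ∀ p, d (j + 1) (h'.1 p) = Null.mu (P (j + 1)) c p - h.1 (d j p))
    (by
      obtain ⟨h0, h1, h2⟩ := h A S hAS (P 0) (P 1) (P 0) (hproj 0) (d 0) (Null.mu (P 0) c)
        (fun b hb p => Null.mu_smul (hcomm b hb) p)
        (by
          intro p
          have : ε (Null.mu (P 0) c p) = 0 := by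
            rw [Null.mu_map, Null.mu_apply, hc, Null.of_smul_triv, sub_self]
          exact (hex0 _).1 this)
      exact ⟨⟨h0, h1, fun p => h2 _⟩, h2⟩)
    (by
      rintro j ⟨g, hg1, hg2⟩
      obtain ⟨h0, h1, h2⟩ := h A S hAS (P (j + 1)) (P (j + 2)) (P (j + 1)) (hproj (j + 1))
        (d (j + 1)) (Null.mu (P (j + 1)) c - g.comp (d j).toAddMonoidHom)
        (by
          intro b hb p
          have e : ∀ q : P (j + 1), (Null.mu (P (j + 1)) c - g.comp (d j).toAddMonoidHom) q =
            Null.mu (P (j + 1)) c q - g (d j q) := fun q => rfl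
          rw [e, e, Null.mu_smul (hcomm b hb), map_smul, hg1 b hb, smul_sub])
        (by
          intro p
          have : d j ((Null.mu (P (j + 1)) c - g.comp (d j).toAddMonoidHom) p) = 0 := by
            change d j (Null.mu (P (j + 1)) c p - g (d j p)) = 0
            rw [map_sub, hg2, Null.mu_map, sub_self]
          exact (hex j _).1 this)
      refine ⟨⟨h0, h1, fun q => ?_⟩, fun p => h2 p⟩
      rw [h2]
      change Null.mu (P (j + 1)) c (d (j + 1) q) - g (d j (d (j + 1) q)) = _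
      rw [(hex j).apply_apply_eq_zero, map_zero, sub_zero])
  refine ⟨fun j => (f j).1, fun j => (f j).2.1, hf0, fun j p => ?_⟩
  rw [hf j p, sub_add_cancel]
  rfl

end Pool.Agent.Work.MP_e9e200_al.SP
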