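import Pool.Agent.Work.MP_e9e200_al.Bd.B11

/-! Project MP_e9e200_al, block SP: the data for one character. -/

set_option autoImplicit false

namespace Pool.Agent.Work.MP_e9e200_al.SP

open Pool.Agent.Work.MP_e9e200_al

namespace One

variable {G : Type} [Group G]

/-- the quotient of the derived group by a subgroup -/
theorem quot (hmet : Metab G) (W : Subgroup G) :
    ∃ (M : Type) (_ : AddCommGroup M) (y : G → M),
      (∀ a ∈ commutator G, ∀ b ∈ commutator G, y (a * b) = y a + y b) ∧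
      ∀ a ∈ commutator G, (y a = 0 ↔ a ∈ W) := by
  classical
  let _ : CommGroup (commutator G) :=
    { (inferInstance : Group (commutator G)) with
      mul_comm := fun a b => Subtype.ext (hmet a a.2 b b.2) }
  refine ⟨Additive ((commutator G) ⧸ W.subgroupOf (commutator G)), inferInstance,
    fun a => if h : a ∈ commutator G then
      Additive.ofMul (QuotientGroup.mk (⟨a, h⟩ : commutator G)) else 0, ?_, ?_⟩
  · intro a ha b hb
    simp only [dif_pos ha, dif_pos hb, dif_pos (Subgroup.mul_mem _ ha hb)]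
    rfl
  · intro a ha
    simp only [dif_pos ha]
    rw [← ofMul_one, Additive.ofMul.apply_eq_iff_eq, QuotientGroup.eq_one_iff,
      Subgroup.mem_subgroupOf]

/-- the elements of the kernel of `χ` which fix `b` modulo `W` -/
def fixer (χ : Additive G →+ ℝ) (W : Subgroup G)
    (hWs : ∀ g, χ (Additive.ofMul g) = 0 → ∀ w ∈ W, g * w * g⁻¹ ∈ W) (b : G) : Subgroup G where
  carrier := {g | χ (Additive.ofMul g) = 0 ∧ g * b * g⁻¹ * b⁻¹ ∈ W}
  one_mem' := by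
    refine ⟨by simp, ?_⟩
    have h : (1 : G) * b * 1⁻¹ * b⁻¹ = 1 := by group
    rw [h]; exact W.one_mem
  mul_mem' := by
    rintro g h ⟨hg1, hg2⟩ ⟨hh1, hh2⟩
    refine ⟨?_, ?_⟩
    · rw [Glue.char_mul, hg1, hh1, add_zero]
    · have e : g * h * b * (g * h)⁻¹ * b⁻¹ =
          (g * (h * b * h⁻¹ * b⁻¹) * g⁻¹) * (g * b * g⁻¹ * b⁻¹) := by group
      rw [e]
      exact W.mul_mem (hWs g hg1 _ hh2) hg2
  inv_mem' := by
    rintro g ⟨hg1, hg2⟩
    have h1 : χ (Additive.ofMul g⁻¹) = 0 := by rw [Glue3.char_inv, hg1, neg_zero]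
    refine ⟨h1, ?_⟩
    have e : g⁻¹ * b * g⁻¹⁻¹ * b⁻¹ = g⁻¹ * (g * b * g⁻¹ * b⁻¹)⁻¹ * g⁻¹⁻¹ := by group
    rw [e]
    exact hWs _ h1 _ (W.inv_mem hg2)

end One

open Pool.Agent.Work.MP_e9e200_al.SP.One in
theorem I_One (hf : StFin) (hy : StYg) (hq : StQuot3) (hs : StSig1) (hc : StChr) : StOne := by
  intro G _ _ hmet χ hχ hint t ht
  have hconj : ∀ (a g : G), a ∈ commutator G → g * a * g⁻¹ ∈ commutator G := fun a g ha =>
    (inferInstance : (commutator G).Normal).conj_mem a ha g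
  obtain ⟨V0, hV0, hYV⟩ := hy G hmet χ hχ.1
  obtain ⟨V, hVV, hV, M, _, y, hy1, hy2, hy3, -⟩ := hq G hmet χ hχ.1 V0 hV0
  have hdie : ∀ a ∈ commutator G, ∃ N0 : ℕ, ∀ N ≥ N0, t ^ N * a * (t ^ N)⁻¹ ∈ Gen G χ V := by
    intro a ha
    obtain ⟨N0, hN0⟩ := hy3 t ht a ha
    exact ⟨N0, fun N hN => (hy2 _ (hconj a _ ha)).1 (hN0 N hN)⟩
  have hne : ∃ a ∈ commutator G, a ∉ Gen G χ V := by
    by_contra hcon
    push Not at hcon
    exact hχ.2 (hs G hmet χ hχ.1 V hV hcon)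
  obtain ⟨W, b, q, hW1, hW2, hW3, hb1, hb2, hq1, hq2⟩ := hf G hmet χ hint V hV t ht hne
    (fun a ha => by
      obtain ⟨N0, hN0⟩ := hdie a ha
      exact ⟨N0, hN0 N0 le_rfl⟩)
  obtain ⟨M', _, y', hy'1, hy'2⟩ := quot hmet W
  obtain ⟨Y, hY1, hY2⟩ := hYV M' y' hy'1 (by
    intro g hg v hv
    rw [hy'2 _ (hconj v g (hV0 v hv))]
    exact hW1 (Subgroup.subset_closure ⟨g, v, hg, hVV hv, rfl⟩))
  obtain ⟨c, hc1, hc2, hc3⟩ := hc M' (y' b) (fun h => hb2 ((hy'2 b hb1).1 h))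
  have hc0 : c 0 = 1 := by
    have h := hc1 0 0
    rw [add_zero] at h
    exact (mul_eq_left₀ (hc2 0)).1 h.symm
  have hW0 : ∀ a ∈ W, c (y' a) = 1 := by
    intro a ha
    rw [(hy'2 a (hW2 ha)).2 ha, hc0]
  refine ⟨Gen G χ V, fun a => c (y' a), fun x => c (Y x), b, q, ?_, hdie, ?_, ?_, ?_, ?_, ?_, hb1,
    hc3, hq1, ?_⟩
  · intro g hg a ha
    exact Glue3.gen_conj hg ha
  · intro a ha
    exact hW0 a (hW1 ha)
  · intro a ha a' ha'
    show c (y' (a * a')) = _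
    rw [hy'1 a ha a' ha', hc1]
  · intro a ha x
    show c (Y (a * x)) = _
    rw [hY1 a ha x, hc1]
  · intro g
    obtain ⟨C, hC⟩ := hY2 g
    exact ⟨C, fun x hx => congrArg c (hC x hx)⟩
  · intro x
    exact hc2 _
  · intro g hg
    have h1 : g ∈ fixer χ W hW3 b := by
      refine (Subgroup.closure_le _).2 ?_ hg
      rintro h ⟨h', h1, rfl⟩
      refine ⟨?_, hq2 h' h1⟩
      rw [Glue3.char_pow, h1, mul_zero]
    have h2 : g * b * g⁻¹ * b⁻¹ ∈ W := h1.2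
    show c (y' (g * b * g⁻¹)) = c (y' b)
    have e : g * b * g⁻¹ = (g * b * g⁻¹ * b⁻¹) * b := by group
    rw [e, hy'1 _ (hW2 h2) b hb1, hc1, hW0 _ h2, one_mul]

end Pool.Agent.Work.MP_e9e200_al.SP
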