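import Pool.Agent.Work.MP_e9e200_al.Bd.B11

set_option autoImplicit false

namespace Pool.Agent.Work.MP_e9e200_al.SP

namespace Pos

section

variable {G : Type} [Group G]

/-- the product of the powers -/
def pw (t : ℕ → G) (m : ℕ) (y : Pt) : G := ((List.range m).map (fun j => t j ^ y j)).prod

theorem pw_succ (t : ℕ → G) (m : ℕ) (y : Pt) : pw t (m + 1) y = pw t m y * t m ^ y m := by
  unfold pw
  rw [List.range_succ, List.map_append, List.prod_append]
  simp

theorem pw_comm (t : ℕ → G) (ht : ∀ i j, t i * t j = t j * t i) (y : Pt) (j : ℕ) :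
    ∀ m, t j * pw t m y = pw t m y * t j
  | 0 => by simp [pw]
  | m + 1 => by
    rw [pw_succ, ← mul_assoc, pw_comm t ht y j m, mul_assoc, mul_assoc]
    congr 1
    exact ((show Commute (t j) (t m) from ht j m).pow_right (y m)).eq

theorem pw_update_ge (t : ℕ → G) (y : Pt) (j r : ℕ) :
    ∀ m, m ≤ j → pw t m (Function.update y j r) = pw t m y
  | 0, _ => rfl
  | m + 1, h => by
    rw [pw_succ, pw_succ, pw_update_ge t y j r m (by omega),
      Function.update_of_ne (by omega)]

theorem pw_update (t : ℕ → G) (ht : ∀ i j, t i * t j = t j * t i) (y : Pt) (j : ℕ) :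
    ∀ m, j < m → pw t m (Function.update y j (y j + 1)) = pw t m y * t j
  | 0, h => absurd h (Nat.not_lt_zero j)
  | m + 1, h => by
    rw [pw_succ, pw_succ]
    rcases Nat.lt_succ_iff_lt_or_eq.1 h with h1 | rfl
    · rw [pw_update t ht y j m h1, Function.update_of_ne (by omega), mul_assoc, mul_assoc]
      congr 1
      exact ((show Commute (t j) (t m) from ht j m).pow_right (y m)).eq
    · rw [pw_update_ge t y j _ j le_rfl, Function.update_self, pow_succ, mul_assoc]

theorem chi_pow (χ : G → ℝ) (h : ∀ x g, χ (x * g) = χ x + χ g) (g : G) :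
    ∀ n : ℕ, χ (g ^ n) = n * χ g
  | 0 => by
    have := h 1 1
    rw [mul_one] at this
    rw [pow_zero, Nat.cast_zero, zero_mul]
    linarith
  | n + 1 => by
    rw [pow_succ, h, chi_pow χ h g n]
    push_cast
    ring

theorem chi_pw (χ : G → ℝ) (h : ∀ x g, χ (x * g) = χ x + χ g) (t : ℕ → G) (y : Pt) :
    ∀ m, χ (pw t m y) = ∑ j ∈ Finset.range m, (y j : ℝ) * χ (t j)
  | 0 => by
    have := chi_pow χ h (1 : G) 0
    simpa [pw] using this
  | m + 1 => by
    rw [pw_succ, h, chi_pw χ h t y m, chi_pow χ h, Finset.sum_range_succ]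

end

end Pos

open Pos in
theorem I_Pos : StPos := by
  intro G _ t x0 m ht
  have hpos : ∀ y, pos t x0 m y = x0 * pw t m y := fun y => rfl
  have h1 : ∀ j < m, ∀ y : Pt, pos t x0 m (Function.update y j (y j + 1)) =
      pos t x0 m y * t j := by
    intro j hj y
    rw [hpos, hpos, pw_update t ht y j m hj, mul_assoc]
  refine ⟨h1, ?_, ?_⟩
  · intro χ h y
    rw [hpos, h, chi_pw χ h]
  · intro A _ k _ ψ
    refine ⟨?_, ?_⟩
    · intro i j a
      apply Subtype.ext
      show (t i)⁻¹ * ((t j)⁻¹ * a * t j) * t i = (t j)⁻¹ * ((t i)⁻¹ * a * t i) * t j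
      have e := ht i j
      have e' : (t i)⁻¹ * (t j)⁻¹ = (t j)⁻¹ * (t i)⁻¹ := by
        rw [← mul_inv_rev, ← mul_inv_rev, e]
      calc (t i)⁻¹ * ((t j)⁻¹ * a * t j) * t i = ((t i)⁻¹ * (t j)⁻¹) * a * (t j * t i) := by
            group
        _ = ((t j)⁻¹ * (t i)⁻¹) * a * (t i * t j) := by rw [e', e]
        _ = _ := by group
    · intro j hj a y
      unfold PsiA
      refine Finset.prod_congr rfl fun i _ => ?_
      rw [h1 j hj y]
      congr 1
      show pos t x0 m y * t j * ((t j)⁻¹ * a * t j) * (pos t x0 m y * t j)⁻¹ = _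
      group

end Pool.Agent.Work.MP_e9e200_al.SP
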