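import Pool.Agent.Work.MP_e9e200_al.Bd.B11

/-!
# The pairing only depends on the basis elements which occur
-/

set_option autoImplicit false

namespace Pool.Agent.Work.MP_e9e200_al.SP

namespace Pr

variable {L k : Type} [Field k]

theorem fin : ∀ (i : ℕ) (u : XX L k i), (suppX i u).Finite := by
  intro i
  induction i with
  | zero =>
    intro u
    have h : suppX 0 u ⊆ (fun l => (([] : List ℕ), l)) ''
        (((show List L →₀ (Pt → k) from u).support : Finset (List L)) : Set (List L)) := by
      rintro ⟨J, l⟩ ⟨h1, h2⟩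
      exact ⟨l, Finset.mem_coe.2 (Finsupp.mem_support_iff.2 h2), by rw [← h1]⟩
    exact Set.Finite.subset (Set.Finite.image _ (Finset.finite_toSet _)) h
  | succ i ih =>
    intro u
    exact (ih _).union ((ih _).image _)

theorem deg : ∀ (i : ℕ) (u : XX L k i) (n : ℤ), HX i n u → ∀ p ∈ suppX i u,
    ((p.1.length + p.2.length : ℕ) : ℤ) = n := by
  intro i
  induction i with
  | zero =>
    intro u n h p hp
    obtain ⟨h1, h2⟩ := hp
    have h3 := h p.2 h2
    rw [h1, List.length_nil, Nat.zero_add]
    exact h3
  | succ i ih =>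
    intro u n h p hp
    rcases hp with hp | ⟨q, hq, rfl⟩
    · exact ih _ n h.1 p hp
    · have h3 := ih _ (n - 1) h.2 q hq
      simp only [List.length_cons]
      push_cast at h3 ⊢
      linarith

theorem dir : ∀ (i : ℕ) (u : XX L k i), ∀ p ∈ suppX i u, ∀ j ∈ p.1, j < i := by
  intro i
  induction i with
  | zero =>
    intro u p hp j hj
    obtain ⟨h1, h2⟩ := hp
    rw [h1] at hj
    exact absurd hj List.not_mem_nil
  | succ i ih =>
    intro u p hp j hj
    rcases hp with hp | ⟨q, hq, rfl⟩
    · exact (ih _ p hp j hj).trans (Nat.lt_succ_self i)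
    · rcases List.mem_cons.1 hj with rfl | hj
      · exact Nat.lt_succ_self _
      · exact (ih _ q hq j hj).trans (Nat.lt_succ_self i)

theorem congr : ∀ (i : ℕ) (u : XX L k i) (Λ Λ' : (Pt → k) → k)
    (c c' : List ℕ → List L → Pt → k),
    (∀ p ∈ suppX i u, ∀ φ : Pt → k, Λ (fun y => φ y * c p.1 p.2 y) =
      Λ' (fun y => φ y * c' p.1 p.2 y)) → prX Λ i u c = prX Λ' i u c' := by
  intro i
  induction i with
  | zero =>
    intro u Λ Λ' c c' h
    change Finsupp.sum (show List L →₀ (Pt → k) from u) (fun l φ => Λ (fun y => φ y * c [] l y)) =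
      Finsupp.sum (show List L →₀ (Pt → k) from u) (fun l φ => Λ' (fun y => φ y * c' [] l y))
    apply Finset.sum_congr rfl
    intro l hl
    exact h ([], l) ⟨rfl, Finsupp.mem_support_iff.1 hl⟩ _
  | succ i ih =>
    intro u Λ Λ' c c' h
    change prX Λ i (show XX L k i × XX L k i from u).1 c +
      prX Λ i (show XX L k i × XX L k i from u).2 (fun J l => c (i :: J) l) =
      prX Λ' i (show XX L k i × XX L k i from u).1 c' +
      prX Λ' i (show XX L k i × XX L k i from u).2 (fun J l => c' (i :: J) l)
    rw [ih _ Λ Λ' c c' (fun p hp φ => h p (Or.inl hp) φ),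
      ih _ Λ Λ' (fun J l => c (i :: J) l) (fun J l => c' (i :: J) l)
        (fun p hp φ => h (i :: p.1, p.2) (Or.inr ⟨p, hp, rfl⟩) φ)]

theorem add (Λ : (Pt → k) → k) (hΛ : ∀ f g, Λ (f + g) = Λ f + Λ g) : ∀ (i : ℕ) (u : XX L k i)
    (c c' : List ℕ → List L → Pt → k), prX Λ i u (fun J l y => c J l y + c' J l y) =
      prX Λ i u c + prX Λ i u c' := by
  intro i
  induction i with
  | zero =>
    intro u c c'
    change Finsupp.sum (show List L →₀ (Pt → k) from u)
        (fun l φ => Λ (fun y => φ y * (c [] l y + c' [] l y))) =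
      Finsupp.sum (show List L →₀ (Pt → k) from u) (fun l φ => Λ (fun y => φ y * c [] l y)) +
      Finsupp.sum (show List L →₀ (Pt → k) from u) (fun l φ => Λ (fun y => φ y * c' [] l y))
    unfold Finsupp.sum
    rw [← Finset.sum_add_distrib]
    apply Finset.sum_congr rfl
    intro l _
    rw [← hΛ]
    apply congrArg Λ
    funext y
    exact mul_add _ _ _
  | succ i ih =>
    intro u c c'
    have e1 := ih (show XX L k i × XX L k i from u).1 c c'
    have e2 := ih (show XX L k i × XX L k i from u).2 (fun J l => c (i :: J) l)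
      (fun J l => c' (i :: J) l)
    change prX Λ i (show XX L k i × XX L k i from u).1 (fun J l y => c J l y + c' J l y) +
      prX Λ i (show XX L k i × XX L k i from u).2
        (fun J l y => c (i :: J) l y + c' (i :: J) l y) =
      (prX Λ i (show XX L k i × XX L k i from u).1 c +
      prX Λ i (show XX L k i × XX L k i from u).2 (fun J l => c (i :: J) l)) +
      (prX Λ i (show XX L k i × XX L k i from u).1 c' +
      prX Λ i (show XX L k i × XX L k i from u).2 (fun J l => c' (i :: J) l))
    rw [e1, e2]
    exact add_add_add_comm _ _ _ _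

theorem smul (Λ : (Pt → k) → k) (hΛ : ∀ (a : k) f, Λ (fun y => a * f y) = a * Λ f) :
    ∀ (i : ℕ) (u : XX L k i) (a : k) (c : List ℕ → List L → Pt → k),
    prX Λ i u (fun J l y => a * c J l y) = a * prX Λ i u c := by
  intro i
  induction i with
  | zero =>
    intro u a c
    change Finsupp.sum (show List L →₀ (Pt → k) from u)
        (fun l φ => Λ (fun y => φ y * (a * c [] l y))) =
      a * Finsupp.sum (show List L →₀ (Pt → k) from u) (fun l φ => Λ (fun y => φ y * c [] l y))
    unfold Finsupp.sum
    rw [Finset.mul_sum]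
    apply Finset.sum_congr rfl
    intro l _
    rw [← hΛ]
    apply congrArg Λ
    funext y
    exact mul_left_comm _ _ _
  | succ i ih =>
    intro u a c
    have e1 := ih (show XX L k i × XX L k i from u).1 a c
    have e2 := ih (show XX L k i × XX L k i from u).2 a (fun J l => c (i :: J) l)
    change prX Λ i (show XX L k i × XX L k i from u).1 (fun J l y => a * c J l y) +
      prX Λ i (show XX L k i × XX L k i from u).2 (fun J l y => a * c (i :: J) l y) =
      a * (prX Λ i (show XX L k i × XX L k i from u).1 c +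
      prX Λ i (show XX L k i × XX L k i from u).2 (fun J l => c (i :: J) l))
    rw [e1, e2, mul_add]

end Pr

theorem I_Pr : StPr := by
  intro L k _ i u
  exact ⟨Pr.fin i u, Pr.deg i u, Pr.dir i u, Pr.congr i u,
    fun Λ h1 h2 => ⟨Pr.add Λ h1 i u, Pr.smul Λ h2 i u⟩⟩

end Pool.Agent.Work.MP_e9e200_al.SP
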