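import Pool.Agent.Work.MP_e9e200_al.Bd.B11

/-! Item F5: the iterated twisted lifts. -/

set_option autoImplicit false

namespace Pool.Agent.Work.MP_e9e200_al.SP

open Pool.Agent.Work.MP_e9e200_al

namespace Rec

variable {G k : Type} [Group G] [Field k]

/-- `JA` as an additive group -/
def JG (A : Subgroup G) (χ : ℕ → G → ℝ) (ψ : ℕ → G → k) (n : ℕ) : AddSubgroup (G → k) where
  carrier := JA A χ ψ n
  zero_mem' := ⟨fun a _ x => by simp, 0, fun x _ => rfl⟩
  add_mem' := by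
    rintro f g ⟨hf, C, hC⟩ ⟨hg, D, hD⟩
    refine ⟨fun a ha x => ?_, max C D, fun x hx => ?_⟩
    · rw [Pi.add_apply, Pi.add_apply, hf a ha x, hg a ha x, mul_add]
    · obtain ⟨i, hi, h⟩ := hx
      rw [Pi.add_apply, hC x ⟨i, hi, (le_max_left _ _).trans h⟩,
        hD x ⟨i, hi, (le_max_right _ _).trans h⟩, add_zero]
  neg_mem' := by
    rintro f ⟨hf, C, hC⟩
    refine ⟨fun a ha x => ?_, C, fun x hx => ?_⟩
    · rw [Pi.neg_apply, Pi.neg_apply, hf a ha x, mul_neg]
    · rw [Pi.neg_apply, hC x hx, neg_zero]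

theorem mem_JG (A : Subgroup G) (χ : ℕ → G → ℝ) (ψ : ℕ → G → k) (n : ℕ) (f : G → k) :
    f ∈ JG A χ ψ n ↔ f ∈ JA A χ ψ n := Iff.rfl

theorem step_mem (A : Subgroup G) (m : ℕ) (χ : ℕ → G → ℝ) (ψ f : ℕ → G → k)
    (hχ : ∀ i < m, ∀ x g, χ i (x * g) = χ i x + χ i g)
    (hψ : ∀ i < m, ∀ a ∈ A, ∀ x, f i (a * x) = ψ i a * f i x)
    (hf : ∀ i < m, ∀ g, ∃ C : ℝ, ∀ x, C ≤ χ i x → f i (x * g) = f i x) (j : ℕ) (hj : j < m)
    (s : G) (v : G → k) (hv : v ∈ JA A χ ψ j) :
    (fun x => (f j (x * s) - f j x) * v (x * s)) ∈ JA A χ ψ (j + 1) := by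
  obtain ⟨h1, C, hC⟩ := hv
  obtain ⟨D, hD⟩ := hf j hj s
  refine ⟨fun a ha x => ?_, max D (C + ∑ i ∈ Finset.range j, |χ i s|), fun x hx => ?_⟩
  · show (f j (a * x * s) - f j (a * x)) * v (a * x * s) =
      (∏ i ∈ Finset.range (j + 1), ψ i a) * ((f j (x * s) - f j x) * v (x * s))
    rw [mul_assoc a x s, hψ j hj a ha, hψ j hj a ha, h1 a ha, Finset.prod_range_succ]
    ring
  · obtain ⟨i, hi, h⟩ := hx
    show (f j (x * s) - f j x) * v (x * s) = 0
    rcases Nat.lt_succ_iff_lt_or_eq.mp hi with hi' | rfl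
    · have e1 : |χ i s| ≤ ∑ i ∈ Finset.range j, |χ i s| :=
        Finset.single_le_sum (f := fun i => |χ i s|) (fun i _ => abs_nonneg _)
          (Finset.mem_range.mpr hi')
      have e2 : C + ∑ i ∈ Finset.range j, |χ i s| ≤ χ i x := (le_max_right _ _).trans h
      have e3 : -|χ i s| ≤ χ i s := neg_abs_le _
      rw [hC (x * s) ⟨i, hi', by rw [hχ i (hi'.trans hj)]; linarith⟩, mul_zero]
    · rw [hD x ((le_max_left _ _).trans h), sub_self, zero_mul]

theorem of_smul_triv {S : Type} [Monoid S] (s : S) (z : Triv S) :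
    MonoidAlgebra.of ℤ S s • z = z := by
  show (aug S (MonoidAlgebra.of ℤ S s)) * (show ℤ from z) = z
  have e : aug S (MonoidAlgebra.of ℤ S s) = 1 := by simp [aug]
  rw [e, one_mul]

/-- the first cochain -/
noncomputable def V0 {S P : Type} [Monoid S] [AddCommGroup P] [Module (MonoidAlgebra ℤ S) P]
    (G k : Type) [Field k] (ε : P →ₗ[MonoidAlgebra ℤ S] Triv S) : P →+ (G → k) :=
  AddMonoidHom.mk' (fun p _ => (((show ℤ from ε p) : ℤ) : k)) (fun a b => by
    funext x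
    show ((show ℤ from ε (a + b) : ℤ) : k) = ((show ℤ from ε a : ℤ) : k) +
      ((show ℤ from ε b : ℤ) : k)
    rw [map_add, ← Int.cast_add]
    rfl)

end Rec

open Rec in
theorem I_Rec (h : StTwist) : StRec := by
  intro G _ A _ S k _ m χ ψ f hχ hψ hf P d ε hres
  obtain ⟨hproj, hsurj, hex0, hex⟩ := hres
  let Good : ∀ j, (P j →+ (G → k)) → Prop := fun j V =>
    (∀ (s : S) (p : P j) (x : G), V (MonoidAlgebra.of ℤ S s • p) x = V p (x * s)) ∧
    (∀ p, V p ∈ JA A χ ψ j) ∧ ∀ p, V (d j p) = 0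
  let T : ℕ → Type := fun j => {V : P j →+ (G → k) // j ≤ m → Good j V}
  have hstep : ∀ j (V : T j), ∃ U : P j →+ (G → k), j < m →
      (∀ (s : S) (p : P j) (x : G), U (MonoidAlgebra.of ℤ S s • p) x =
        U p (x * s) + (f j (x * s) - f j x) * V.1 p (x * s)) ∧ ∀ p, U p ∈ JA A χ ψ (j + 1) := by
    intro j V
    by_cases hj : j < m
    · obtain ⟨hV1, hV2, hV3⟩ := V.2 hj.le
      obtain ⟨u, hu1, hu2⟩ := h S (P j) (hproj j) V.1 (fun s x => f j (x * s) - f j x)
        (JG A χ ψ (j + 1)) hV1 (fun s t x => by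
          show f j (x * ((s * t : S) : G)) - f j x =
            (f j (x * s) - f j x) + (f j (x * s * t) - f j (x * s))
          rw [Submonoid.coe_mul, ← mul_assoc]
          ring)
        (fun s p => step_mem A m χ ψ f hχ hψ hf j hj s _ (hV2 p))
      exact ⟨u, fun _ => ⟨hu1, hu2⟩⟩
    · exact ⟨0, fun h' => absurd h' hj⟩
  choose Us hUs using hstep
  let v0 : T 0 := ⟨V0 G k ε, fun _ => ⟨fun s p x => by
      show (((show ℤ from ε (MonoidAlgebra.of ℤ S s • p)) : ℤ) : k) =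
        (((show ℤ from ε p) : ℤ) : k)
      rw [map_smul, of_smul_triv], fun p => ⟨fun a ha x => by
        show (((show ℤ from ε p) : ℤ) : k) = _ * (((show ℤ from ε p) : ℤ) : k)
        simp, 0, fun x hx => by
          obtain ⟨i, hi, _⟩ := hx
          exact absurd hi (Nat.not_lt_zero i)⟩, fun p => by
        funext x
        show (((show ℤ from ε (d 0 p)) : ℤ) : k) = 0
        have e : ε (d 0 p) = 0 := (hex0 (d 0 p)).2 ⟨p, rfl⟩
        rw [e]
        exact Int.cast_zero⟩⟩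
  let vs : ∀ j, T j → T (j + 1) := fun j V =>
    ⟨(Us j V).comp (d j).toAddMonoidHom, fun hj => by
      obtain ⟨hV1, hV2, hV3⟩ := V.2 (by omega)
      obtain ⟨hU1, hU2⟩ := hUs j V (by omega)
      refine ⟨fun s p x => ?_, fun p => hU2 _, fun p => ?_⟩
      · show Us j V (d j (MonoidAlgebra.of ℤ S s • p)) x = Us j V (d j p) (x * s)
        rw [map_smul, hU1, hV3]
        simp
      · show Us j V (d j (d (j + 1) p)) = 0
        have e : d j (d (j + 1) p) = 0 := (hex j (d (j + 1) p)).2 ⟨p, rfl⟩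
        rw [e, map_zero]⟩
  let V : ∀ j, T j := fun j => Nat.rec v0 vs j
  refine ⟨fun j => Us j (V j), fun j => (V j).1, fun p x => rfl, fun j hj => (hUs j (V j) hj).1,
    fun j hj => (hUs j (V j) hj).2, fun j hj p => rfl, fun j hj => ((V j).2 hj).1,
    fun j hj => ((V j).2 hj).2.1, fun j hj => ((V j).2 hj).2.2⟩

end Pool.Agent.Work.MP_e9e200_al.SP
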