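import Pool.Agent.Work.MP_e9e200_al.Bd.B11

/-!
# The shift and its transpose
-/

set_option autoImplicit false

namespace Pool.Agent.Work.MP_e9e200_al.SP

namespace ShiftB

/-- The sum over a box of a function which vanishes there is zero. -/
theorem sum_zero (h : StBox) {k : Type} [Field k] (i N : ℕ) (n : Pt) (f : Pt → k)
    (hf : ∀ y : Pt, (∀ j < i, y j < N) → (∀ j ≥ i, y j = n j) → f y = 0) :
    sumB i N n f = 0 := by
  obtain ⟨h1, -, h3, -, -⟩ := h k i N n
  have e1 : sumB i N n f = sumB i N n (fun y => (0 : k) * f y) := by
    apply h1
    intro y hy hy2
    rw [hf y hy hy2, mul_zero]
  rw [e1, h3, zero_mul]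

end ShiftB

theorem I_ShiftB (h : StBox) : StShiftB := by
  intro k _ i
  induction i with
  | zero =>
    intro N n j φ g hj
    exact absurd hj (Nat.not_lt_zero _)
  | succ i ih =>
    intro N n j φ g hj hg
    rcases Nat.lt_succ_iff_lt_or_eq.mp hj with hji | hji
    · change ∑ r ∈ Finset.range N, _ = ∑ r ∈ Finset.range N, _
      apply Finset.sum_congr rfl
      intro r _
      exact ih N _ j φ g hji hg
    · subst hji
      have hstep : ∀ r, sumB j N (Function.update n j (r + 1)) (fun y => shiftY j φ y * g y) =
          sumB j N (Function.update n j r) (fun y => φ y * upY j g y) := by
        intro r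
        have e1 : sumB j N (Function.update n j (r + 1)) (fun y => shiftY j φ y * g y) =
            sumB j N (Function.update n j (r + 1))
              (fun y => φ (Function.update y j r) * g (Function.update y j (r + 1))) := by
          apply (h k j N (Function.update n j (r + 1))).1
          intro y _ hy2
          have hyj : y j = r + 1 := by
            rw [hy2 j le_rfl, Function.update_self]
          have hup : Function.update y j (r + 1) = y := by
            rw [← hyj, Function.update_eq_self]
          have hsh : shiftY j φ y = φ (Function.update y j r) := by
            unfold shiftY
            rw [if_neg (by omega), hyj, Nat.add_sub_cancel]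
          rw [hup, hsh]
        rw [e1, (h k j N n).2.2.2.2 r (r + 1)]
        apply (h k j N (Function.update n j r)).1
        intro y _ hy2
        have hyj : y j = r := by
          rw [hy2 j le_rfl, Function.update_self]
        have hup : Function.update y j r = y := by
          rw [← hyj, Function.update_eq_self]
        simp only [Function.update_idem]
        rw [hup]
        unfold upY
        rw [hyj]
      have h0 : sumB j N (Function.update n j 0) (fun y => shiftY j φ y * g y) = 0 := by
        apply ShiftB.sum_zero h
        intro y _ hy2
        have hyj : y j = 0 := by
          rw [hy2 j le_rfl, Function.update_self]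
        unfold shiftY
        rw [if_pos hyj, zero_mul]
      change ∑ r ∈ Finset.range N, sumB j N (Function.update n j r)
          (fun y => shiftY j φ y * g y) =
        ∑ r ∈ Finset.range N, sumB j N (Function.update n j r) (fun y => φ y * upY j g y)
      cases N with
      | zero => simp
      | succ M =>
        rw [Finset.sum_range_succ', Finset.sum_range_succ, h0]
        have hlast : sumB j (M + 1) (Function.update n j M) (fun y => φ y * upY j g y) = 0 := by
          apply ShiftB.sum_zero h
          intro y _ hy2
          have hyj : y j = M := by
            rw [hy2 j le_rfl, Function.update_self]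
          unfold upY
          rw [hg _ (by rw [Function.update_self, hyj]), mul_zero]
        rw [hlast]
        congr 1
        apply Finset.sum_congr rfl
        intro r _
        exact hstep r

end Pool.Agent.Work.MP_e9e200_al.SP
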