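import Pool.Agent.Work.MP_e9e200_al.Bd.B11

/-!
# Item B1: the boundary of families indexed by cubes has square zero
-/

set_option autoImplicit false

namespace Pool.Agent.Work.MP_e9e200_al.SP

namespace Sq

section

variable {L W : Type} [AddCommGroup W] {α : L → W → W} {θ : ℕ → W → W} {cj : ℕ → L → L}

theorem map_zero' {F : W → W} (hF : ∀ x y, F (x - y) = F x - F y) : F 0 = 0 := by
  have h := hF 0 0
  rwa [sub_self, sub_self] at h

theorem bdA_sub (hα : ∀ a x y, α a (x - y) = α a x - α a y) (l : List L) :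
    ∀ c c' : List L → W, bdA α l (fun l' => c l' - c' l') = bdA α l c - bdA α l c' := by
  induction l with
  | nil => intro c c'; simp [bdA]
  | cons a l ih =>
    intro c c'
    simp only [bdA]
    rw [hα, ih (fun l' => c (a :: l')) (fun l' => c' (a :: l'))]
    abel

theorem bdA_alpha (hα : ∀ a x y, α a (x - y) = α a x - α a y)
    (hαα : ∀ a b x, α a (α b x) = α b (α a x)) (a : L) (l : List L) :
    ∀ c : List L → W, bdA α l (fun l' => α a (c l')) = α a (bdA α l c) := by
  induction l with
  | nil => intro c; simp only [bdA]; exact (map_zero' (hα a)).symm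
  | cons b l ih =>
    intro c
    simp only [bdA]
    rw [ih (fun l' => c (b :: l')), hα, hα, hαα b a]

theorem bdA_theta (hα : ∀ a x y, α a (x - y) = α a x - α a y)
    (hθ : ∀ j x y, θ j (x - y) = θ j x - θ j y)
    (hαθ : ∀ a j x, α a (θ j x) = θ j (α (cj j a) x)) (j : ℕ) (l : List L) :
    ∀ c : List L → W, bdA α l (fun l' => θ j (c (l'.map (cj j)))) =
      θ j (bdA α (l.map (cj j)) c) := by
  induction l with
  | nil => intro c; simp only [bdA, List.map_nil]; exact (map_zero' (hθ j)).symm
  | cons b l ih =>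
    intro c
    simp only [bdA, List.map_cons]
    rw [ih (fun l' => c (cj j b :: l')), hθ, hθ, hαθ]

theorem bdA_sq (hα : ∀ a x y, α a (x - y) = α a x - α a y)
    (hαα : ∀ a b x, α a (α b x) = α b (α a x)) (l : List L) :
    ∀ c : List L → W, bdA α l (fun l' => bdA α l' c) = 0 := by
  induction l with
  | nil => intro c; simp only [bdA]
  | cons a l ih =>
    intro c
    simp only [bdA]
    rw [bdA_sub hα l (fun l' => α a (c l') - c l') (fun l' => bdA α l' (fun l'' => c (a :: l''))),
      bdA_sub hα l (fun l' => α a (c l')) (fun l' => c l'), bdA_alpha hα hαα,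
      ih (fun l'' => c (a :: l''))]
    abel

theorem bd_sub (hα : ∀ a x y, α a (x - y) = α a x - α a y)
    (hθ : ∀ j x y, θ j (x - y) = θ j x - θ j y) (J : List ℕ) :
    ∀ (l : List L) (c c' : List ℕ → List L → W),
      bd α θ cj J l (fun J' l' => c J' l' - c' J' l') = bd α θ cj J l c - bd α θ cj J l c' := by
  induction J with
  | nil => intro l c c'; simp only [bd]; exact bdA_sub hα l (c []) (c' [])
  | cons j J ih =>
    intro l c c'
    simp only [bd]
    rw [hθ, ih l (fun J' l' => c (j :: J') l') (fun J' l' => c' (j :: J') l')]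
    abel

theorem bd_theta (hα : ∀ a x y, α a (x - y) = α a x - α a y)
    (hθ : ∀ j x y, θ j (x - y) = θ j x - θ j y) (hθθ : ∀ i j x, θ i (θ j x) = θ j (θ i x))
    (hαθ : ∀ a j x, α a (θ j x) = θ j (α (cj j a) x))
    (hcj : ∀ i j a, cj i (cj j a) = cj j (cj i a)) (j : ℕ) (J : List ℕ) :
    ∀ (l : List L) (c : List ℕ → List L → W),
      bd α θ cj J l (fun J' l' => θ j (c J' (l'.map (cj j)))) =
        θ j (bd α θ cj J (l.map (cj j)) c) := by
  induction J with
  | nil => intro l c; simp only [bd]; exact bdA_theta hα hθ hαθ j l (c [])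
  | cons i J ih =>
    intro l c
    simp only [bd]
    have hm : (l.map (cj i)).map (cj j) = (l.map (cj j)).map (cj i) := by
      rw [List.map_map, List.map_map]
      exact List.map_congr_left fun a _ => hcj j i a
    rw [ih l (fun J' l' => c (i :: J') l'), hθ, hθ, hm, hθθ i j]

theorem bd_sq (hα : ∀ a x y, α a (x - y) = α a x - α a y)
    (hθ : ∀ j x y, θ j (x - y) = θ j x - θ j y) (hαα : ∀ a b x, α a (α b x) = α b (α a x))
    (hθθ : ∀ i j x, θ i (θ j x) = θ j (θ i x))
    (hαθ : ∀ a j x, α a (θ j x) = θ j (α (cj j a) x))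
    (hcj : ∀ i j a, cj i (cj j a) = cj j (cj i a)) (J : List ℕ) :
    ∀ (l : List L) (c : List ℕ → List L → W),
      bd α θ cj J l (fun J' l' => bd α θ cj J' l' c) = 0 := by
  induction J with
  | nil => intro l c; simp only [bd]; exact bdA_sq hα hαα l (c [])
  | cons j J ih =>
    intro l c
    simp only [bd]
    rw [bd_sub hα hθ J l (fun J' l' => c J' l' - θ j (c J' (l'.map (cj j))))
        (fun J' l' => bd α θ cj J' l' (fun J'' l'' => c (j :: J'') l'')),
      bd_sub hα hθ J l (fun J' l' => c J' l') (fun J' l' => θ j (c J' (l'.map (cj j)))),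
      bd_theta hα hθ hθθ hαθ hcj, ih l (fun J'' l'' => c (j :: J'') l'')]
    abel

end

end Sq

open Sq in
theorem I_Sq : StSq := by
  intro L W _ α θ cj hα hθ hαα hθθ hαθ hcj
  exact ⟨fun j J l c => bd_theta hα hθ hθθ hαθ hcj j J l c,
    fun J l c => bd_sq hα hθ hαα hθθ hαθ hcj J l c⟩

end Pool.Agent.Work.MP_e9e200_al.SP
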