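import Pool.Agent.Work.MP_e9e200_al.Bd.B11

/-!
# Sigma invariants of split metabelian groups: one step of the evaluation
-/

set_option autoImplicit false

namespace Pool.Agent.Work.MP_e9e200_al.SP

open Pool.Agent.Work.MP_e9e200_al Filter

namespace Step

theorem prX_zero {L k : Type} [Field k] (Λ : (Pt → k) → k) :
    ∀ (i : ℕ) (c : List ℕ → List L → Pt → k), prX Λ i (0 : XX L k i) c = 0
  | 0, c => by
    show Finsupp.sum (0 : List L →₀ (Pt → k)) (fun l φ => Λ (fun y => φ y * c [] l y)) = 0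
    exact Finsupp.sum_zero_index
  | i + 1, c => by
    show prX Λ i (0 : XX L k i) c + prX Λ i (0 : XX L k i) (fun J l => c (i :: J) l) = 0
    rw [prX_zero Λ i, prX_zero Λ i, add_zero]

theorem ev {a b C : ℝ} (hb : 0 < b) : ∀ᶠ N : ℕ in atTop, C ≤ a + N * b := by
  have h : Tendsto (fun N : ℕ => a + (N : ℝ) * b) atTop atTop :=
    tendsto_atTop_add_const_left _ _ (tendsto_natCast_atTop_atTop.atTop_mul_const hb)
  exact h.eventually_ge_atTop C

theorem evP {G : Type} {χ : G → ℝ} {P : G → Prop} {a b : ℝ} (hb : 0 < b)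
    (h : ∃ C : ℝ, ∀ x, C ≤ χ x → P x) :
    ∀ᶠ N : ℕ in atTop, ∀ x, a + N * b ≤ χ x → P x := by
  obtain ⟨C, hC⟩ := h
  filter_upwards [ev (a := a) (C := C) hb] with N hN x hx
  exact hC x (hN.trans hx)

section

variable {G k : Type} [Group G] [Field k]

theorem pos_update (hp : StPos) (t : ℕ → G) (x0 : G) (m : ℕ)
    (htc : ∀ i j, t i * t j = t j * t i) {i : ℕ} (hi : i < m) (y : Pt) (r : ℕ) :
    pos t x0 m (Function.update y i r) = pos t x0 m (Function.update y i 0) * t i ^ r := by
  induction r with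
  | zero => rw [pow_zero, mul_one]
  | succ r ih =>
    have h1 := (hp G t x0 m htc).1 i hi (Function.update y i r)
    rw [Function.update_self, Function.update_idem, ih, mul_assoc, ← pow_succ] at h1
    exact h1

omit [Field k] in
/-- a function does not change in the other directions -/
theorem const_f (hp : StPos) (t : ℕ → G) (x0 : G) (m : ℕ)
    (htc : ∀ i j, t i * t j = t j * t i) (χ : ℕ → G → ℝ)
    (hχ : ∀ i < m, ∀ x g, χ i (x * g) = χ i x + χ i g)
    (h0 : ∀ i < m, ∀ j < m, i ≠ j → χ i (t j) = 0) {i : ℕ} (hi : i < m) (F : G → k) (thr : ℝ)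
    (hF : ∀ j < m, ∀ x, thr ≤ χ i x → F (x * t j) = F x) (z : Pt)
    (hz : thr ≤ χ i x0 + z i * χ i (t i)) :
    F (pos t x0 m z) = F (x0 * t i ^ z i) := by
  have hone : χ i 1 = 0 := by
    have h := hχ i hi 1 1
    rw [mul_one] at h
    linarith
  have hpow : ∀ (j r : ℕ), χ i (t j ^ r) = r * χ i (t j) := by
    intro j r
    induction r with
    | zero => rw [pow_zero, hone]; simp
    | succ r ih => rw [pow_succ, hχ i hi, ih]; push_cast; ring
  obtain ⟨W, hW⟩ : ∃ W : G, W = ((List.range m).map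
    (fun j => t j ^ (Function.update z i 0 j))).prod := ⟨_, rfl⟩
  have hcomm : t i ^ z i * W = W * t i ^ z i := by
    rw [hW]
    apply Commute.list_prod_right
    intro y hy
    obtain ⟨j, -, rfl⟩ := List.mem_map.1 hy
    exact Commute.pow_pow (htc i j) _ _
  have hpos : pos t x0 m z = x0 * t i ^ z i * W := by
    have h1 := pos_update hp t x0 m htc hi z (z i)
    rw [Function.update_eq_self] at h1
    rw [h1, mul_assoc x0, hcomm, ← mul_assoc, hW]
    rfl
  have hP : (∀ x, thr ≤ χ i x → F (x * W) = F x) ∧ χ i W = 0 := by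
    rw [hW]
    refine List.prod_induction
      (fun w => (∀ x, thr ≤ χ i x → F (x * w) = F x) ∧ χ i w = 0) ?_ ?_ ?_
    · rintro a b ⟨ha1, ha2⟩ ⟨hb1, hb2⟩
      refine ⟨fun x hx => ?_, ?_⟩
      · rw [← mul_assoc, hb1 (x * a) (by rw [hχ i hi, ha2, add_zero]; exact hx), ha1 x hx]
      · rw [hχ i hi, ha2, hb2, add_zero]
    · exact ⟨fun x _ => by rw [mul_one], hone⟩
    · intro w hw
      obtain ⟨j, hj, rfl⟩ := List.mem_map.1 hw
      have hjm : j < m := List.mem_range.1 hj
      by_cases hji : j = i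
      · subst hji
        rw [Function.update_self, pow_zero]
        exact ⟨fun x _ => by rw [mul_one], hone⟩
      · have hz0 : χ i (t j) = 0 := h0 i hi j hjm (fun h => hji h.symm)
        refine ⟨fun x hx => ?_, by rw [hpow, hz0, mul_zero]⟩
        generalize Function.update z i 0 j = r
        induction r with
        | zero => rw [pow_zero, mul_one]
        | succ r ih =>
          rw [pow_succ, ← mul_assoc, hF j hjm, ih]
          rw [hχ i hi, hpow, hz0, mul_zero, add_zero]
          exact hx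
  rw [hpos]
  apply hP.1
  rw [hχ i hi, hpow]
  exact hz

end

end Step

open Step in
theorem I_Step (hc : StCmp) (hp : StPos) (hcut : StCut) (hb : StBox) (hpr : StPr)
    (hs : StShiftB) (ha : StAdj) : StStep := by
  intro G k _ _ A _ t x0 m χ ψ _ htc hχ h0 hpos hψ η hη i him f u v hsys
  obtain ⟨s1, s2, s3, s4, s5, s6, s7⟩ := hsys
  obtain ⟨e1, e2, e3, e4⟩ := hη
  have hii : i < i + 1 := Nat.lt_succ_self i
  obtain ⟨φ, hφ⟩ : ∃ φ : List ℕ → List A → G → k,
    φ = fun J l x => u i J l x + f i x * v i J l x := ⟨_, rfl⟩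
  have hfin := (hpr A k (i + 1) (η (i + 1))).1
  have hlen : ∀ p ∈ suppX (i + 1) (η (i + 1)), p.1.length + p.2.length = i + 1 := by
    intro p hp'
    have := (hpr A k (i + 1) (η (i + 1))).2.1 _ (e4 (i + 1) him) p hp'
    exact_mod_cast this
  have hface : ∀ p ∈ suppX (i + 1) (η (i + 1)), ∀ q ∈ faces (cjA A t) p.1 p.2,
      q.1.length + q.2.length = i := by
    intro p hp' q hq
    have h1 := hc.2 A (cjA A t) p.1 p.2 q hq
    have h2 := hlen p hp'
    omega
  -- equivariance
  have heq : ∀ J l, J.length + l.length = i → ∀ a ∈ A, ∀ x,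
      φ J l (a * x) = (∏ i' ∈ Finset.range (i + 1), ψ i' a) * φ J l x := by
    intro J l hJl a ha' x
    rw [hφ]
    show u i J l (a * x) + f i (a * x) * v i J l (a * x) =
      _ * (u i J l x + f i x * v i J l x)
    rw [(s6 i hii J l hJl).1 a ha' x, (s7 i hii.le J l hJl).1 a ha' x, s1 i hii a ha' x,
      Finset.prod_range_succ]
    ring
  -- the constants
  have E1 : ∀ᶠ N : ℕ in atTop, ∀ i' ∈ Finset.range m, ∀ p ∈ suppX (i + 1) (η (i + 1)),
      ∀ a ∈ {a : A | a ∈ p.2}, ∀ x, χ i' x0 + N * χ i' (t i') ≤ χ i' x →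
        ψ i' (x * a * x⁻¹) = 1 := by
    rw [eventually_all_finset]
    intro i' hi'
    rw [eventually_all_finite hfin]
    intro p _
    rw [eventually_all_finite (List.finite_toSet p.2)]
    intro a _
    exact evP (hpos i' (Finset.mem_range.1 hi')) (hψ i' (Finset.mem_range.1 hi') a a.2)
  have E2 : ∀ᶠ N : ℕ in atTop, ∀ p ∈ suppX (i + 1) (η (i + 1)),
      ∀ q ∈ {q : List ℕ × List A | q ∈ faces (cjA A t) p.1 p.2}, ∀ j ∈ Finset.range (i + 1),
      ∀ x, χ j x0 + N * χ j (t j) ≤ χ j x →
        u i q.1 q.2 x = 0 ∧ (j < i → v i q.1 q.2 x = 0) := by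
    rw [eventually_all_finite hfin]
    intro p hp'
    rw [eventually_all_finite (List.finite_toSet _)]
    intro q hq
    rw [eventually_all_finset]
    intro j hj
    have hj' : j < i + 1 := Finset.mem_range.1 hj
    have hql := hface p hp' q hq
    obtain ⟨C1, hC1⟩ := (s6 i hii q.1 q.2 hql).2
    obtain ⟨C2, hC2⟩ := (s7 i hii.le q.1 q.2 hql).2
    refine evP (hpos j (by omega)) ⟨max C1 C2, fun x hx => ⟨?_, fun hji => ?_⟩⟩
    · exact hC1 x ⟨j, hj', (le_max_left _ _).trans hx⟩
    · exact hC2 x ⟨j, hji, (le_max_right _ _).trans hx⟩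
  have E4 : ∀ᶠ N : ℕ in atTop, ∀ j ∈ Finset.range m, ∀ x,
      χ i x0 + N * χ i (t i) ≤ χ i x → f i (x * t j) = f i x := by
    rw [eventually_all_finset]
    intro j _
    exact evP (hpos i him) (s2 i hii (t j))
  obtain ⟨N0, F1, F2, F4, F5⟩ := (E1.and (E2.and (E4.and (eventually_ge_atTop 1)))).exists
  refine ⟨N0, fun N hN n hn => ?_⟩
  have hN1 : 1 ≤ N := F5.trans hN
  -- the values of the characters
  have hχpos : ∀ j < m, ∀ y : Pt, χ j (pos t x0 m y) = χ j x0 + y j * χ j (t j) := by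
    intro j hj y
    rw [(hp G t x0 m htc).2.1 (χ j) (hχ j hj) y, Finset.sum_eq_single j]
    · intro b hb' hbj
      rw [h0 j hj b (Finset.mem_range.1 hb') (fun h => hbj h.symm), mul_zero]
    · intro h
      exact absurd (Finset.mem_range.2 hj) h
  have hmono : ∀ j < m, ∀ r : ℕ, N0 ≤ r → χ j x0 + N0 * χ j (t j) ≤ χ j x0 + r * χ j (t j) := by
    intro j hj r hr
    have h1 : (N0 : ℝ) ≤ r := by exact_mod_cast hr
    have h2 := mul_le_mul_of_nonneg_right h1 (hpos j hj).le
    linarith
  -- vanishing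
  have A2 : ∀ p ∈ suppX (i + 1) (η (i + 1)), ∀ q ∈ faces (cjA A t) p.1 p.2, ∀ j < i,
      ∀ y' : Pt, y' j = N → φ q.1 q.2 (pos t x0 m y') = 0 := by
    intro p hp' q hq j hj y' hy'
    have h1 : χ j x0 + N0 * χ j (t j) ≤ χ j (pos t x0 m y') := by
      rw [hχpos j (by omega) y', hy']
      exact hmono j (by omega) N hN
    have h2 := F2 p hp' q hq j (Finset.mem_range.2 (by omega)) _ h1
    rw [hφ]
    show u i q.1 q.2 (pos t x0 m y') + f i (pos t x0 m y') * v i q.1 q.2 (pos t x0 m y') = 0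
    rw [h2.1, h2.2 hj, mul_zero, add_zero]
  -- equivariance at the points of the box
  have A1 : ∀ p ∈ suppX (i + 1) (η (i + 1)), ∀ q ∈ faces (cjA A t) p.1 p.2, ∀ a ∈ p.2,
      ∀ y : Pt, (∀ j ≥ i + 1, y j = n j) → φ q.1 q.2 (pos t x0 m y * a) =
        PsiA A t x0 m ψ a y * φ q.1 q.2 (pos t x0 m y) := by
    intro p hp' q hq a ha' y hy
    have h1 : pos t x0 m y * a = (pos t x0 m y * a * (pos t x0 m y)⁻¹) * pos t x0 m y := by
      group
    have h2 : pos t x0 m y * a * (pos t x0 m y)⁻¹ ∈ A :=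
      (inferInstance : A.Normal).conj_mem a a.2 (pos t x0 m y)
    rw [h1, heq q.1 q.2 (hface p hp' q hq) _ h2]
    congr 1
    unfold PsiA
    refine Finset.prod_subset (Finset.range_subset_range.2 (by omega)) ?_
    intro i' hi' hi2
    rw [Finset.mem_range] at hi'
    rw [Finset.mem_range, not_lt] at hi2
    refine F1 i' (Finset.mem_range.2 hi') p hp' a ha' _ ?_
    rw [hχpos i' hi' y, hy i' hi2]
    exact hmono i' hi' _ (hn i' hi2 hi')
  -- membership
  have hsub1 : ∀ p ∈ suppX i (show XX A k i × XX A k i from η (i + 1)).1,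
      p ∈ suppX (i + 1) (η (i + 1)) := fun p hp' => Or.inl hp'
  have hsub2 : ∀ p ∈ suppX i (η i), ((i :: p.1, p.2) : List ℕ × List A) ∈
      suppX (i + 1) (η (i + 1)) := by
    intro p hp'
    refine Or.inr ⟨p, ?_, rfl⟩
    rw [e2 i him]
    exact hp'
  -- the identity
  obtain ⟨Λ, hΛ⟩ : ∃ Λ : (Pt → k) → k, Λ = sumB (i + 1) N n := ⟨_, rfl⟩
  have hΛadd : ∀ f g, Λ (f + g) = Λ f + Λ g := by
    intro f g
    rw [hΛ]
    exact (hb k (i + 1) N n).2.1 f g
  have hΛmul : ∀ (a : k) f, Λ (fun y => a * f y) = a * Λ f := by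
    intro a f
    rw [hΛ]
    exact (hb k (i + 1) N n).2.2.1 a f
  have hbox : ∀ f g : Pt → k, (∀ y : Pt, (∀ j < i + 1, y j < N) → (∀ j ≥ i + 1, y j = n j) →
      f y = g y) → Λ f = Λ g := by
    intro f g hfg
    rw [hΛ]
    exact (hb k (i + 1) N n).1 f g hfg
  have hid := ha A k (PsiA A t x0 m ψ) (cjA A t) Λ hΛadd (i + 1) (η (i + 1))
    (cut t x0 m (i + 1) N φ) (by
      intro j hj φ' J l
      rw [hΛ]
      refine hs k (i + 1) N n j φ' (cut t x0 m (i + 1) N φ J l) hj ?_
      intro y hy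
      unfold cut
      exact if_neg fun h => absurd (h j hj) (not_lt.2 hy))
  rw [e3 (i + 1) him, prX_zero] at hid
  -- first component
  have hcase1 : prX Λ i (show XX A k i × XX A k i from η (i + 1)).1
      (fun J l => bd (fun a g y => PsiA A t x0 m ψ a y * g y) (fun j g => upY j g) (cjA A t) J l
        (cut t x0 m (i + 1) N φ)) =
      prX Λ i (show XX A k i × XX A k i from η (i + 1)).1
        (fun J l y => v (i + 1) J l (pos t x0 m y)) := by
    refine (hpr A k i _).2.2.2.1 Λ Λ _ _ fun p hp' φ' => hbox _ _ fun y hy1 hy2 => ?_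
    have hpX := hsub1 p hp'
    have hJ := (hpr A k i _).2.2.1 p hp'
    rw [hcut A t x0 m ψ htc (i + 1) N φ p.1 p.2 y him (fun j hj => (hJ j hj).trans hii) hy1
      (fun q hq a ha' => A1 p hpX q hq a ha' y hy2)
      (fun q hq j hj y' hy' => A2 p hpX q hq j (hJ j hj) y' hy'), s5 i hii p.1 p.2 (hlen p hpX), hφ]
  -- second component
  have hcase2 : prX Λ i (η i)
      (fun J l => bd (fun a g y => PsiA A t x0 m ψ a y * g y) (fun j g => upY j g) (cjA A t)
        (i :: J) l (cut t x0 m (i + 1) N φ)) =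
      prX Λ i (η i) (fun J l y => v (i + 1) (i :: J) l (pos t x0 m y) +
        (if y i = N - 1 then φ J (l.map (cjA A t i)) (pos t x0 m y * t i) else 0)) := by
    refine (hpr A k i _).2.2.2.1 Λ Λ _ _ fun p hp' φ' => hbox _ _ fun y hy1 hy2 => ?_
    have hpX := hsub2 p hp'
    have hJ := (hpr A k i _).2.2.1 p hp'
    have hfc : ∀ q ∈ faces (cjA A t) p.1 p.2,
        ((i :: q.1, q.2) : List ℕ × List A) ∈ faces (cjA A t) (i :: p.1) p.2 := fun q hq =>
      List.mem_cons_of_mem _ (List.mem_cons_of_mem _ (List.mem_map.2 ⟨q, hq, rfl⟩))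
    have h1 := hcut A t x0 m ψ htc (i + 1) N (fun J l => φ (i :: J) l) p.1 p.2 y him
      (fun j hj => (hJ j hj).trans hii) hy1
      (fun q hq a ha' => A1 _ hpX (i :: q.1, q.2) (hfc q hq) a ha' y hy2)
      (fun q hq j hj y' hy' => A2 _ hpX (i :: q.1, q.2) (hfc q hq) j (hJ j hj) y' hy')
    have h2 : v (i + 1) (i :: p.1) p.2 (pos t x0 m y) = φ p.1 p.2 (pos t x0 m y) -
        φ p.1 (p.2.map (cjA A t i)) (pos t x0 m y * t i) -
        bd (actA A) (actT t) (cjA A t) p.1 p.2 (fun J l => φ (i :: J) l) (pos t x0 m y) := by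
      rw [s5 i hii (i :: p.1) p.2 (hlen _ hpX), hφ]
      rfl
    have h3 : bd (fun a g y => PsiA A t x0 m ψ a y * g y) (fun j g => upY j g) (cjA A t)
        (i :: p.1) p.2 (cut t x0 m (i + 1) N φ) y =
        cut t x0 m (i + 1) N φ p.1 p.2 y -
        cut t x0 m (i + 1) N φ p.1 (p.2.map (cjA A t i)) (Function.update y i (y i + 1)) -
        bd (fun a g y => PsiA A t x0 m ψ a y * g y) (fun j g => upY j g) (cjA A t) p.1 p.2
          (cut t x0 m (i + 1) N (fun J l => φ (i :: J) l)) y := rfl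
    have h4 : cut t x0 m (i + 1) N φ p.1 p.2 y = φ p.1 p.2 (pos t x0 m y) := by
      unfold cut
      exact if_pos hy1
    have h5 : cut t x0 m (i + 1) N φ p.1 (p.2.map (cjA A t i)) (Function.update y i (y i + 1)) =
        φ p.1 (p.2.map (cjA A t i)) (pos t x0 m y * t i) -
          (if y i = N - 1 then φ p.1 (p.2.map (cjA A t i)) (pos t x0 m y * t i) else 0) := by
      have h6 := hy1 i hii
      unfold cut
      by_cases hyi : y i = N - 1
      · rw [if_pos hyi, sub_self]
        refine if_neg fun h => ?_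
        have h7 := h i hii
        rw [Function.update_self] at h7
        omega
      · rw [if_neg hyi, sub_zero, (hp G t x0 m htc).1 i him y]
        refine if_pos fun j hj => ?_
        by_cases hji : j = i
        · subst hji
          rw [Function.update_self]
          omega
        · rw [Function.update_of_ne hji]
          exact hy1 j hj
    show φ' y * bd (fun a g y => PsiA A t x0 m ψ a y * g y) (fun j g => upY j g) (cjA A t)
        (i :: p.1) p.2 (cut t x0 m (i + 1) N φ) y = φ' y * _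
    rw [h3, h4, h5, h1, h2]
    ring
  -- the last term
  have hlast : prX Λ i (η i) (fun J l y =>
        (if y i = N - 1 then φ J (l.map (cjA A t i)) (pos t x0 m y * t i) else 0)) =
      f i (x0 * t i ^ N) * prX (sumB i N (Function.update n i (N - 1))) i (η i)
        (fun J l y => v i J (l.map (cjA A t i)) (pos t x0 m y * t i)) := by
    have h1 : prX Λ i (η i) (fun J l y =>
        (if y i = N - 1 then φ J (l.map (cjA A t i)) (pos t x0 m y * t i) else 0)) =
        prX (sumB i N (Function.update n i (N - 1))) i (η i)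
          (fun J l y => φ J (l.map (cjA A t i)) (pos t x0 m y * t i)) := by
      refine (hpr A k i _).2.2.2.1 _ _ _ _ fun p _ φ' => ?_
      rw [hΛ]
      exact (hb k i N n).2.2.2.1 (N - 1) (by omega) φ' _
    rw [h1, ← ((hpr A k i (η i)).2.2.2.2 _ (hb k i N _).2.1 (hb k i N _).2.2.1).2]
    refine (hpr A k i _).2.2.2.1 _ _ _ _ fun p hp' φ' => (hb k i N _).1 _ _ fun y hy1 hy2 => ?_
    have hpX := hsub2 p hp'
    have hyi : y i = N - 1 := by rw [hy2 i le_rfl, Function.update_self]
    have hyp : pos t x0 m y * t i = pos t x0 m (Function.update y i N) := by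
      rw [← (hp G t x0 m htc).1 i him y, hyi, Nat.sub_add_cancel hN1]
    have h2 : χ i x0 + N0 * χ i (t i) ≤ χ i (pos t x0 m (Function.update y i N)) := by
      rw [hχpos i him, Function.update_self]
      exact hmono i him N hN
    have h3 : u i p.1 (p.2.map (cjA A t i)) (pos t x0 m (Function.update y i N)) = 0 :=
      (F2 _ hpX (p.1, p.2.map (cjA A t i))
        (List.mem_cons_of_mem _ (List.mem_cons_self)) i (Finset.mem_range.2 hii) _ h2).1
    have h4 : f i (pos t x0 m (Function.update y i N)) = f i (x0 * t i ^ N) := by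
      have h5 := const_f hp t x0 m htc χ hχ h0 him (f i) (χ i x0 + N0 * χ i (t i))
        (fun j hj x hx => F4 j (Finset.mem_range.2 hj) x hx) (Function.update y i N) (by
          rw [Function.update_self]
          exact hmono i him N hN)
      rw [Function.update_self] at h5
      exact h5
    rw [hφ]
    show φ' y * (u i p.1 (p.2.map (cjA A t i)) (pos t x0 m y * t i) +
      f i (pos t x0 m y * t i) * v i p.1 (p.2.map (cjA A t i)) (pos t x0 m y * t i)) =
      φ' y * (f i (x0 * t i ^ N) * v i p.1 (p.2.map (cjA A t i)) (pos t x0 m y * t i))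
    rw [hyp, h3, h4, zero_add]
  -- conclusion
  refine ⟨-f i (x0 * t i ^ N), neg_ne_zero.2 (s3 i hii _), ?_⟩
  have hsplit : prX Λ i (η i) (fun J l y => v (i + 1) (i :: J) l (pos t x0 m y) +
        (if y i = N - 1 then φ J (l.map (cjA A t i)) (pos t x0 m y * t i) else 0)) =
      prX Λ i (η i) (fun J l y => v (i + 1) (i :: J) l (pos t x0 m y)) +
      prX Λ i (η i) (fun J l y =>
        (if y i = N - 1 then φ J (l.map (cjA A t i)) (pos t x0 m y * t i) else 0)) :=
    ((hpr A k i (η i)).2.2.2.2 Λ hΛadd hΛmul).1 _ _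
  have hL : prX Λ (i + 1) (η (i + 1)) (fun J l y => v (i + 1) J l (pos t x0 m y)) =
      prX Λ i (show XX A k i × XX A k i from η (i + 1)).1
        (fun J l y => v (i + 1) J l (pos t x0 m y)) +
      prX Λ i (η i) (fun J l y => v (i + 1) (i :: J) l (pos t x0 m y)) := by
    rw [← e2 i him]
    rfl
  have hR : (0 : k) = prX Λ i (show XX A k i × XX A k i from η (i + 1)).1
      (fun J l => bd (fun a g y => PsiA A t x0 m ψ a y * g y) (fun j g => upY j g) (cjA A t) J l
        (cut t x0 m (i + 1) N φ)) +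
      prX Λ i (η i)
      (fun J l => bd (fun a g y => PsiA A t x0 m ψ a y * g y) (fun j g => upY j g) (cjA A t)
        (i :: J) l (cut t x0 m (i + 1) N φ)) := by
    rw [hid]
    conv_rhs => rw [← e2 i him]
    rfl
  rw [hcase1, hcase2, hsplit, hlast] at hR
  rw [← hΛ, hL]
  linear_combination -hR

end Pool.Agent.Work.MP_e9e200_al.SP
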