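import Pool.Agent.Work.MP_e9e200_al.Bd.B11

/-! Project MP_e9e200_al, block SP, item E1: sums of characters with dual commuting elements. -/

set_option autoImplicit false

namespace Pool.Agent.Work.MP_e9e200_al.SP

open Pool.Agent.Work.MP_e9e200_al

namespace Sum

variable {G : Type} [Group G]

/-- the elements `t i`, `i < n`, continued by `1` -/
def ext (n : ℕ) (t : ℕ → G) : ℕ → G := fun i => if i < n then t i else 1

theorem ext_lt {n : ℕ} (t : ℕ → G) {i : ℕ} (hi : i < n) : ext n t i = t i := if_pos hi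

theorem ext_ge {n : ℕ} (t : ℕ → G) {i : ℕ} (hi : ¬ i < n) : ext n t i = 1 := if_neg hi

theorem ext_comm {n : ℕ} {t : ℕ → G} (h : ∀ i j, t i * t j = t j * t i) (i j : ℕ) :
    ext n t i * ext n t j = ext n t j * ext n t i := by
  by_cases hi : i < n
  · by_cases hj : j < n
    · rw [ext_lt t hi, ext_lt t hj, h i j]
    · rw [ext_ge t hj, one_mul, mul_one]
  · rw [ext_ge t hi, one_mul, mul_one]

theorem sum_val {n : ℕ} {X : ℕ → (Additive G →+ ℝ)} {c : ℕ → ℝ} {v : Additive G →+ ℝ}
    (hv : v = ∑ i ∈ Finset.range n, c i • X i) (x : G) :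
    v (Additive.ofMul x) = ∑ i ∈ Finset.range n, c i * X i (Additive.ofMul x) := by
  rw [hv, AddMonoidHom.finsetSum_apply]
  rfl

theorem val_t {n : ℕ} {X : ℕ → (Additive G →+ ℝ)} {c : ℕ → ℝ} {t : ℕ → G} {v : Additive G →+ ℝ}
    (hv : v = ∑ i ∈ Finset.range n, c i • X i)
    (h0 : ∀ i < n, ∀ j < n, i ≠ j → X i (Additive.ofMul (t j)) = 0) {j : ℕ} (hj : j < n) :
    v (Additive.ofMul (t j)) = c j * X j (Additive.ofMul (t j)) := by
  rw [sum_val hv, Finset.sum_eq_single j]
  · intro i hi hij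
    rw [h0 i (Finset.mem_range.1 hi) j hj hij, mul_zero]
  · intro h
    exact absurd (Finset.mem_range.2 hj) h

theorem large {n : ℕ} {X : ℕ → (Additive G →+ ℝ)} {c : ℕ → ℝ} {v : Additive G →+ ℝ}
    (hn : 1 ≤ n) (hc : ∀ i < n, 0 < c i) (hv : v = ∑ i ∈ Finset.range n, c i • X i) (C : ℝ) :
    ∃ C' : ℝ, ∀ x : G, C' ≤ v (Additive.ofMul x) → ∃ i < n, C ≤ X i (Additive.ofMul x) := by
  refine ⟨∑ i ∈ Finset.range n, c i * C, fun x hx => ?_⟩
  by_contra hcon
  push Not at hcon
  rw [sum_val hv] at hx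
  refine absurd hx (not_le.2 (Finset.sum_lt_sum_of_nonempty ?_ fun i hi => ?_))
  · exact ⟨0, Finset.mem_range.2 hn⟩
  · exact mul_lt_mul_of_pos_left (hcon i (Finset.mem_range.1 hi)) (hc i (Finset.mem_range.1 hi))

end Sum

open SP.Sum Glue Glue3 in
theorem I_SumSP (hd : StData) (hf : StSysFP) (hc : StComb) : StSumSP := by
  intro G _ _ hmet n X c t v hn hX hint hcpos htt h0 hpos hv hfp
  have h0' : ∀ i < n, ∀ j < n, i ≠ j → X i (Additive.ofMul (ext n t j)) = 0 := by
    intro i hi j hj hij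
    rw [ext_lt t hj]
    exact h0 i hi j hj hij
  have hpos' : ∀ i < n, 0 < X i (Additive.ofMul (ext n t i)) := by
    intro i hi
    rw [ext_lt t hi]
    exact hpos i hi
  obtain ⟨e, x0, b, ψ, f, he, hψ, hf1, hf2, hf3, hb⟩ :=
    hd G hmet n X (ext n t) hX hint (ext_comm htt) h0' hpos'
  have he' : (0 : ℝ) < e := by exact_mod_cast he
  -- the powers
  have htt' : ∀ i j, ext n t i ^ e * ext n t j ^ e = ext n t j ^ e * ext n t i ^ e := by
    intro i j
    exact (Commute.pow_pow (ext_comm htt i j) e e).eq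
  have hvt : ∀ j < n, 0 < v (Additive.ofMul (ext n t j ^ e)) := by
    intro j hj
    rw [char_pow, val_t hv h0' hj]
    exact mul_pos he' (mul_pos (hcpos j hj) (hpos' j hj))
  have hadd : ∀ i < n, ∀ x g : G, X i (Additive.ofMul (x * g)) =
      X i (Additive.ofMul x) + X i (Additive.ofMul g) := fun i _ x g => char_mul _ x g
  obtain ⟨u, w, hsys, hend⟩ := hf (commutator G) hmet (Gmon v) (fun g => v (Additive.ofMul g))
    (fun x g => char_mul v x g) (fun g => Iff.rfl) (fun a ha => char_comm v ha)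
    (by
      intro C
      refine unbounded v ?_ C
      rintro rfl
      exact lt_irrefl _ (hvt 0 hn))
    n (fun i g => X i (Additive.ofMul g)) ψ f (fun i => ext n t i ^ e) hn hadd
    (large hn hcpos hv) htt'
    (by
      intro j
      show 0 ≤ v (Additive.ofMul (ext n t j ^ e))
      by_cases hj : j < n
      · exact (hvt j hj).le
      · rw [ext_ge t hj, one_pow, ofMul_one, map_zero])
    hψ ⟨_, (inferInstance : (commutator G).Normal).conj_mem (b 0) (b 0).2
      (pos (fun i => ext n t i ^ e) x0 n (fun _ => 0)), hb 0 hn (fun _ => 0) rfl⟩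
    hf1 hf2 hf3 hfp
  refine hc (commutator G) (fun i => ext n t i ^ e) x0 b n (fun i g => X i (Additive.ofMul g)) ψ f
    (fun g => v (Additive.ofMul g)) u w hn hmet htt' hadd (fun x g => char_mul v x g) ?_ ?_ hvt hb
    hsys hend
  · intro i hi j hj hij
    show X i (Additive.ofMul (ext n t j ^ e)) = 0
    rw [char_pow, h0' i hi j hj hij, mul_zero]
  · intro i hi
    show 0 < X i (Additive.ofMul (ext n t i ^ e))
    rw [char_pow]
    exact mul_pos he' (hpos' i hi)

end Pool.Agent.Work.MP_e9e200_al.SP
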