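import Pool.Agent.Work.MP_e9e200_al.Bd.B11

/-! Block SP of the project MP_e9e200_al, item F7: type `FP_m` gives a system with an end. -/

set_option autoImplicit false
set_option linter.unusedSectionVars false

namespace Pool.Agent.Work.MP_e9e200_al.SP

open Pool.Agent.Work.MP_e9e200_al

namespace SysFP

section

variable {G : Type} [Group G] {S : Submonoid G} {k : Type} [Field k] {P : Type}
  [AddCommGroup P] [Module (MonoidAlgebra ℤ S) P]

/-- the equivariant map -/
def Phi (U V : P →+ (G → k)) (f : G → k) : P →+ (G → k) where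
  toFun := fun p x => U p x + f x * V p x
  map_zero' := by
    funext x
    simp
  map_add' := by
    intro p q
    funext x
    rw [map_add, map_add]
    simp only [Pi.add_apply]
    ring

theorem Phi_apply (U V : P →+ (G → k)) (f : G → k) (p : P) (x : G) :
    Phi U V f p x = U p x + f x * V p x := rfl

theorem Phi_of (U V : P →+ (G → k)) (f : G → k)
    (hU : ∀ (s : S) (p : P) (x : G), U (MonoidAlgebra.of ℤ S s • p) x =
      U p (x * s) + (f (x * s) - f x) * V p (x * s))
    (hV : ∀ (s : S) (p : P) (x : G), V (MonoidAlgebra.of ℤ S s • p) x = V p (x * s))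
    (s : S) (p : P) (x : G) :
    Phi U V f (MonoidAlgebra.of ℤ S s • p) x = Phi U V f p (x * s) := by
  rw [Phi_apply, Phi_apply, hU, hV]
  ring

/-- vanishing on a half space is inherited from generators -/
theorem vanish (V : P →+ (G → k)) (vv : G → ℝ) (hvv : ∀ x g, vv (x * g) = vv x + vv g)
    (hS : ∀ g, g ∈ S ↔ 0 ≤ vv g)
    (hV : ∀ (s : S) (p : P) (x : G), V (MonoidAlgebra.of ℤ S s • p) x = V p (x * s))
    (C : ℝ) (T : Set P) (hT : Submodule.span (MonoidAlgebra ℤ S) T = ⊤)
    (h : ∀ q ∈ T, ∀ x, C ≤ vv x → V q x = 0) : ∀ q x, C ≤ vv x → V q x = 0 := by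
  have hsmul : ∀ (r : MonoidAlgebra ℤ S) (q : P), (∀ x, C ≤ vv x → V q x = 0) →
      ∀ x, C ≤ vv x → V (r • q) x = 0 := by
    intro r q hq
    induction r using MonoidAlgebra.induction_on with
    | of s =>
      intro x hx
      rw [hV]
      refine hq _ ?_
      rw [hvv]
      have := (hS s).1 s.2
      linarith
    | add r r' hr hr' =>
      intro x hx
      rw [add_smul, map_add, Pi.add_apply, hr x hx, hr' x hx, add_zero]
    | smul n r hr =>
      intro x hx
      rw [smul_assoc, map_zsmul, Pi.smul_apply, hr x hx, smul_zero]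
  intro q
  have hq : q ∈ Submodule.span (MonoidAlgebra ℤ S) T := by
    rw [hT]
    trivial
  induction hq using Submodule.span_induction with
  | mem q hq => exact h q hq
  | zero =>
    intro x _
    rw [map_zero]
    rfl
  | add q q' _ _ hq hq' =>
    intro x hx
    rw [map_add, Pi.add_apply, hq x hx, hq' x hx, add_zero]
  | smul r q _ hq => exact hsmul r q hq

end

theorem cj_comm {G : Type} [Group G] (A : Subgroup G) [A.Normal] (t : ℕ → G)
    (ht : ∀ i j, t i * t j = t j * t i) (i j : ℕ) (a : A) :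
    cjA A t i (cjA A t j a) = cjA A t j (cjA A t i a) := by
  apply Subtype.ext
  show (t i)⁻¹ * ((t j)⁻¹ * (a : G) * t j) * t i = (t j)⁻¹ * ((t i)⁻¹ * (a : G) * t i) * t j
  have h1 : (t i)⁻¹ * (t j)⁻¹ = (t j)⁻¹ * (t i)⁻¹ := by
    rw [← mul_inv_rev, ← mul_inv_rev, ht]
  calc (t i)⁻¹ * ((t j)⁻¹ * (a : G) * t j) * t i
      = ((t i)⁻¹ * (t j)⁻¹) * a * (t j * t i) := by group
    _ = ((t j)⁻¹ * (t i)⁻¹) * a * (t i * t j) := by rw [h1, ht j i]
    _ = (t j)⁻¹ * ((t i)⁻¹ * (a : G) * t i) * t j := by group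

end SysFP

open SysFP in
theorem I_SysFP (hr : StRec) (hw : StWW) (hk : StKap) (hc : StCmp) : StSysFP := by
  intro G _ A _ hab S vv hvv hS hA hbig k _ m χ ψ f t hm hχ hχv ht htS hψ hψ1 hf hf' hf0 hFP
  obtain ⟨P, d, ε, hproj, hfin, hsurj, hex0, hex⟩ := hFP
  have hres : IsRes P d ε := ⟨hproj, hsurj, hex0, hex⟩
  have hAS : ∀ a ∈ A, a ∈ S := fun a ha => (hS a).2 (hA a ha).ge
  obtain ⟨U, V, V0, Ueq, UJ, VU, Veq, VJ, Vd⟩ := hr A S m χ ψ f hχ hf hf' P d ε hres
  obtain ⟨κ, hκ0, hκ⟩ := hk S A (fun a => ⟨a, hAS a a.2⟩) (fun j => ⟨t j, htS j⟩) (cjA A t)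
    (fun a b => Subtype.ext (hab a a.2 b b.2)) (fun i j => Subtype.ext (ht i j))
    (fun a j => Subtype.ext (by
      show (a : G) * t j = t j * ((t j)⁻¹ * a * t j)
      group)) (fun i j a => cj_comm A t ht i j a) P d ε hres
  -- comparison of boundaries
  have hcmp : ∀ (j : ℕ) (F : P j →+ (G → k)),
      (∀ (s : S) (p : P j) (x : G), F (MonoidAlgebra.of ℤ S s • p) x = F p (x * s)) →
      ∀ J l, J.length + l.length = j + 1 → F (d j (κ (j + 1) J l)) =
        bd (actA A) (actT t) (cjA A t) J l (fun J' l' => F (κ j J' l')) := by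
    intro j F hF J l hJl
    rw [hκ j J l hJl]
    exact hc.1 A (P j) (G → k) (G → k) _ _ (actA A) (actT t) (cjA A t) F id
      (fun x y => map_sub F x y) (fun x y => rfl) J l (κ j) (fun J' l' => F (κ j J' l'))
      (fun p _ => ⟨rfl, fun a _ => funext fun x => hF _ _ x, fun i _ => funext fun x => hF _ _ x⟩)
  have hPhiof : ∀ j < m, ∀ (s : S) (p : P j) (x : G),
      Phi (U j) (V j) (f j) (MonoidAlgebra.of ℤ S s • p) x =
        Phi (U j) (V j) (f j) p (x * s) := fun j hj s p x =>
    Phi_of (U j) (V j) (f j) (Ueq j hj) (Veq j hj.le) s p x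
  have hPhid : ∀ j < m, ∀ q : P (j + 1), Phi (U j) (V j) (f j) (d j q) = V (j + 1) q := by
    intro j hj q
    funext x
    rw [Phi_apply, Vd j hj.le, VU j hj, Pi.zero_apply, mul_zero, add_zero]
  have hstep : ∀ j < m, ∀ J l, J.length + l.length = j + 1 → V (j + 1) (κ (j + 1) J l) =
      bd (actA A) (actT t) (cjA A t) J l (fun J' l' => Phi (U j) (V j) (f j) (κ j J' l')) := by
    intro j hj J l hJl
    rw [← hPhid j hj]
    exact hcmp j _ (hPhiof j hj) J l hJl
  refine ⟨fun j J l => U j (κ j J l), fun j J l => V j (κ j J l), ?_, ?_⟩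
  · refine ⟨hf, hf', hf0, ?_, ?_, ?_, ?_⟩
    · funext x
      have h1 : (show ℤ from ε (κ 0 [] [])) = 1 := hκ0
      exact (V0 (κ 0 [] []) x).trans ((congrArg (fun z : ℤ => (z : k)) h1).trans Int.cast_one)
    · intro j hj J l hJl
      exact hstep j hj J l hJl
    · intro j hj J l _
      exact UJ j hj _
    · intro j hj J l _
      exact VJ j hj _
  · obtain ⟨n, rfl⟩ : ∃ n, m = n + 1 := ⟨m - 1, by omega⟩
    have hn : n < n + 1 := Nat.lt_succ_self n
    -- vanishing of the last cocycle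
    have hvan : ∃ C : ℝ, ∀ (q : P (n + 1)) (x : G), C ≤ vv x → V (n + 1) q x = 0 := by
      obtain ⟨T, hT⟩ := (hfin (n + 1) le_rfl).fg_top
      have hC : ∀ q : P (n + 1), ∃ C : ℝ, ∀ x, (∃ i < n + 1, C ≤ χ i x) → V (n + 1) q x = 0 :=
        fun q => (VJ (n + 1) le_rfl q).2
      choose Cq hCq using hC
      obtain ⟨C, hC⟩ := Finset.exists_le (T.image Cq)
      obtain ⟨C', hC'⟩ := hχv C
      refine ⟨C', vanish (V (n + 1)) vv hvv hS (Veq (n + 1) le_rfl) C' T hT ?_⟩
      intro q hq x hx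
      obtain ⟨i, hi, hix⟩ := hC' x hx
      exact hCq q x ⟨i, hi, (hC _ (Finset.mem_image_of_mem Cq hq)).trans hix⟩
    obtain ⟨wP, w1, w2, w3, Cw, w4⟩ := hw A hab S vv hvv hS hA hbig
      (fun a => ∏ i ∈ Finset.range (n + 1), ψ i a)
      (by
        intro a ha b hb
        show ∏ i ∈ Finset.range (n + 1), ψ i (a * b) =
          (∏ i ∈ Finset.range (n + 1), ψ i a) * ∏ i ∈ Finset.range (n + 1), ψ i b
        rw [← Finset.prod_mul_distrib]
        exact Finset.prod_congr rfl fun i hi => hψ i (Finset.mem_range.1 hi) a ha b hb)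
      hψ1 P d ε hres n (Phi (U n) (V n) (f n)) (hPhiof n hn)
      (by
        intro a ha p x
        have e1 := (UJ n hn p).1 a ha x
        have e2 := (VJ n hn.le p).1 a ha x
        have e3 := hf n hn a ha x
        rw [Phi_apply, Phi_apply, e1, e2, e3]
        show _ = (∏ i ∈ Finset.range (n + 1), ψ i a) * _
        rw [Finset.prod_range_succ]
        ring)
      (by
        obtain ⟨C, hC⟩ := hvan
        refine ⟨C, fun q x hx => ?_⟩
        rw [hPhid n hn]
        exact hC q x hx)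
    refine ⟨fun J l => wP (κ n J l), ?_, ?_⟩
    · intro J l hJl
      show V (n + 1) (κ (n + 1) J l) = _
      rw [← hPhid n hn, ← w3]
      exact hcmp n wP w1 J l hJl
    · intro J l _
      exact ⟨fun a ha x => w2 a ha _ x, Cw, fun x hx => w4 _ x hx⟩

end Pool.Agent.Work.MP_e9e200_al.SP
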