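import Pool.Agent.Work.MP_e9e200_al.Bd.B11

/-!
# Translation of systems
-/

set_option autoImplicit false

namespace Pool.Agent.Work.MP_e9e200_al.SP

namespace SysT

theorem cj_comm {G : Type} [Group G] (A : Subgroup G) [A.Normal] (t : ℕ → G)
    (ht : ∀ i j, t i * t j = t j * t i) (i j : ℕ) (a : A) :
    cjA A t i (cjA A t j a) = cjA A t j (cjA A t i a) := by
  apply Subtype.ext
  change (t i)⁻¹ * ((t j)⁻¹ * (a : G) * t j) * t i = (t j)⁻¹ * ((t i)⁻¹ * (a : G) * t i) * t j
  have e1 : (t i)⁻¹ * (t j)⁻¹ = (t j)⁻¹ * (t i)⁻¹ := by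
    rw [← mul_inv_rev, ← mul_inv_rev, ht]
  calc (t i)⁻¹ * ((t j)⁻¹ * (a : G) * t j) * t i
      = ((t i)⁻¹ * (t j)⁻¹) * (a : G) * (t j * t i) := by group
    _ = ((t j)⁻¹ * (t i)⁻¹) * (a : G) * (t i * t j) := by rw [e1, ht j i]
    _ = (t j)⁻¹ * ((t i)⁻¹ * (a : G) * t i) * t j := by group

theorem sh {G k : Type} [Group G] [Field k] (h : StSq) (A : Subgroup G) [A.Normal] (t : ℕ → G)
    (hA : ∀ a ∈ A, ∀ b ∈ A, a * b = b * a) (ht : ∀ i j, t i * t j = t j * t i) :
    ∀ j J l (c : List ℕ → List A → G → k),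
      bd (actA A) (actT t) (cjA A t) J l (fun J' l' => actT t j (c J' (l'.map (cjA A t j)))) =
        actT t j (bd (actA A) (actT t) (cjA A t) J (l.map (cjA A t j)) c) := by
  refine (h A (G → k) (actA A) (actT t) (cjA A t) ?_ ?_ ?_ ?_ ?_ ?_).1
  · intro a x y
    rfl
  · intro j x y
    rfl
  · intro a b x
    funext z
    change x (z * (a : G) * (b : G)) = x (z * (b : G) * (a : G))
    rw [mul_assoc, mul_assoc, hA a a.2 b b.2]
  · intro i j x
    funext z
    change x (z * t i * t j) = x (z * t j * t i)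
    rw [mul_assoc, mul_assoc, ht]
  · intro a j x
    funext z
    change x (z * (a : G) * t j) = x (z * t j * ((t j)⁻¹ * (a : G) * t j))
    congr 1
    group
  · intro i j a
    exact cj_comm A t ht i j a

theorem JA_sh {G k : Type} [Group G] [Field k] (A : Subgroup G) (m n : ℕ) (hn : n ≤ m)
    (χ : ℕ → G → ℝ) (ψ : ℕ → G → k) (hχ : ∀ i < m, ∀ x g, χ i (x * g) = χ i x + χ i g)
    (s : G) (f : G → k) (hf : f ∈ JA A χ ψ n) : (fun x => f (x * s)) ∈ JA A χ ψ n := by
  obtain ⟨h1, C, hC⟩ := hf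
  refine ⟨?_, C + ∑ i ∈ Finset.range n, |χ i s|, ?_⟩
  · intro a ha x
    change f (a * x * s) = _ * f (x * s)
    rw [mul_assoc, h1 a ha]
  · rintro x ⟨i, hi, hix⟩
    apply hC
    refine ⟨i, hi, ?_⟩
    rw [hχ i (lt_of_lt_of_le hi hn)]
    have h2 : |χ i s| ≤ ∑ i ∈ Finset.range n, |χ i s| :=
      Finset.single_le_sum (f := fun i => |χ i s|) (fun _ _ => abs_nonneg _)
        (Finset.mem_range.mpr hi)
    have h3 := neg_abs_le (χ i s)
    linarith

end SysT

theorem I_SysT (h : StSq) : StSysT := by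
  intro G k _ _ A _ t m χ ψ f u v i hA ht hχ hsys
  obtain ⟨h1, h2, h3, h4, h5, h6, h7⟩ := hsys
  refine ⟨?_, ?_, ?_, ?_, ?_, ?_, ?_⟩
  · intro j hj a ha x
    change f j (a * x * t i) = ψ j a * f j (x * t i)
    rw [mul_assoc, h1 j hj a ha]
  · intro j hj g
    obtain ⟨C, hC⟩ := h2 j hj ((t i)⁻¹ * g * t i)
    refine ⟨C - χ j (t i), ?_⟩
    intro x hx
    change f j (x * g * t i) = f j (x * t i)
    have e := hC (x * t i) (by rw [hχ j hj]; linarith)
    rw [← e]
    congr 1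
    group
  · intro j hj x
    exact h3 j hj _
  · funext x
    change v 0 [] ([].map (cjA A t i)) (x * t i) = 1
    rw [List.map_nil, h4]
  · intro j hj J l hJl
    funext x
    change v (j + 1) J (l.map (cjA A t i)) (x * t i) = _
    rw [h5 j hj J (l.map (cjA A t i)) (by rw [List.length_map]; exact hJl)]
    have e := congrFun (SysT.sh h A t hA ht i J l
      (fun J' l' x => u j J' l' x + f j x * v j J' l' x)) x
    exact e.symm
  · intro j hj J l hJl
    exact SysT.JA_sh A m (j + 1) hj χ ψ hχ (t i) _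
      (h6 j hj J (l.map (cjA A t i)) (by rw [List.length_map]; exact hJl))
  · intro j hj J l hJl
    exact SysT.JA_sh A m j hj χ ψ hχ (t i) _
      (h7 j hj J (l.map (cjA A t i)) (by rw [List.length_map]; exact hJl))

end Pool.Agent.Work.MP_e9e200_al.SP
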