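import Pool.Agent.Work.MP_e9e200_al.Bd.B11

/-!
# Commuting elements dual to integer valued characters
-/

set_option autoImplicit false

namespace Pool.Agent.Work.MP_e9e200_al.SP

open Pool.Agent.Work.MP_e9e200_al

namespace Ts

variable {G : Type} [Group G]

theorem X_pow (X : Additive G →+ ℝ) (b : G) (k : ℕ) :
    X (Additive.ofMul (b ^ k)) = k * X (Additive.ofMul b) := by
  rw [ofMul_pow, map_nsmul, nsmul_eq_mul]

theorem X_zpow (X : Additive G →+ ℝ) (b : G) (k : ℤ) :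
    X (Additive.ofMul (b ^ k)) = k * X (Additive.ofMul b) := by
  rw [ofMul_zpow, map_zsmul, zsmul_eq_mul]

/-- the rational vectors with a multiple in the image of `B` -/
def VB (B : Subgroup G) (n : ℕ) (X : ℕ → (Additive G →+ ℝ)) : Submodule ℚ (Fin n → ℚ) where
  carrier := {x | ∃ D : ℕ, 0 < D ∧ ∃ b ∈ B, ∀ i : Fin n,
    X i (Additive.ofMul b) = (D : ℝ) * ((x i : ℚ) : ℝ)}
  zero_mem' := ⟨1, one_pos, 1, B.one_mem, fun i => by simp⟩
  add_mem' := by
    rintro x y ⟨D, hD, b, hb, h⟩ ⟨D', hD', b', hb', h'⟩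
    refine ⟨D * D', Nat.mul_pos hD hD', b ^ D' * b' ^ D,
      B.mul_mem (B.pow_mem hb _) (B.pow_mem hb' _), fun i => ?_⟩
    rw [ofMul_mul, map_add, X_pow, X_pow, h i, h' i]
    simp only [Pi.add_apply, Rat.cast_add, Nat.cast_mul]
    ring
  smul_mem' := by
    rintro q x ⟨D, hD, b, hb, h⟩
    refine ⟨D * q.den, Nat.mul_pos hD q.den_pos, b ^ q.num, B.zpow_mem hb _, fun i => ?_⟩
    rw [X_zpow, h i]
    have hq : ((q.num : ℤ) : ℝ) = (q : ℝ) * (q.den : ℝ) := by
      have := Rat.mul_den_eq_num q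
      exact_mod_cast this.symm
    simp only [Pi.smul_apply, smul_eq_mul, Rat.cast_mul, Nat.cast_mul, hq]
    ring

theorem VB_top (A B : Subgroup G) (hfi : (A ⊔ B).FiniteIndex) (n : ℕ)
    (X : ℕ → (Additive G →+ ℝ)) (hZ : ∀ i < n, ∀ g, ∃ z : ℤ, X i g = z)
    (hA : ∀ i < n, ∀ a ∈ A, X i (Additive.ofMul a) = 0)
    (hli : LinearIndependent ℝ (fun i : Fin n => X i)) : VB B n X = ⊤ := by
  by_contra hne
  obtain ⟨f, hf0, hf⟩ := Submodule.exists_le_ker_of_lt_top (VB B n X) (lt_top_iff_ne_top.mpr hne)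
  -- coefficients
  have hfs : ∀ x : Fin n → ℚ, f x = ∑ i, x i * f (Pi.single i 1) := by
    intro x
    rw [LinearMap.pi_apply_eq_sum_univ f x]
    refine Finset.sum_congr rfl fun i _ => ?_
    rw [smul_eq_mul]
    congr 2
    funext j
    by_cases h : i = j
    · subst h
      rw [if_pos rfl, Pi.single_eq_same]
    · rw [if_neg h, Pi.single_eq_of_ne (Ne.symm h)]
  let ψ : Additive G →+ ℝ := ∑ i : Fin n, ((f (Pi.single i 1) : ℚ) : ℝ) • X i
  have hψ : ∀ g, ψ g = ∑ i : Fin n, ((f (Pi.single i 1) : ℚ) : ℝ) * X i g := by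
    intro g
    simp only [ψ, AddMonoidHom.finsetSum_apply, AddMonoidHom.smul_apply, smul_eq_mul]
  have hψA : ∀ a ∈ A, ψ (Additive.ofMul a) = 0 := by
    intro a ha
    rw [hψ]
    exact Finset.sum_eq_zero fun i _ => by rw [hA i i.2 a ha, mul_zero]
  have hψB : ∀ b ∈ B, ψ (Additive.ofMul b) = 0 := by
    intro b hb
    rw [hψ]
    have hz : ∀ i : Fin n, ∃ z : ℤ, X i (Additive.ofMul b) = z := fun i => hZ i i.2 _
    choose z hz using hz
    have hmem : (fun i => (z i : ℚ)) ∈ VB B n X :=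
      ⟨1, one_pos, b, hb, fun i => by rw [hz i]; simp⟩
    have h0 := hf hmem
    rw [LinearMap.mem_ker, hfs] at h0
    have h1 : ((∑ i : Fin n, ((z i : ℤ) : ℚ) * f (Pi.single i 1) : ℚ) : ℝ) = 0 := by
      rw [h0]; simp
    rw [← h1]
    push_cast
    exact Finset.sum_congr rfl fun i _ => by rw [hz i, mul_comm]
  let Kψ : Subgroup G := (AddMonoidHom.toMultiplicativeRight ψ).ker
  have hmemK : ∀ g, g ∈ Kψ ↔ ψ (Additive.ofMul g) = 0 := by
    intro g
    rw [MonoidHom.mem_ker]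
    rfl
  have hle : A ⊔ B ≤ Kψ := sup_le (fun a ha => (hmemK a).mpr (hψA a ha))
    (fun b hb => (hmemK b).mpr (hψB b hb))
  have hψ0 : ψ = 0 := by
    ext g
    obtain ⟨k, hk, -, hmem⟩ := Subgroup.exists_pow_mem_of_index_ne_zero hfi.index_ne_zero
      (Additive.toMul g)
    have h1 := (hmemK _).mp (hle hmem)
    rw [X_pow] at h1
    have hk' : (k : ℝ) ≠ 0 := by exact_mod_cast hk.ne'
    exact (mul_eq_zero.mp h1).resolve_left hk'
  have hall := (Fintype.linearIndependent_iff.mp hli)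
    (fun i => ((f (Pi.single i 1) : ℚ) : ℝ)) hψ0
  apply hf0
  apply LinearMap.ext
  intro x
  rw [hfs]
  refine Finset.sum_eq_zero fun i _ => ?_
  have : f (Pi.single i 1) = 0 := by exact_mod_cast hall i
  rw [this, mul_zero]

end Ts

theorem I_Ts : StTs := by
  intro G _ A B _ hB hfi n X hZ hA hli
  have htop := Ts.VB_top A B hfi n X hZ hA hli
  have hex : ∀ j : Fin n, ∃ b ∈ B, ∃ D : ℕ, 0 < D ∧ ∀ i : Fin n,
      X i (Additive.ofMul b) = (D : ℝ) * (((Pi.single j 1 : Fin n → ℚ) i : ℚ) : ℝ) := by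
    intro j
    have : (Pi.single j 1 : Fin n → ℚ) ∈ Ts.VB B n X := by rw [htop]; trivial
    obtain ⟨D, hD, b, hb, h⟩ := this
    exact ⟨b, hb, D, hD, h⟩
  choose b hb D hD hbD using hex
  classical
  refine ⟨fun j => if h : j < n then b ⟨j, h⟩ else 1, ?_, ?_, ?_⟩
  · intro i j
    have hm : ∀ j, (if h : j < n then b ⟨j, h⟩ else 1 : G) ∈ B := by
      intro j
      by_cases h : j < n
      · rw [dif_pos h]; exact hb _
      · rw [dif_neg h]; exact B.one_mem
    exact hB _ (hm i) _ (hm j)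
  · intro i hi j hj hij
    simp only [dif_pos hj]
    rw [show X i = X ((⟨i, hi⟩ : Fin n) : ℕ) from rfl, hbD]
    have : (⟨i, hi⟩ : Fin n) ≠ ⟨j, hj⟩ := fun h => hij (congrArg Fin.val h)
    rw [Pi.single_eq_of_ne this]
    simp
  · intro i hi
    simp only [dif_pos hi]
    rw [show X i = X ((⟨i, hi⟩ : Fin n) : ℕ) from rfl, hbD]
    rw [Pi.single_eq_same]
    have := hD ⟨i, hi⟩
    simpa using this

end Pool.Agent.Work.MP_e9e200_al.SP
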