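import Pool.Agent.Work.MP_e9e200_al.Bd.B11

/-!
# Characters in the complement of the first invariant vanish on abelian subgroups which contain
the derived group
-/

set_option autoImplicit false

namespace Pool.Agent.Work.MP_e9e200_al.SP

open Pool.Agent.Work.MP_e9e200_al

namespace Van

theorem c_mul {G : Type} [Group G] (χ : Additive G →+ ℝ) (x g : G) :
    χ (Additive.ofMul (x * g)) = χ (Additive.ofMul x) + χ (Additive.ofMul g) := by
  rw [ofMul_mul, map_add]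

theorem c_pow {G : Type} [Group G] (χ : Additive G →+ ℝ) (h : G) (N : ℕ) :
    χ (Additive.ofMul (h ^ N)) = N * χ (Additive.ofMul h) := by
  rw [ofMul_pow, map_nsmul, nsmul_eq_mul]

theorem c_inv {G : Type} [Group G] (χ : Additive G →+ ℝ) (h : G) :
    χ (Additive.ofMul h⁻¹) = -χ (Additive.ofMul h) := by
  rw [ofMul_inv, map_neg]

end Van

open Van in
theorem I_Van (hn : StNC) (hs : StSig1) : StVan := by
  intro G _ _ A hA hcA χ hχ a0 ha0
  by_contra hne
  obtain ⟨a1, ha1, hpos⟩ : ∃ a ∈ A, 0 < χ (Additive.ofMul a) := by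
    rcases lt_or_gt_of_ne hne with h | h
    · refine ⟨a0⁻¹, A.inv_mem ha0, ?_⟩
      rw [c_inv]
      linarith
    · exact ⟨a0, ha0, h⟩
  have hM : Metab G := fun a ha b hb => hA a (hcA ha) b (hcA hb)
  obtain ⟨V, hV, hVc⟩ := hn G
  refine hχ.2 (hs G hM χ hχ.1 V hV ?_)
  intro a ha
  refine Subgroup.closure_mono ?_ (hVc ha)
  intro x hx
  obtain ⟨v, hv, hc⟩ := Group.mem_conjugatesOfSet_iff.1 hx
  obtain ⟨g, rfl⟩ := isConj_iff.1 hc
  obtain ⟨N, hN⟩ := exists_nat_ge (-χ (Additive.ofMul g) / χ (Additive.ofMul a1))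
  refine ⟨g * a1 ^ N, v, ?_, hv, ?_⟩
  · rw [c_mul, c_pow]
    rw [div_le_iff₀ hpos] at hN
    linarith
  · have h1 : a1 ^ N * v = v * a1 ^ N := hA _ (pow_mem ha1 N) _ (hcA (hV v hv))
    calc g * v * g⁻¹ = g * (v * a1 ^ N) * (a1 ^ N)⁻¹ * g⁻¹ := by group
      _ = g * (a1 ^ N * v) * (a1 ^ N)⁻¹ * g⁻¹ := by rw [h1]
      _ = g * a1 ^ N * v * (g * a1 ^ N)⁻¹ := by
        rw [mul_inv_rev]
        simp only [mul_assoc]

end Pool.Agent.Work.MP_e9e200_al.SP
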