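import Pool.Agent.Work.MP_e9e200_al.Bd.B11

/-!
# A cocycle which vanishes on a half space
-/

set_option autoImplicit false

namespace Pool.Agent.Work.MP_e9e200_al.SP

open Pool.Agent.Work.MP_e9e200_al

namespace WW

/-- evaluation at a point -/
def ev {G k M : Type} [AddCommGroup M] [Field k] (Φ : M →+ (G → k)) (x1 : G) : M →+ k where
  toFun p := Φ p x1
  map_zero' := by simp
  map_add' p q := by simp

theorem ev_apply {G k M : Type} [AddCommGroup M] [Field k] (Φ : M →+ (G → k)) (x1 : G) (p : M) :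
    ev Φ x1 p = Φ p x1 := rfl

theorem coset {G : Type} [Group G] {S : Submonoid G} {vv : G → ℝ}
    (hvv : ∀ x g, vv (x * g) = vv x + vv g) (hS : ∀ g, g ∈ S ↔ 0 ≤ vv g) {x1 x : G}
    (hx : vv x1 ≤ vv x) : ∃ s : S, x = x1 * s := by
  refine ⟨⟨x1⁻¹ * x, (hS _).2 ?_⟩, by simp⟩
  have h1 := hvv x1 (x1⁻¹ * x)
  rw [mul_inv_cancel_left] at h1
  linarith

end WW

open WW in
theorem I_WW (h2 : StNull) (h3 : StExt) : StWW := by
  intro G _ A _ hAc S vv hvv hS hA0 hub k _ ψ hψ hne P d ε hres n Φ hΦs hΦa hC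
  have hAS : ∀ a ∈ A, a ∈ S := fun a ha => (hS a).2 (hA0 a ha).ge
  obtain ⟨C, hC⟩ := hC
  obtain ⟨x1, hx1⟩ := hub C
  obtain ⟨a0, ha0, hψ0⟩ := hne
  have hconj : ∀ b ∈ A, x1 * b * x1⁻¹ ∈ A := fun b hb => (inferInstance : A.Normal).conj_mem b hb x1
  have ha : x1⁻¹ * a0 * x1 ∈ A := (inferInstance : A.Normal).conj_mem' a0 ha0 x1
  have hψa : ψ (x1 * (x1⁻¹ * a0 * x1) * x1⁻¹) ≠ 1 := by
    have : x1 * (x1⁻¹ * a0 * x1) * x1⁻¹ = a0 := by group
    rw [this]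
    exact hψ0
  have hφd : ∀ q, ev Φ x1 (d n q) = 0 := fun q => hC q x1 hx1
  have hφa : ∀ (b : G) (hb : b ∈ A) (p : P n),
      ev Φ x1 (MonoidAlgebra.of ℤ S ⟨b, hAS b hb⟩ • p) = ψ (x1 * b * x1⁻¹) * ev Φ x1 p := by
    intro b hb p
    rw [ev_apply, ev_apply, hΦs, ← hΦa _ (hconj b hb)]
    congr 1
    simp
  obtain ⟨h, hheq, hh0, hhs⟩ := h2 A hAc S hAS P d ε hres _ ha
  have hsub : ψ (x1 * (x1⁻¹ * a0 * x1) * x1⁻¹) - 1 ≠ 0 := sub_ne_zero.2 hψa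
  obtain ⟨hproj, _, _, hex⟩ := hres
  cases n with
  | zero =>
    have hφ0 : ∀ p, ev Φ x1 p = 0 := by
      intro p
      have e1 : (ψ (x1 * (x1⁻¹ * a0 * x1) * x1⁻¹) - 1) * ev Φ x1 p = 0 := by
        rw [sub_mul, one_mul, ← hφa _ ha, ← map_sub, ← hh0 p]
        exact hφd _
      exact (mul_eq_zero.1 e1).resolve_left hsub
    refine ⟨Φ, hΦs, hΦa, fun _ => rfl, vv x1, ?_⟩
    intro p x hx
    obtain ⟨s, rfl⟩ := coset hvv hS hx
    rw [← hΦs]
    exact hφ0 _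
  | succ n =>
    set c := ψ (x1 * (x1⁻¹ * a0 * x1) * x1⁻¹) - 1 with hc
    let ξ : P n →+ k :=
      { toFun := fun q => c⁻¹ * ev Φ x1 (h n q)
        map_zero' := by simp
        map_add' := fun q q' => by rw [map_add, map_add, mul_add] }
    have hξ : ∀ q, ξ q = c⁻¹ * ev Φ x1 (h n q) := fun _ => rfl
    have hφξ : ∀ p, ev Φ x1 p = ξ (d n p) := by
      intro p
      have e1 : c * ev Φ x1 p = ev Φ x1 (h n (d n p)) := by
        rw [hc, sub_mul, one_mul, ← hφa _ ha, ← map_sub, ← hhs n p, map_add, hφd, zero_add]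
      rw [hξ, ← e1, inv_mul_cancel_left₀ hsub]
    obtain ⟨Ξ, hΞs, hΞa, hΞ1⟩ := h3 A S hAS ψ x1 (P n) (hproj n) ξ (by
      intro b hb q
      rw [hξ, hξ, hheq n b hb, hφa b hb]
      ring)
    have hdd : ∀ q, d n (d (n + 1) q) = 0 := fun q => (hex n).apply_apply_eq_zero q
    refine ⟨Φ - Ξ.comp (d n).toAddMonoidHom, ?_, ?_, ?_, vv x1, ?_⟩
    · intro s p x
      have e1 : d n (MonoidAlgebra.of ℤ S s • p) = MonoidAlgebra.of ℤ S s • d n p := map_smul _ _ _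
      show Φ (MonoidAlgebra.of ℤ S s • p) x - Ξ (d n (MonoidAlgebra.of ℤ S s • p)) x =
        Φ p (x * s) - Ξ (d n p) (x * s)
      rw [e1, hΦs, hΞs]
    · intro a ha p x
      show Φ p (a * x) - Ξ (d n p) (a * x) = ψ a * (Φ p x - Ξ (d n p) x)
      rw [hΦa a ha, hΞa a ha]
      ring
    · intro q
      show Φ (d (n + 1) q) - Ξ (d n (d (n + 1) q)) = Φ (d (n + 1) q)
      rw [hdd, map_zero, sub_zero]
    · intro p x hx
      obtain ⟨s, rfl⟩ := coset hvv hS hx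
      have e1 : d n (MonoidAlgebra.of ℤ S s • p) = MonoidAlgebra.of ℤ S s • d n p := map_smul _ _ _
      show Φ p (x1 * s) - Ξ (d n p) (x1 * s) = 0
      rw [← hΦs, hΞ1, ← e1, ← hφξ, ev_apply, sub_self]

end Pool.Agent.Work.MP_e9e200_al.SP
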