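import Pool.Agent.Work.MP_e9e200_al.Bd.B11

/-!
# Evaluation of the last cocycle of a system on the fundamental chain
-/

set_option autoImplicit false

namespace Pool.Agent.Work.MP_e9e200_al.SP

open Pool.Agent.Work.MP_e9e200_al

namespace Ev

/-- restriction of a system to a smaller length -/
theorem restr {G k : Type} [Group G] [Field k] (A : Subgroup G) [A.Normal] (t : ℕ → G) (m : ℕ)
    (χ : ℕ → G → ℝ) (ψ f : ℕ → G → k) (u v : ℕ → List ℕ → List A → G → k)
    (h : IsSys A t (m + 1) χ ψ f u v) : IsSys A t m χ ψ f u v := by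
  obtain ⟨h1, h2, h3, h4, h5, h6, h7⟩ := h
  exact ⟨fun i hi => h1 i (by omega), fun i hi => h2 i (by omega), fun i hi => h3 i (by omega), h4,
    fun j hj => h5 j (by omega), fun j hj => h6 j (by omega), fun j hj => h7 j (by omega)⟩

end Ev

theorem I_Ev (hs : StStep) (ht : StSysT) : StEv := by
  intro G k _ _ A _ t x0 m χ ψ hA htt hχ hχ0 hχ1 hψ η hη i
  induction i with
  | zero =>
    intro _ f u v hsys
    refine ⟨0, fun N _ n _ => ?_⟩
    have h0 : v 0 [] [] = fun _ => 1 := hsys.2.2.2.1
    rw [hη.1]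
    change Finsupp.sum (Finsupp.single ([] : List A) (fun _ => (1 : k)) : List A →₀ (Pt → k))
      (fun l φ => sumB 0 N n (fun y => φ y * v 0 [] l (pos t x0 m y))) ≠ 0
    rw [Finsupp.sum_single_index]
    · simp only [sumB, h0, mul_one]
      exact one_ne_zero
    · simp only [sumB, Pi.zero_apply, zero_mul]
  | succ i ih =>
    intro hi f u v hsys
    obtain ⟨N1, hN1⟩ := hs A t x0 m χ ψ hA htt hχ hχ0 hχ1 hψ η hη i (by omega) f u v hsys
    have hsys' := ht A t (i + 1) χ ψ f u v i hA htt (fun j hj => hχ j (by omega)) hsys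
    obtain ⟨N2, hN2⟩ := ih (by omega) _ _ _ (Ev.restr A t i χ ψ _ _ _ hsys')
    refine ⟨max N1 (N2 + 1), fun N hN n hn => ?_⟩
    have h1 : N1 ≤ N := (le_max_left _ _).trans hN
    have h2 : N2 + 1 ≤ N := (le_max_right _ _).trans hN
    obtain ⟨c, hc, e⟩ := hN1 N h1 n (fun j hj hj' => (le_max_left _ _).trans (hn j hj hj'))
    rw [e]
    refine mul_ne_zero hc (hN2 N (by omega) (Function.update n i (N - 1)) ?_)
    intro j hj hj'
    by_cases h : j = i
    · rw [h, Function.update_self]
      omega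
    · rw [Function.update_of_ne h]
      have := hn j (by omega) hj'
      have := le_max_right N1 (N2 + 1)
      omega

end Pool.Agent.Work.MP_e9e200_al.SP
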