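import Pool.Agent.Work.MP_e9e200_al.Bd.B11

/-!
# Item F6: chains of a resolution indexed by cubes
-/

set_option autoImplicit false

namespace Pool.Agent.Work.MP_e9e200_al.SP

namespace Kap

/-- the chains: iterated preimages of boundaries -/
noncomputable def kap {L : Type} {P : ℕ → Type} [∀ n, AddCommGroup (P n)]
    (d : ∀ n, P (n + 1) → P n)
    (bdd : ∀ n, List ℕ → List L → (List ℕ → List L → P n) → P n) (k0 : P 0) :
    ∀ n, List ℕ → List L → P n
  | 0 => fun _ _ => k0
  | n + 1 => fun J l =>
    open Classical in
    if h : ∃ x, d n x = bdd n J l (kap d bdd k0 n) then h.choose else 0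

theorem kap_succ {L : Type} {P : ℕ → Type} [∀ n, AddCommGroup (P n)]
    (d : ∀ n, P (n + 1) → P n)
    (bdd : ∀ n, List ℕ → List L → (List ℕ → List L → P n) → P n) (k0 : P 0) (n : ℕ)
    (J : List ℕ) (l : List L) (h : ∃ x, d n x = bdd n J l (kap d bdd k0 n)) :
    d n (kap d bdd k0 (n + 1) J l) = bdd n J l (kap d bdd k0 n) := by
  have e : kap d bdd k0 (n + 1) J l = h.choose := by
    rw [kap]
    exact dif_pos h
  rw [e]
  exact h.choose_spec

theorem hof {S : Type} [Monoid S] (s : S) (p : Triv S) : MonoidAlgebra.of ℤ S s • p = p := by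
  show (aug S (MonoidAlgebra.of ℤ S s)) * (show ℤ from p) = p
  have h : aug S (MonoidAlgebra.of ℤ S s) = 1 := by
    simp [aug]
  rw [h, one_mul]

end Kap

open Kap in
theorem I_Kap (h : StSq) (hc : StCmp) : StKap := by
  intro S L _ e t cj hee htt het hcc P d ε hres
  obtain ⟨-, hsur, hex0, hex⟩ := hres
  obtain ⟨k0, hk0⟩ := hsur (show Triv S from (1 : ℤ))
  set bdd : ∀ n, List ℕ → List L → (List ℕ → List L → P n) → P n := fun n J l c =>
    bd (fun a (p : P n) => MonoidAlgebra.of ℤ S (e a) • p)
      (fun j (p : P n) => MonoidAlgebra.of ℤ S (t j) • p) cj J l c with hbdd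
  set κ : ∀ n, List ℕ → List L → P n :=
    kap (P := fun n => P n) (fun n x => d n x) bdd k0 with hκ
  have hκ0 : ∀ J l, κ 0 J l = k0 := fun J l => rfl
  have main : ∀ n J l, J.length + l.length = n + 1 →
      d n (κ (n + 1) J l) = bdd n J l (κ n) := by
    intro n
    induction n with
    | zero =>
      intro J l hJl
      refine kap_succ (P := fun n => P n) (fun n x => d n x) bdd k0 0 J l ?_
      refine (hex0 _).1 ?_
      rcases J with _ | ⟨j, J⟩
      · rcases l with _ | ⟨a, l⟩
        · simp at hJl
        · have hl : l = [] := by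
            have : l.length = 0 := by simpa using hJl
            exact List.length_eq_zero_iff.1 this
          subst hl
          simp only [hbdd, bd, bdA, sub_zero]
          rw [map_sub, map_smul, hof, sub_eq_zero]
      · have h1 : J.length + l.length = 0 := by
          simp only [List.length_cons] at hJl
          omega
        have hJ : J = [] := List.length_eq_zero_iff.1 (by omega)
        have hl : l = [] := List.length_eq_zero_iff.1 (by omega)
        subst hJ hl
        simp only [hbdd, bd, bdA, sub_zero, List.map_nil]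
        rw [map_sub, map_smul, hof, sub_eq_zero]
    | succ n ih =>
      intro J l hJl
      refine kap_succ (P := fun n => P n) (fun n x => d n x) bdd k0 (n + 1) J l ?_
      refine (hex n _).1 ?_
      have h1 := hc.1 L (P (n + 1)) (P n) (P n)
        (fun a p => MonoidAlgebra.of ℤ S (e a) • p) (fun j p => MonoidAlgebra.of ℤ S (t j) • p)
        (fun a p => MonoidAlgebra.of ℤ S (e a) • p) (fun j p => MonoidAlgebra.of ℤ S (t j) • p)
        cj (fun x => d n x) (fun x => x) (fun x y => map_sub _ _ _) (fun x y => rfl) J l
        (κ (n + 1)) (fun J' l' => bdd n J' l' (κ n)) (by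
          intro p hp
          have h2 := hc.2 L cj J l p hp
          have h3 := ih p.1 p.2 (by omega)
          refine ⟨h3, fun a _ => ?_, fun j _ => ?_⟩
          · rw [map_smul, h3]
          · rw [map_smul, h3])
      have h4 := (h L (P n) (fun a p => MonoidAlgebra.of ℤ S (e a) • p)
        (fun j p => MonoidAlgebra.of ℤ S (t j) • p) cj (fun a x y => smul_sub _ _ _)
        (fun j x y => smul_sub _ _ _)
        (fun a b x => by rw [← mul_smul, ← map_mul, hee, map_mul, mul_smul])
        (fun i j x => by rw [← mul_smul, ← map_mul, htt, map_mul, mul_smul])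
        (fun a j x => by rw [← mul_smul, ← map_mul, het, map_mul, mul_smul])
        hcc).2 J l (κ n)
      exact h1.trans h4
  exact ⟨κ, by rw [hκ0]; exact hk0, main⟩

end Pool.Agent.Work.MP_e9e200_al.SP
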